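import Mathlib

/-!
# A well order of type `ω₁` and disjoint stationary sets

`I` is a linearly ordered well-founded type in which every proper initial segment is countable and
every countable set is strictly bounded above.  A set `S` is called stationary (`Stat S`) when for
every `F : I → I` there is a non-minimal `α ∈ S` closed under `F`.
-/

set_option autoImplicit false

namespace Pool.Agent.H34

open Set Cardinal

/-- The index type: the well order of type `ω₁`. -/
abbrev Om : Type := (Cardinal.aleph 1).ord.ToType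

theorem Om_card : Cardinal.mk Om = Cardinal.aleph 1 := by
  simp [Om]

theorem Om_countable_Iio (a : Om) : (Set.Iio a).Countable := by
  rw [← Cardinal.le_aleph0_iff_set_countable]
  have h : Cardinal.mk (Set.Iio a) < Cardinal.aleph 1 := by
    have h' := Cardinal.mk_Iio_lt a (by simp [Om])
    rwa [Om_card] at h'
  have h2 : Cardinal.mk (Set.Iio a) < Order.succ Cardinal.aleph0 := by
    rwa [Cardinal.succ_aleph0]
  exact Order.lt_succ_iff.mp h2

theorem Om_uncountable : ¬ (Set.univ : Set Om).Countable := by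
  intro h
  rw [← Cardinal.le_aleph0_iff_set_countable, Cardinal.mk_univ, Om_card] at h
  exact absurd h (not_le.mpr Cardinal.aleph0_lt_aleph_one)

theorem Om_countable_Iic (a : Om) : (Set.Iic a).Countable := by
  have : Set.Iic a = insert a (Set.Iio a) := by
    ext x; simp [le_iff_eq_or_lt]
  rw [this]
  exact (Om_countable_Iio a).insert a

theorem Om_bdd (s : Set Om) (hs : s.Countable) : ∃ b, ∀ a ∈ s, a < b := by
  by_contra hcon
  push Not at hcon
  apply Om_uncountable
  have : (Set.univ : Set Om) ⊆ ⋃ a ∈ s, Set.Iic a := by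
    intro b _
    obtain ⟨a, ha, hab⟩ := hcon b
    simp only [Set.mem_iUnion, Set.mem_Iic]
    exact ⟨a, ha, hab⟩
  exact (hs.biUnion fun a _ => Om_countable_Iic a).mono this

theorem Om_inj : ∃ r : Om → (ℕ → Bool), Function.Injective r := by
  have h : Cardinal.mk Om ≤ Cardinal.mk (ℕ → Bool) := by
    rw [Om_card]
    simp only [Cardinal.mk_pi, Cardinal.mk_bool, Cardinal.prod_const, Cardinal.lift_id,
      Cardinal.mk_nat]
    simpa using Cardinal.aleph_one_le_continuum
  rw [Cardinal.le_def] at h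
  obtain ⟨f⟩ := h
  exact ⟨f, f.injective⟩

/-- Stationary sets, phrased through closure points of functions. -/
def Stat (S : Set Om) : Prop :=
  ∀ F : Om → Om, ∃ α ∈ S, (∃ β, β < α) ∧ ∀ β < α, F β < α

theorem Om_bdd_seq (f : ℕ → Om) : ∃ b, ∀ n, f n < b := by
  obtain ⟨b, hb⟩ := Om_bdd (Set.range f) (Set.countable_range f)
  exact ⟨b, fun n => hb _ ⟨n, rfl⟩⟩

theorem stat_univ : Stat (Set.univ : Set Om) := by
  intro F
  have hstep : ∀ c : Om, ∃ d, c < d ∧ ∀ β ≤ c, F β < d := by
    intro c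
    obtain ⟨d, hd⟩ := Om_bdd (insert c (F '' Set.Iic c)) (((Om_countable_Iic c).image F).insert c)
    exact ⟨d, hd c (Set.mem_insert _ _), fun β hβ => hd _ (Set.mem_insert_of_mem _ ⟨β, hβ, rfl⟩)⟩
  choose g hg1 hg2 using hstep
  obtain ⟨c0, -⟩ := Om_bdd ∅ Set.countable_empty
  let b : ℕ → Om := fun n => g^[n] c0
  have hb : ∀ n, b (n + 1) = g (b n) := fun n => Function.iterate_succ_apply' g n c0
  have hne : {α : Om | ∀ n, b n < α}.Nonempty := Om_bdd_seq b
  set α := WellFounded.min (wellFounded_lt : WellFounded ((· < ·) : Om → Om → Prop)) _ hne with hα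
  have hmem : ∀ n, b n < α := WellFounded.min_mem wellFounded_lt _ hne
  refine ⟨α, Set.mem_univ _, ⟨b 0, hmem 0⟩, fun β hβ => ?_⟩
  have : ¬ (∀ n, b n < β) := fun h =>
    WellFounded.not_lt_min wellFounded_lt {α : Om | ∀ n, b n < α} (x := β) h hβ
  push Not at this
  obtain ⟨n, hn⟩ := this
  calc F β < g (b n) := hg2 _ _ hn
    _ = b (n + 1) := (hb n).symm
    _ < α := hmem _

theorem stat_split (S : Set Om) (hS : Stat S) :
    ∃ S' ⊆ S, Stat S' ∧ Stat (S \ S') := by
  by_contra hcon
  push Not at hcon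
  obtain ⟨r, hr⟩ := Om_inj
  have h1 : ∀ n : ℕ, ∃ b : Bool, ¬ Stat {α ∈ S | r α n = b} := by
    intro n
    by_cases h : Stat {α ∈ S | r α n = true}
    · refine ⟨false, fun h' => hcon {α ∈ S | r α n = true} (Set.sep_subset _ _) h ?_⟩
      convert h' using 1
      ext α
      simp only [Set.mem_sdiff, Set.mem_ofPred_eq, not_and, Bool.not_eq_true]
      tauto
    · exact ⟨true, h⟩
  choose c hc using h1
  have h2 : ∀ n : ℕ, ∃ F : Om → Om, ∀ α ∈ S, r α n = c n → (∃ β, β < α) → ∃ β < α, α ≤ F β := by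
    intro n
    have := hc n
    unfold Stat at this
    push Not at this
    obtain ⟨F, hF⟩ := this
    exact ⟨F, fun α hα hαn hβ => hF α ⟨hα, hαn⟩ hβ⟩
  choose F hF using h2
  have h3 : ∀ β : Om, ∃ d, ∀ n, F n β < d := fun β => Om_bdd_seq fun n => F n β
  choose G hG using h3
  have key : ∀ α ∈ S, (∃ β, β < α) → (∀ β < α, G β < α) → r α = fun n => !(c n) := by
    intro α hα hne hcl
    funext n
    by_contra hne'
    have hrc : r α n = c n := by
      cases h : r α n <;> cases h' : c n <;> simp_all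
    obtain ⟨β, hβ, hβ'⟩ := hF n α hα hrc hne
    exact absurd (lt_of_lt_of_le ((hG β n).trans (hcl β hβ)) hβ') (lt_irrefl _)
  obtain ⟨α₀, hα₀, hne₀, hcl₀⟩ := hS G
  obtain ⟨α₁, hα₁, hne₁, hcl₁⟩ := hS (fun β => max (G β) α₀)
  have e0 := key α₀ hα₀ hne₀ hcl₀
  have e1 := key α₁ hα₁ hne₁ (fun β hβ => lt_of_le_of_lt (le_max_left _ _) (hcl₁ β hβ))
  have : α₀ = α₁ := hr (e0.trans e1.symm)
  obtain ⟨β, hβ⟩ := hne₁
  have := lt_of_le_of_lt (le_max_right (G β) α₀) (hcl₁ β hβ)
  subst_vars
  exact lt_irrefl _ this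

theorem exists_disjoint_stat :
    ∃ S : ℕ → Set Om, (∀ n, Stat (S n)) ∧ (∀ n, ∀ α ∈ S n, ∃ β, β < α) ∧
      ∀ m n, m ≠ n → Disjoint (S m) (S n) := by
  have hstep : ∀ R : {R : Set Om // Stat R}, ∃ S' : Set Om, S' ⊆ R.1 ∧ Stat S' ∧ Stat (R.1 \ S') :=
    fun R => stat_split R.1 R.2
  choose s hs1 hs2 hs3 using hstep
  let nxt : {R : Set Om // Stat R} → {R : Set Om // Stat R} := fun R => ⟨R.1 \ s R, hs3 R⟩
  let R : ℕ → {R : Set Om // Stat R} := fun n => nxt^[n] ⟨Set.univ, stat_univ⟩
  have hR : ∀ n, (R (n + 1)).1 = (R n).1 \ s (R n) := by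
    intro n
    have : R (n + 1) = nxt (R n) := Function.iterate_succ_apply' nxt n _
    rw [this]
  have hmono : ∀ m n, m ≤ n → (R n).1 ⊆ (R m).1 := by
    intro m n hmn
    induction n, hmn using Nat.le_induction with
    | base => exact subset_rfl
    | succ n _ ih =>
      rw [hR]
      exact Set.sdiff_subset.trans ih
  have hdisj : ∀ m n, m < n → Disjoint (s (R m)) (s (R n)) := by
    intro m n hmn
    have h1 : s (R n) ⊆ (R (m + 1)).1 := (hs1 _).trans (hmono _ _ hmn)
    rw [hR] at h1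
    exact (Set.disjoint_sdiff_right (s := s (R m)) (t := (R m).1)).mono_right h1
  refine ⟨fun n => {α ∈ s (R n) | ∃ β, β < α}, fun n F => ?_, fun n α hα => hα.2, ?_⟩
  · obtain ⟨α, hα, h1, h2⟩ := hs2 (R n) F
    exact ⟨α, ⟨hα, h1⟩, h1, h2⟩
  · intro m n hmn
    have h1 : Disjoint (s (R m)) (s (R n)) := by
      rcases lt_or_gt_of_ne hmn with h | h
      · exact hdisj _ _ h
      · exact (hdisj _ _ h).symm
    exact h1.mono (Set.sep_subset _ _) (Set.sep_subset _ _)

end Pool.Agent.H34
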