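import Mathlib
import Pool.Agent.H34.Omega

/-!
# The space `V` of functions on `ω₁` attached to a sequence of closed subspaces
-/

set_option autoImplicit false

namespace Pool.Agent.H34

open Set
open scoped ENNReal

/-- A fixed sequence of pairwise disjoint stationary sets. -/
noncomputable def SS : ℕ → Set Om := exists_disjoint_stat.choose

theorem SS_stat (n : ℕ) : Stat (SS n) := exists_disjoint_stat.choose_spec.1 n

theorem SS_nonmin (n : ℕ) (α : Om) (h : α ∈ SS n) : ∃ β, β < α :=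
  exists_disjoint_stat.choose_spec.2.1 n α h

theorem SS_disj (m n : ℕ) (h : m ≠ n) (α : Om) (hm : α ∈ SS m) (hn : α ∈ SS n) : False :=
  Set.disjoint_left.mp (exists_disjoint_stat.choose_spec.2.2 m n h) hm hn

section

variable {𝕜 : Type*} [RCLike 𝕜] {E : Type*} [NormedAddCommGroup E] [NormedSpace 𝕜 E]

/-- `f` is eventually zero and, for `α ∈ SS n`, the class of `f` modulo `Ex n` is Cauchy at `α`. -/
def Good (Ex : ℕ → Submodule 𝕜 E) (f : Om → E) : Prop :=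
  (∃ β, ∀ ξ, β < ξ → f ξ = 0) ∧
  ∀ n, ∀ α ∈ SS n, ∀ ε : ℝ, 0 < ε → ∃ β < α, ∀ ξ ξ', β < ξ → ξ < α → β < ξ' → ξ' < α →
    ∃ e ∈ Ex n, ‖f ξ - f ξ' - e‖ < ε

variable {Ex : ℕ → Submodule 𝕜 E}

theorem Om_nonempty : Nonempty Om := ⟨(Om_bdd ∅ Set.countable_empty).choose⟩

theorem good_zero : Good Ex (0 : Om → E) := by
  refine ⟨⟨Om_nonempty.some, fun _ _ => rfl⟩, fun n α hα ε hε => ?_⟩
  obtain ⟨β, hβ⟩ := SS_nonmin n α hα
  exact ⟨β, hβ, fun ξ ξ' _ _ _ _ => ⟨0, (Ex n).zero_mem, by simpa using hε⟩⟩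

theorem good_add {f g : Om → E} (hf : Good Ex f) (hg : Good Ex g) : Good Ex (f + g) := by
  obtain ⟨⟨β1, h1⟩, h2⟩ := hf
  obtain ⟨⟨β1', h1'⟩, h2'⟩ := hg
  refine ⟨⟨max β1 β1', fun ξ hξ => ?_⟩, fun n α hα ε hε => ?_⟩
  · simp [h1 ξ (lt_of_le_of_lt (le_max_left _ _) hξ), h1' ξ (lt_of_le_of_lt (le_max_right _ _) hξ)]
  · obtain ⟨β, hβ, hf⟩ := h2 n α hα (ε / 2) (half_pos hε)
    obtain ⟨β', hβ', hg⟩ := h2' n α hα (ε / 2) (half_pos hε)
    refine ⟨max β β', max_lt hβ hβ', fun ξ ξ' a b c d => ?_⟩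
    obtain ⟨e, he, hee⟩ := hf ξ ξ' (lt_of_le_of_lt (le_max_left _ _) a) b
      (lt_of_le_of_lt (le_max_left _ _) c) d
    obtain ⟨e', he', hee'⟩ := hg ξ ξ' (lt_of_le_of_lt (le_max_right _ _) a) b
      (lt_of_le_of_lt (le_max_right _ _) c) d
    refine ⟨e + e', (Ex n).add_mem he he', ?_⟩
    have : (f + g) ξ - (f + g) ξ' - (e + e') = (f ξ - f ξ' - e) + (g ξ - g ξ' - e') := by
      simp only [Pi.add_apply]; abel
    rw [this]
    calc _ ≤ ‖f ξ - f ξ' - e‖ + ‖g ξ - g ξ' - e'‖ := norm_add_le _ _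
      _ < ε / 2 + ε / 2 := add_lt_add hee hee'
      _ = ε := by ring

theorem good_comp {F : Type*} [NormedAddCommGroup F] [NormedSpace 𝕜 F] {Fx : ℕ → Submodule 𝕜 F}
    (a : E →L[𝕜] F) (ha : ∀ n, ∀ e ∈ Ex n, a e ∈ Fx n) {f : Om → E} (hf : Good Ex f) :
    Good Fx (fun ξ => a (f ξ)) := by
  obtain ⟨⟨β1, h1⟩, h2⟩ := hf
  refine ⟨⟨β1, fun ξ hξ => by simp [h1 ξ hξ]⟩, fun n α hα ε hε => ?_⟩
  obtain ⟨β, hβ, hf⟩ := h2 n α hα (ε / (‖a‖ + 1)) (by positivity)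
  refine ⟨β, hβ, fun ξ ξ' h3 h4 h5 h6 => ?_⟩
  obtain ⟨e, he, hee⟩ := hf ξ ξ' h3 h4 h5 h6
  refine ⟨a e, ha n e he, ?_⟩
  have : a (f ξ) - a (f ξ') - a e = a (f ξ - f ξ' - e) := by simp
  rw [this]
  have hpos : 0 < ‖a‖ + 1 := by positivity
  calc ‖a (f ξ - f ξ' - e)‖ ≤ ‖a‖ * ‖f ξ - f ξ' - e‖ := a.le_opNorm _
    _ ≤ (‖a‖ + 1) * ‖f ξ - f ξ' - e‖ := by
        apply mul_le_mul_of_nonneg_right (by linarith) (norm_nonneg _)
    _ < (‖a‖ + 1) * (ε / (‖a‖ + 1)) := by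
        apply mul_lt_mul_of_pos_left hee hpos
    _ = ε := by field_simp

theorem good_smul (c : 𝕜) {f : Om → E} (hf : Good Ex f) : Good Ex (c • f) := by
  have := good_comp (Fx := Ex) (c • ContinuousLinearMap.id 𝕜 E)
    (fun n e he => by simpa using (Ex n).smul_mem c he) hf
  exact this

variable (Ex) in
/-- The space `V`. -/
noncomputable def V : Submodule 𝕜 (lp (fun _ : Om => E) ∞) where
  carrier := {f | Good Ex (f : Om → E)}
  add_mem' := fun {f g} hf hg => by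
    simp only [Set.mem_ofPred_eq, lp.coeFn_add] at *
    exact good_add hf hg
  zero_mem' := by
    simp only [Set.mem_ofPred_eq, lp.coeFn_zero]
    exact good_zero
  smul_mem' := fun c f hf => by
    simp only [Set.mem_ofPred_eq, lp.coeFn_smul] at *
    exact good_smul c hf

theorem mem_V (f : lp (fun _ : Om => E) ∞) : f ∈ V Ex ↔ Good Ex (f : Om → E) := Iff.rfl

theorem V_isClosed : IsClosed (V Ex : Set (lp (fun _ : Om => E) ∞)) := by
  apply isClosed_of_closure_subset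
  intro f hf
  rw [mem_closure_iff_seq_limit] at hf
  obtain ⟨x, hx, hlim⟩ := hf
  have hx' : ∀ k, Good Ex (x k : Om → E) := hx
  have hnorm : ∀ ε > 0, ∃ k, ∀ ξ, ‖(f : Om → E) ξ - (x k : Om → E) ξ‖ < ε := by
    intro ε hε
    rw [Metric.tendsto_atTop] at hlim
    obtain ⟨k, hk⟩ := hlim ε hε
    refine ⟨k, fun ξ => ?_⟩
    have h1 := hk k le_rfl
    rw [dist_comm, dist_eq_norm] at h1
    calc ‖(f : Om → E) ξ - (x k : Om → E) ξ‖ = ‖((f - x k : lp (fun _ : Om => E) ∞) : Om → E) ξ‖ := by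
          rw [lp.coeFn_sub]; rfl
      _ ≤ ‖f - x k‖ := lp.norm_apply_le_norm ENNReal.top_ne_zero _ _
      _ < ε := h1
  refine ⟨?_, fun n α hα ε hε => ?_⟩
  · choose β hβ using fun k => (hx' k).1
    obtain ⟨b, hb⟩ := Om_bdd_seq β
    refine ⟨b, fun ξ hξ => ?_⟩
    by_contra hne
    obtain ⟨k, hk⟩ := hnorm ‖(f : Om → E) ξ‖ (norm_pos_iff.mpr hne)
    have := hk ξ
    rw [hβ k ξ ((hb k).trans hξ), sub_zero] at this
    exact lt_irrefl _ this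
  · obtain ⟨k, hk⟩ := hnorm (ε / 3) (by positivity)
    obtain ⟨β, hβ, h⟩ := (hx' k).2 n α hα (ε / 3) (by positivity)
    refine ⟨β, hβ, fun ξ ξ' h1 h2 h3 h4 => ?_⟩
    obtain ⟨e, he, hee⟩ := h ξ ξ' h1 h2 h3 h4
    refine ⟨e, he, ?_⟩
    have : (f : Om → E) ξ - (f : Om → E) ξ' - e = ((f : Om → E) ξ - (x k : Om → E) ξ)
        - ((f : Om → E) ξ' - (x k : Om → E) ξ') + ((x k : Om → E) ξ - (x k : Om → E) ξ' - e) := by
      abel
    rw [this]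
    calc _ ≤ ‖((f : Om → E) ξ - (x k : Om → E) ξ) - ((f : Om → E) ξ' - (x k : Om → E) ξ')‖
          + ‖(x k : Om → E) ξ - (x k : Om → E) ξ' - e‖ := norm_add_le _ _
      _ ≤ ‖(f : Om → E) ξ - (x k : Om → E) ξ‖ + ‖(f : Om → E) ξ' - (x k : Om → E) ξ'‖
          + ‖(x k : Om → E) ξ - (x k : Om → E) ξ' - e‖ := by gcongr; exact norm_sub_le _ _
      _ < ε / 3 + ε / 3 + ε / 3 := by gcongr <;> exact hk _
      _ = ε := by ring

instance V_complete [CompleteSpace E] : CompleteSpace (V Ex) :=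
  V_isClosed.completeSpace_coe

/-- Value of an element of `V` at a point. -/
noncomputable def ev (f : V Ex) (ξ : Om) : E := (f.1 : Om → E) ξ

theorem ev_add (f g : V Ex) (ξ : Om) : ev (f + g) ξ = ev f ξ + ev g ξ := by
  simp [ev]

theorem ev_sub (f g : V Ex) (ξ : Om) : ev (f - g) ξ = ev f ξ - ev g ξ := by
  simp [ev]

theorem ev_smul (c : 𝕜) (f : V Ex) (ξ : Om) : ev (c • f) ξ = c • ev f ξ := by
  simp [ev, lp.coeFn_smul]

theorem ev_zero (ξ : Om) : ev (0 : V Ex) ξ = 0 := by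
  simp [ev]

theorem ev_good (f : V Ex) : Good Ex (ev f) := f.2

theorem norm_ev_le (f : V Ex) (ξ : Om) : ‖ev f ξ‖ ≤ ‖f‖ :=
  lp.norm_apply_le_norm ENNReal.top_ne_zero f.1 ξ

theorem norm_le_of_ev {f : V Ex} {C : ℝ} (hC : 0 ≤ C) (h : ∀ ξ, ‖ev f ξ‖ ≤ C) : ‖f‖ ≤ C :=
  lp.norm_le_of_forall_le hC h

theorem V_ext {f g : V Ex} (h : ∀ ξ, ev f ξ = ev g ξ) : f = g := by
  apply Subtype.ext
  apply lp.ext
  funext ξ
  exact h ξ

/-- Constructor for elements of `V`. -/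
noncomputable def mkV (f : Om → E) (C : ℝ) (hC : ∀ ξ, ‖f ξ‖ ≤ C) (hf : Good Ex f) : V Ex :=
  ⟨⟨f, memℓp_infty ⟨C, by rintro _ ⟨ξ, rfl⟩; exact hC ξ⟩⟩, hf⟩

@[simp] theorem ev_mkV (f : Om → E) (C : ℝ) (hC : ∀ ξ, ‖f ξ‖ ≤ C) (hf : Good Ex f) (ξ : Om) :
    ev (mkV f C hC hf) ξ = f ξ := rfl

/-- Evaluation as a continuous linear map. -/
noncomputable def evL (ξ : Om) : V Ex →L[𝕜] E :=
  LinearMap.mkContinuous
    { toFun := fun f => ev f ξ
      map_add' := fun f g => ev_add f g ξ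
      map_smul' := fun c f => ev_smul c f ξ } 1 (fun f => by simpa using norm_ev_le f ξ)

@[simp] theorem evL_apply (ξ : Om) (f : V Ex) : evL ξ f = ev f ξ := rfl

theorem good_cut {f : Om → E} (hf : Good Ex f) (γ : Om) :
    Good Ex (fun ξ => if ξ ≤ γ then f ξ else 0) := by
  obtain ⟨⟨β1, h1⟩, h2⟩ := hf
  refine ⟨⟨γ, fun ξ hξ => by simp [not_le.mpr hξ]⟩, fun n α hα ε hε => ?_⟩
  by_cases h : α ≤ γ
  · obtain ⟨β, hβ, hf⟩ := h2 n α hα ε hε
    refine ⟨β, hβ, fun ξ ξ' a b c d => ?_⟩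
    beta_reduce
    rw [if_pos (b.le.trans h), if_pos (d.le.trans h)]
    exact hf ξ ξ' a b c d
  · push Not at h
    refine ⟨γ, h, fun ξ ξ' a b c d => ⟨0, (Ex n).zero_mem, ?_⟩⟩
    beta_reduce
    rw [if_neg (not_le.mpr a), if_neg (not_le.mpr c)]
    simpa using hε

/-- Truncation of an element of `V` at `γ`. -/
noncomputable def cut (f : V Ex) (γ : Om) : V Ex :=
  mkV (fun ξ => if ξ ≤ γ then ev f ξ else 0) ‖f‖ (fun ξ => by
    by_cases h : ξ ≤ γ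
    · simp only [if_pos h]; exact norm_ev_le f ξ
    · simp only [if_neg h, norm_zero]; exact norm_nonneg _) (good_cut (ev_good f) γ)

theorem ev_cut (f : V Ex) (γ ξ : Om) : ev (cut f γ) ξ = if ξ ≤ γ then ev f ξ else 0 := rfl

variable (Ex) in
theorem good_step (e : E) (γ : Om) : Good Ex (fun ξ => if ξ ≤ γ then e else 0) := by
  refine ⟨⟨γ, fun ξ hξ => by simp [not_le.mpr hξ]⟩, fun n α hα ε hε => ?_⟩
  by_cases h : α ≤ γ
  · obtain ⟨β, hβ⟩ := SS_nonmin n α hα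
    refine ⟨β, hβ, fun ξ ξ' a b c d => ⟨0, (Ex n).zero_mem, ?_⟩⟩
    beta_reduce
    rw [if_pos (b.le.trans h), if_pos (d.le.trans h)]
    simpa using hε
  · push Not at h
    refine ⟨γ, h, fun ξ ξ' a b c d => ⟨0, (Ex n).zero_mem, ?_⟩⟩
    beta_reduce
    rw [if_neg (not_le.mpr a), if_neg (not_le.mpr c)]
    simpa using hε

variable (Ex) in
/-- The function with value `e` on `(-∞, γ]` and `0` elsewhere. -/
noncomputable def step (e : E) (γ : Om) : V Ex :=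
  mkV (fun ξ => if ξ ≤ γ then e else 0) ‖e‖ (fun ξ => by
    by_cases h : ξ ≤ γ
    · simp [if_pos h]
    · simp [if_neg h]) (good_step Ex e γ)

theorem ev_step (e : E) (γ ξ : Om) : ev (step Ex e γ) ξ = if ξ ≤ γ then e else 0 := rfl

theorem norm_step_le (e : E) (γ : Om) : ‖step Ex e γ‖ ≤ ‖e‖ :=
  norm_le_of_ev (norm_nonneg _) fun ξ => by
    rw [ev_step]
    by_cases h : ξ ≤ γ
    · simp [if_pos h]
    · simp [if_neg h]

theorem step_add (e e' : E) (γ : Om) : step Ex (e + e') γ = step Ex e γ + step Ex e' γ := by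
  apply V_ext; intro ξ
  rw [ev_add, ev_step, ev_step, ev_step]
  split_ifs <;> simp

theorem step_smul (c : 𝕜) (e : E) (γ : Om) : step Ex (c • e) γ = c • step Ex e γ := by
  apply V_ext; intro ξ
  rw [ev_smul, ev_step, ev_step]
  split_ifs <;> simp

/-! ### Functionals are supported on a countable initial segment -/

theorem exists_bound_functional (μ : V Ex →L[𝕜] 𝕜) :
    ∃ β, ∀ f : V Ex, (∀ ξ ≤ β, ev f ξ = 0) → μ f = 0 := by
  have key : ∀ ε : ℝ, 0 < ε → ∃ β, ∀ f : V Ex, (∀ ξ ≤ β, ev f ξ = 0) → ‖f‖ ≤ 1 → ‖μ f‖ < ε := by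
    intro ε hε
    by_contra hcon
    push Not at hcon
    have hcon' : ∀ β, ∃ f : V Ex, (∀ ξ ≤ β, ev f ξ = 0) ∧ ‖f‖ ≤ 1 ∧ ε ≤ RCLike.re (μ f) := by
      intro β
      obtain ⟨f, hf1, hf2, hf3⟩ := hcon β
      have hne : μ f ≠ 0 := by
        intro h0
        rw [h0, norm_zero] at hf3
        linarith
      have hn : (‖μ f‖ : 𝕜) ≠ 0 := by
        simpa using hne
      refine ⟨((starRingEnd 𝕜) (μ f) / (‖μ f‖ : 𝕜)) • f, fun ξ hξ => ?_, ?_, ?_⟩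
      · rw [ev_smul, hf1 ξ hξ, smul_zero]
      · rw [norm_smul]
        have : ‖(starRingEnd 𝕜) (μ f) / (‖μ f‖ : 𝕜)‖ = 1 := by
          rw [norm_div, RCLike.norm_conj, RCLike.norm_ofReal, abs_norm]
          exact div_self (norm_ne_zero_iff.mpr hne)
        rw [this, one_mul]
        exact hf2
      · rw [map_smul, smul_eq_mul, div_mul_eq_mul_div, RCLike.conj_mul]
        have : ((‖μ f‖ : 𝕜) ^ 2 / (‖μ f‖ : 𝕜)) = (‖μ f‖ : 𝕜) := by
          field_simp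
        rw [this, RCLike.ofReal_re]
        exact hf3
    have hind : ∀ n : ℕ, ∀ β, ∃ f : V Ex, (∀ ξ ≤ β, ev f ξ = 0) ∧ ‖f‖ ≤ 1 ∧
        n * ε ≤ RCLike.re (μ f) := by
      intro n
      induction n with
      | zero =>
        intro β
        exact ⟨0, fun ξ _ => ev_zero ξ, by simp, by simp⟩
      | succ n ih =>
        intro β
        obtain ⟨f, hf1, hf2, hf3⟩ := ih β
        obtain ⟨β', hβ'⟩ := (ev_good f).1
        obtain ⟨g, hg1, hg2, hg3⟩ := hcon' (max β β')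
        refine ⟨f + g, fun ξ hξ => ?_, norm_le_of_ev zero_le_one fun ξ => ?_, ?_⟩
        · rw [ev_add, hf1 ξ hξ, hg1 ξ (hξ.trans (le_max_left _ _)), add_zero]
        · rw [ev_add]
          rcases le_or_gt ξ β' with h | h
          · rw [hg1 ξ (h.trans (le_max_right _ _)), add_zero]
            exact (norm_ev_le f ξ).trans hf2
          · rw [hβ' ξ h, zero_add]
            exact (norm_ev_le g ξ).trans hg2
        · rw [map_add, map_add]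
          push_cast
          linarith
    obtain ⟨n, hn⟩ := exists_nat_gt (‖μ‖ / ε)
    obtain ⟨f, -, hf2, hf3⟩ := hind n Om_nonempty.some
    have h1 : RCLike.re (μ f) ≤ ‖μ‖ := by
      calc RCLike.re (μ f) ≤ ‖μ f‖ := RCLike.re_le_norm _
        _ ≤ ‖μ‖ * ‖f‖ := μ.le_opNorm f
        _ ≤ ‖μ‖ * 1 := by gcongr
        _ = ‖μ‖ := mul_one _
    rw [div_lt_iff₀ hε] at hn
    linarith
  have key2 : ∀ n : ℕ, ∃ β, ∀ f : V Ex, (∀ ξ ≤ β, ev f ξ = 0) → ‖f‖ ≤ 1 →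
      ‖μ f‖ < 1 / ((n : ℝ) + 1) := fun n => key _ (by positivity)
  choose β hβ using key2
  obtain ⟨b, hb⟩ := Om_bdd_seq β
  have key3 : ∀ f : V Ex, (∀ ξ ≤ b, ev f ξ = 0) → ‖f‖ ≤ 1 → μ f = 0 := by
    intro f hf hf1
    by_contra hne
    obtain ⟨n, hn⟩ := exists_nat_one_div_lt (norm_pos_iff.mpr hne)
    exact absurd (hβ n f (fun ξ hξ => hf ξ (hξ.trans (hb n).le)) hf1) (not_lt.mpr hn.le)
  refine ⟨b, fun f hf => ?_⟩
  by_cases hf0 : f = 0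
  · simp [hf0]
  have hn : (‖f‖ : 𝕜) ≠ 0 := by simpa using hf0
  have := key3 ((‖f‖ : 𝕜)⁻¹ • f) (fun ξ hξ => by rw [ev_smul, hf ξ hξ, smul_zero]) (by
    rw [norm_smul, norm_inv, RCLike.norm_ofReal, abs_norm]
    rw [inv_mul_cancel₀ (norm_ne_zero_iff.mpr hf0)])
  rw [map_smul, smul_eq_mul, mul_eq_zero, inv_eq_zero] at this
  exact this.resolve_left hn

/-- `(T f) ξ` depends only on the restriction of `f` to `(-∞, γ]`. -/
def Dep (T : V Ex →L[𝕜] V Ex) (ξ γ : Om) : Prop :=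
  ∀ f : V Ex, (∀ η ≤ γ, ev f η = 0) → ev (T f) ξ = 0

theorem Dep.mono {T : V Ex →L[𝕜] V Ex} {ξ γ γ' : Om} (h : Dep T ξ γ) (hγ : γ ≤ γ') :
    Dep T ξ γ' := fun f hf => h f fun η hη => hf η (hη.trans hγ)

theorem Dep.congr {T : V Ex →L[𝕜] V Ex} {ξ γ : Om} (h : Dep T ξ γ) {f g : V Ex}
    (hfg : ∀ η ≤ γ, ev f η = ev g η) : ev (T f) ξ = ev (T g) ξ := by
  have := h (f - g) (fun η hη => by rw [ev_sub, hfg η hη, sub_self])
  rwa [map_sub, ev_sub, sub_eq_zero] at this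

/-- a countable separating family of functionals -/
def Sep (𝕜 : Type*) [RCLike 𝕜] (E : Type*) [NormedAddCommGroup E] [NormedSpace 𝕜 E] : Prop :=
  ∃ φ : ℕ → (E →L[𝕜] 𝕜), ∀ e, (∀ n, φ n e = 0) → e = 0

theorem exists_dep (hE : Sep 𝕜 E) (T : V Ex →L[𝕜] V Ex) (ξ : Om) : ∃ γ, Dep T ξ γ := by
  obtain ⟨φ, hφ⟩ := hE
  choose β hβ using fun n => exists_bound_functional ((φ n).comp ((evL ξ).comp T))
  obtain ⟨b, hb⟩ := Om_bdd_seq β
  refine ⟨b, fun f hf => hφ _ fun n => ?_⟩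
  have := hβ n f (fun η hη => hf η (hη.trans (hb n).le))
  simpa using this

theorem exists_dep_of_countable (hE : Sep 𝕜 E) (T : V Ex →L[𝕜] V Ex) (s : Set Om)
    (hs : s.Countable) : ∃ γ, ∀ ξ ∈ s, Dep T ξ γ := by
  choose g hg using exists_dep hE T
  obtain ⟨b, hb⟩ := Om_bdd (g '' s) (hs.image g)
  exact ⟨b, fun ξ hξ => (hg ξ).mono (hb _ ⟨ξ, hξ, rfl⟩).le⟩

/-! ### The eventual value -/

theorem exists_lim (hE : Sep 𝕜 E) (h0 : Ex 0 = ⊥) (T : V Ex →L[𝕜] V Ex) (e : E) :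
    ∃ c : E, ∃ ρ, ∀ ξ, ρ < ξ → ∀ γ, Dep T ξ γ → ev (T (step Ex e γ)) ξ = c := by
  choose g hg using exists_dep hE T
  set h : Om → E := fun ξ => ev (T (step Ex e (g ξ))) ξ with hh
  have hval : ∀ ξ γ, Dep T ξ γ → ev (T (step Ex e γ)) ξ = h ξ := by
    intro ξ γ hγ
    have h1 : ev (T (step Ex e γ)) ξ = ev (T (step Ex e (max γ (g ξ)))) ξ := by
      apply hγ.congr
      intro η hη
      rw [ev_step, ev_step, if_pos hη, if_pos (hη.trans (le_max_left _ _))]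
    have h2 : ev (T (step Ex e (g ξ))) ξ = ev (T (step Ex e (max γ (g ξ)))) ξ := by
      apply (hg ξ).congr
      intro η hη
      rw [ev_step, ev_step, if_pos hη, if_pos (hη.trans (le_max_right _ _))]
    rw [h1, hh]
    exact h2.symm
  -- `h` is Cauchy at points of `SS 0`
  have hloc : ∀ α ∈ SS 0, ∀ ε : ℝ, 0 < ε → ∃ β < α, ∀ ξ ξ', β < ξ → ξ < α → β < ξ' → ξ' < α →
      ‖h ξ - h ξ'‖ < ε := by
    intro α hα ε hε
    obtain ⟨γ, hγ⟩ := exists_dep_of_countable hE T (Set.Iio α) (Om_countable_Iio α)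
    obtain ⟨β, hβ, hc⟩ := (ev_good (T (step Ex e γ))).2 0 α hα ε hε
    refine ⟨β, hβ, fun ξ ξ' h1 h2 h3 h4 => ?_⟩
    obtain ⟨e', he', hee'⟩ := hc ξ ξ' h1 h2 h3 h4
    rw [h0, Submodule.mem_bot] at he'
    rw [he', sub_zero, hval ξ γ (hγ ξ h2), hval ξ' γ (hγ ξ' h4)] at hee'
    exact hee'
  have hev : ∀ ε : ℝ, 0 < ε → ∃ ρ, ∀ ξ ξ', ρ < ξ → ρ < ξ' → ‖h ξ - h ξ'‖ < ε := by
    intro ε hε
    by_contra hcon
    push Not at hcon
    choose a b ha hb hab using hcon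
    obtain ⟨α, hα, -, hcl⟩ := SS_stat 0 (fun ρ => max (a ρ) (b ρ))
    obtain ⟨β, hβ, hc⟩ := hloc α hα ε hε
    have h1 := hcl β hβ
    exact absurd (hc (a β) (b β) (ha β) (lt_of_le_of_lt (le_max_left _ _) h1) (hb β)
      (lt_of_le_of_lt (le_max_right _ _) h1)) (not_lt.mpr (hab β))
  choose ρ hρ using fun n : ℕ => hev (1 / ((n : ℝ) + 1)) (by positivity)
  obtain ⟨b, hb⟩ := Om_bdd_seq ρ
  obtain ⟨b', hb'⟩ := Om_bdd {b} (Set.countable_singleton b)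
  refine ⟨h b', b, fun ξ hξ γ hγ => ?_⟩
  rw [hval ξ γ hγ]
  by_contra hne
  have hne' : h ξ - h b' ≠ 0 := sub_ne_zero.mpr hne
  obtain ⟨n, hn⟩ := exists_nat_one_div_lt (norm_pos_iff.mpr hne')
  exact absurd (hρ n ξ b' ((hb n).trans hξ) ((hb n).trans (hb' b rfl))) (not_lt.mpr hn.le)

/-- The eventual value of `T` applied to long constant functions. -/
noncomputable def lim (hE : Sep 𝕜 E) (h0 : Ex 0 = ⊥) (T : V Ex →L[𝕜] V Ex) (e : E) : E :=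
  (exists_lim hE h0 T e).choose

theorem lim_spec (hE : Sep 𝕜 E) (h0 : Ex 0 = ⊥) (T : V Ex →L[𝕜] V Ex) (e : E) :
    ∃ ρ, ∀ ξ, ρ < ξ → ∀ γ, Dep T ξ γ → ev (T (step Ex e γ)) ξ = lim hE h0 T e :=
  (exists_lim hE h0 T e).choose_spec

theorem lim_unique (hE : Sep 𝕜 E) (h0 : Ex 0 = ⊥) (T : V Ex →L[𝕜] V Ex) (e c : E)
    (h : ∃ ρ, ∀ ξ, ρ < ξ → ∃ γ, Dep T ξ γ ∧ ev (T (step Ex e γ)) ξ = c) :
    lim hE h0 T e = c := by
  obtain ⟨ρ, hρ⟩ := h
  obtain ⟨ρ', hρ'⟩ := lim_spec hE h0 T e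
  obtain ⟨ξ, hξ⟩ := Om_bdd {ρ, ρ'} (Set.toFinite _).countable
  obtain ⟨γ, hγ, hγ'⟩ := hρ ξ (hξ ρ (by simp))
  rw [← hγ', hρ' ξ (hξ ρ' (by simp)) γ hγ]

end

end Pool.Agent.H34
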