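import Mathlib
import Pool.Agent.H34.Rigid

/-!
# Algebraic properties of the eventual value
-/

set_option autoImplicit false

namespace Pool.Agent.H34

open Set
open scoped ENNReal

section

variable {𝕜 : Type*} [RCLike 𝕜] {E : Type*} [NormedAddCommGroup E] [NormedSpace 𝕜 E]
variable {Ex : ℕ → Submodule 𝕜 E}

theorem exists_dep_all (hE : Sep 𝕜 E) (T : V Ex →L[𝕜] V Ex) (α : Om) :
    ∃ γ, ∀ ξ, ξ ≤ α → Dep T ξ γ := by
  obtain ⟨γ, hγ⟩ := exists_dep_of_countable hE T (Set.Iic α) (Om_countable_Iic α)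
  exact ⟨γ, fun ξ hξ => hγ ξ hξ⟩

theorem Om_gt (a : Om) : ∃ b, a < b := by
  obtain ⟨b, hb⟩ := Om_bdd {a} (Set.countable_singleton a)
  exact ⟨b, hb a rfl⟩

theorem lim_add (hE : Sep 𝕜 E) (h0 : Ex 0 = ⊥) (T : V Ex →L[𝕜] V Ex) (e e' : E) :
    lim hE h0 T (e + e') = lim hE h0 T e + lim hE h0 T e' := by
  apply lim_unique
  obtain ⟨ρ, hρ⟩ := lim_spec hE h0 T e
  obtain ⟨ρ', hρ'⟩ := lim_spec hE h0 T e'
  refine ⟨max ρ ρ', fun ξ hξ => ?_⟩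
  obtain ⟨γ, hγ⟩ := exists_dep hE T ξ
  refine ⟨γ, hγ, ?_⟩
  rw [step_add, map_add, ev_add, hρ ξ (lt_of_le_of_lt (le_max_left _ _) hξ) γ hγ,
    hρ' ξ (lt_of_le_of_lt (le_max_right _ _) hξ) γ hγ]

theorem lim_smul (hE : Sep 𝕜 E) (h0 : Ex 0 = ⊥) (T : V Ex →L[𝕜] V Ex) (c : 𝕜) (e : E) :
    lim hE h0 T (c • e) = c • lim hE h0 T e := by
  apply lim_unique
  obtain ⟨ρ, hρ⟩ := lim_spec hE h0 T e
  refine ⟨ρ, fun ξ hξ => ?_⟩
  obtain ⟨γ, hγ⟩ := exists_dep hE T ξ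
  refine ⟨γ, hγ, ?_⟩
  rw [step_smul, map_smul, ev_smul, hρ ξ hξ γ hγ]

theorem lim_norm_le (hE : Sep 𝕜 E) (h0 : Ex 0 = ⊥) (T : V Ex →L[𝕜] V Ex) (e : E) :
    ‖lim hE h0 T e‖ ≤ ‖T‖ * ‖e‖ := by
  obtain ⟨ρ, hρ⟩ := lim_spec hE h0 T e
  obtain ⟨ξ, hξ⟩ := Om_gt ρ
  obtain ⟨γ, hγ⟩ := exists_dep hE T ξ
  rw [← hρ ξ hξ γ hγ]
  calc ‖ev (T (step Ex e γ)) ξ‖ ≤ ‖T (step Ex e γ)‖ := norm_ev_le _ _
    _ ≤ ‖T‖ * ‖step Ex e γ‖ := T.le_opNorm _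
    _ ≤ ‖T‖ * ‖e‖ := by gcongr; exact norm_step_le e γ

/-- The eventual value as a continuous linear map. -/
noncomputable def limL (hE : Sep 𝕜 E) (h0 : Ex 0 = ⊥) (T : V Ex →L[𝕜] V Ex) : E →L[𝕜] E :=
  LinearMap.mkContinuous
    { toFun := lim hE h0 T
      map_add' := lim_add hE h0 T
      map_smul' := lim_smul hE h0 T } ‖T‖ (lim_norm_le hE h0 T)

@[simp] theorem limL_apply (hE : Sep 𝕜 E) (h0 : Ex 0 = ⊥) (T : V Ex →L[𝕜] V Ex) (e : E) :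
    limL hE h0 T e = lim hE h0 T e := rfl

theorem limL_norm_le (hE : Sep 𝕜 E) (h0 : Ex 0 = ⊥) (T : V Ex →L[𝕜] V Ex) :
    ‖limL hE h0 T‖ ≤ ‖T‖ :=
  ContinuousLinearMap.opNorm_le_bound _ (norm_nonneg T) (fun e => lim_norm_le hE h0 T e)

theorem limL_add (hE : Sep 𝕜 E) (h0 : Ex 0 = ⊥) (T T' : V Ex →L[𝕜] V Ex) :
    limL hE h0 (T + T') = limL hE h0 T + limL hE h0 T' := by
  ext e
  simp only [limL_apply, add_apply]
  apply lim_unique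
  obtain ⟨ρ, hρ⟩ := lim_spec hE h0 T e
  obtain ⟨ρ', hρ'⟩ := lim_spec hE h0 T' e
  refine ⟨max ρ ρ', fun ξ hξ => ?_⟩
  obtain ⟨γ, hγ⟩ := exists_dep hE T ξ
  obtain ⟨γ', hγ'⟩ := exists_dep hE T' ξ
  have h1 := hγ.mono (le_max_left γ γ')
  have h2 := hγ'.mono (le_max_right γ γ')
  refine ⟨max γ γ', fun f hf => ?_, ?_⟩
  · rw [add_apply, ev_add, h1 f hf, h2 f hf, add_zero]
  · rw [add_apply, ev_add,
      hρ ξ (lt_of_le_of_lt (le_max_left _ _) hξ) _ h1,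
      hρ' ξ (lt_of_le_of_lt (le_max_right _ _) hξ) _ h2]

theorem limL_smul (hE : Sep 𝕜 E) (h0 : Ex 0 = ⊥) (c : 𝕜) (T : V Ex →L[𝕜] V Ex) :
    limL hE h0 (c • T) = c • limL hE h0 T := by
  ext e
  simp only [limL_apply, smul_apply]
  apply lim_unique
  obtain ⟨ρ, hρ⟩ := lim_spec hE h0 T e
  refine ⟨ρ, fun ξ hξ => ?_⟩
  obtain ⟨γ, hγ⟩ := exists_dep hE T ξ
  refine ⟨γ, fun f hf => ?_, ?_⟩
  · rw [smul_apply, ev_smul, hγ f hf, smul_zero]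
  · rw [smul_apply, ev_smul, hρ ξ hξ _ hγ]

theorem limL_id (hE : Sep 𝕜 E) (h0 : Ex 0 = ⊥) :
    limL hE h0 (ContinuousLinearMap.id 𝕜 (V Ex)) = ContinuousLinearMap.id 𝕜 E := by
  ext e
  simp only [limL_apply, ContinuousLinearMap.id_apply]
  apply lim_unique
  refine ⟨Om_nonempty.some, fun ξ _ => ⟨ξ, fun f hf => ?_, ?_⟩⟩
  · simpa using hf ξ le_rfl
  · rw [ContinuousLinearMap.id_apply, ev_step, if_pos le_rfl]

theorem limL_comp (hE : Sep 𝕜 E) (h0 : Ex 0 = ⊥) (S T : V Ex →L[𝕜] V Ex) :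
    limL hE h0 (S.comp T) = (limL hE h0 S).comp (limL hE h0 T) := by
  ext e
  simp only [limL_apply, ContinuousLinearMap.comp_apply]
  apply lim_unique
  obtain ⟨ρ, hρ⟩ := lim_spec hE h0 T e
  obtain ⟨ρS, hρS⟩ := lim_spec hE h0 S (lim hE h0 T e)
  -- the correction term
  obtain ⟨γ0, hγ0⟩ := exists_dep_all hE T ρ
  set v : V Ex := cut (T (step Ex e γ0)) ρ - step Ex (lim hE h0 T e) ρ with hv
  obtain ⟨β, hβ⟩ := (ev_good (S v)).1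
  refine ⟨max ρS β, fun ξ hξ => ?_⟩
  obtain ⟨γ1, hγ1⟩ := exists_dep hE S ξ
  obtain ⟨γ2, hγ2⟩ := exists_dep_all hE T γ1
  refine ⟨max γ0 γ2, fun f hf => ?_, ?_⟩
  · rw [ContinuousLinearMap.comp_apply]
    apply hγ1
    intro η hη
    exact ((hγ2 η hη).mono (le_max_right γ0 γ2)) f hf
  · rw [ContinuousLinearMap.comp_apply]
    have h1 : ev (S (T (step Ex e (max γ0 γ2)))) ξ =
        ev (S (v + step Ex (lim hE h0 T e) (max ρ γ1))) ξ := by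
      apply hγ1.congr
      intro η hη
      have hd : Dep T η (max γ0 γ2) := (hγ2 η hη).mono (le_max_right γ0 γ2)
      rw [ev_add, hv, ev_sub, ev_cut, ev_step, ev_step]
      rcases le_or_gt η ρ with h | h
      · rw [if_pos h, if_pos h, if_pos (h.trans (le_max_left _ _)), sub_add_cancel]
        exact Dep.congr (hγ0 η h) (fun ζ hζ => by
          rw [ev_step, ev_step, if_pos (hζ.trans (le_max_left _ _)), if_pos hζ])
      · rw [if_neg (not_le.mpr h), if_neg (not_le.mpr h), if_pos (hη.trans (le_max_right _ _)),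
          sub_zero, zero_add]
        exact hρ η h _ hd
    rw [h1, map_add, ev_add, hβ ξ (lt_of_le_of_lt (le_max_right _ _) hξ), zero_add]
    exact hρS ξ (lt_of_le_of_lt (le_max_left _ _) hξ) _ (hγ1.mono (le_max_right _ _))

end

end Pool.Agent.H34
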