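import Mathlib
import Pool.Agent.H34.Rigid2

/-!
# The eventual value preserves every subspace of the family; lifting operators
-/

set_option autoImplicit false

namespace Pool.Agent.H34

open Set
open scoped ENNReal

section

variable {𝕜 : Type*} [RCLike 𝕜] {E : Type*} [NormedAddCommGroup E] [NormedSpace 𝕜 E]
variable {Ex : ℕ → Submodule 𝕜 E}

open Classical in
/-- Oscillating function near `α`. -/
noncomputable def oscFun (e : E) (γ : ℕ → Om) (ξ : Om) : E :=
  if ∃ k : ℕ, γ (6 * k) < ξ ∧ ξ ≤ γ (6 * k + 3) then e else 0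

theorem good_osc (n : ℕ) (e : E) (he : e ∈ Ex n) (α : Om) (hα : α ∈ SS n) (γ : ℕ → Om)
    (hγ : StrictMono γ) (hγα : ∀ k, γ k < α) (hcof : ∀ β < α, ∃ k, β ≤ γ k) :
    Good Ex (oscFun e γ) := by
  classical
  refine ⟨⟨α, fun ξ hξ => ?_⟩, fun j α' hα' ε hε => ?_⟩
  · unfold oscFun
    rw [if_neg]
    rintro ⟨k, -, hk⟩
    exact absurd (hk.trans_lt ((hγα _).trans hξ)) (lt_irrefl _)
  rcases lt_trichotomy α' α with h | h | h
  · -- locally constant
    have hex : ∃ k, α' ≤ γ k := hcof α' h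
    set l := Nat.find hex with hl
    have hl1 : α' ≤ γ l := Nat.find_spec hex
    have hl2 : ∀ m < l, γ m < α' := fun m hm => not_le.mp (Nat.find_min hex hm)
    rcases Nat.eq_zero_or_pos l with h0 | hpos
    · obtain ⟨β, hβ⟩ := SS_nonmin j α' hα'
      have hz : ∀ ξ, ξ < α' → oscFun e γ ξ = 0 := by
        intro ξ hξ
        unfold oscFun
        rw [if_neg]
        rintro ⟨k, hk, -⟩
        have : γ l ≤ γ (6 * k) := hγ.monotone (by omega)
        exact absurd (hk.trans (hξ.trans_le (hl1.trans this))) (lt_irrefl _)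
      refine ⟨β, hβ, fun ξ ξ' _ b _ d => ⟨0, (Ex j).zero_mem, ?_⟩⟩
      rw [hz ξ b, hz ξ' d]
      simpa using hε
    · obtain ⟨l', hl'⟩ : ∃ l', l = l' + 1 := ⟨l - 1, by omega⟩
      have hc : ∀ ξ, γ l' < ξ → ξ < α' →
          oscFun e γ ξ = if ∃ k : ℕ, 6 * k ≤ l' ∧ l' + 1 ≤ 6 * k + 3 then e else 0 := by
        intro ξ h1 h2
        have h3 : ξ < γ (l' + 1) := by
          rw [← hl']; exact h2.trans_le hl1
        unfold oscFun
        congr 1
        apply propext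
        apply exists_congr
        intro k
        constructor
        · rintro ⟨a, b⟩
          refine ⟨?_, ?_⟩
          · by_contra hcon
            have : γ (l' + 1) ≤ γ (6 * k) := hγ.monotone (by omega)
            exact absurd (a.trans (h3.trans_le this)) (lt_irrefl _)
          · by_contra hcon
            have : γ (6 * k + 3) ≤ γ l' := hγ.monotone (by omega)
            exact absurd (h1.trans_le (b.trans this)) (lt_irrefl _)
        · rintro ⟨a, b⟩
          exact ⟨(hγ.monotone a).trans_lt h1, h3.le.trans (hγ.monotone b)⟩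
      refine ⟨γ l', hl2 l' (by omega), fun ξ ξ' a b c d => ⟨0, (Ex j).zero_mem, ?_⟩⟩
      rw [hc ξ a b, hc ξ' c d]
      simpa using hε
  · -- at `α`
    have hj : j = n := by
      by_contra hne
      exact SS_disj j n hne α' hα' (h ▸ hα)
    subst hj
    obtain ⟨β, hβ⟩ := SS_nonmin j α' hα'
    have hm : ∀ ξ, oscFun e γ ξ ∈ Ex j := by
      intro ξ
      unfold oscFun
      split_ifs
      · exact he
      · exact (Ex j).zero_mem
    exact ⟨β, hβ, fun ξ ξ' _ _ _ _ => ⟨_, (Ex j).sub_mem (hm ξ) (hm ξ'), by simpa using hε⟩⟩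
  · refine ⟨α, h, fun ξ ξ' a _ c _ => ⟨0, (Ex j).zero_mem, ?_⟩⟩
    have hz : ∀ ξ, α < ξ → oscFun e γ ξ = 0 := by
      intro ξ hξ
      unfold oscFun
      rw [if_neg]
      rintro ⟨k, -, hk⟩
      exact absurd (hk.trans_lt ((hγα _).trans hξ)) (lt_irrefl _)
    rw [hz ξ a, hz ξ' c]
    simpa using hε

theorem norm_oscFun_le (e : E) (γ : ℕ → Om) (ξ : Om) : ‖oscFun e γ ξ‖ ≤ ‖e‖ := by
  unfold oscFun
  split_ifs
  · exact le_rfl
  · simp

/-- partial sums of blocks -/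
noncomputable def blocks (Ex : ℕ → Submodule 𝕜 E) (e : E) (γ : ℕ → Om) (k : ℕ) : V Ex :=
  ∑ j ∈ Finset.range k, (step Ex e (γ (6 * j + 3)) - step Ex e (γ (6 * j)))

theorem ev_sum {ι : Type*} (s : Finset ι) (f : ι → V Ex) (ξ : Om) :
    ev (∑ j ∈ s, f j) ξ = ∑ j ∈ s, ev (f j) ξ := by
  exact map_sum (evL (Ex := Ex) ξ) f s

theorem ev_blocks (e : E) (γ : ℕ → Om) (hγ : StrictMono γ) (k : ℕ) (ξ : Om)
    (hξ : ξ ≤ γ (6 * k)) : ev (blocks Ex e γ k) ξ = oscFun e γ ξ := by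
  classical
  have hterm : ∀ j, ev (step Ex e (γ (6 * j + 3)) - step Ex e (γ (6 * j))) ξ =
      if γ (6 * j) < ξ ∧ ξ ≤ γ (6 * j + 3) then e else 0 := by
    intro j
    rw [ev_sub, ev_step, ev_step]
    have hlt : γ (6 * j) < γ (6 * j + 3) := hγ (by omega)
    rcases le_or_gt ξ (γ (6 * j)) with h | h
    · rw [if_pos (h.trans hlt.le), if_pos h, if_neg (fun hh => absurd hh.1 (not_lt.mpr h))]
      simp
    · rw [if_neg (not_le.mpr h)]
      by_cases h' : ξ ≤ γ (6 * j + 3)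
      · rw [if_pos h', if_pos ⟨h, h'⟩, sub_zero]
      · rw [if_neg h', if_neg (fun hh => h' hh.2), sub_zero]
  rw [blocks, ev_sum]
  simp_rw [hterm]
  unfold oscFun
  by_cases hex : ∃ j : ℕ, γ (6 * j) < ξ ∧ ξ ≤ γ (6 * j + 3)
  · rw [if_pos hex]
    obtain ⟨j, hj1, hj2⟩ := hex
    have hjk : j < k := by
      by_contra hcon
      have : γ (6 * k) ≤ γ (6 * j) := hγ.monotone (by omega)
      exact absurd (hj1.trans_le (hξ.trans this)) (lt_irrefl _)
    rw [Finset.sum_eq_single j]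
    · rw [if_pos ⟨hj1, hj2⟩]
    · intro i _ hij
      rw [if_neg]
      rintro ⟨hi1, hi2⟩
      rcases lt_or_gt_of_ne hij with h | h
      · have : γ (6 * i + 3) ≤ γ (6 * j) := hγ.monotone (by omega)
        exact absurd (hj1.trans_le (hi2.trans this)) (lt_irrefl _)
      · have : γ (6 * j + 3) ≤ γ (6 * i) := hγ.monotone (by omega)
        exact absurd (hi1.trans_le (hj2.trans this)) (lt_irrefl _)
    · intro h
      exact absurd (Finset.mem_range.mpr hjk) h
  · rw [if_neg hex]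
    apply Finset.sum_eq_zero
    intro j _
    rw [if_neg (fun h => hex ⟨j, h⟩)]

theorem lim_mem (hE : Sep 𝕜 E) (h0 : Ex 0 = ⊥) (T : V Ex →L[𝕜] V Ex) (n : ℕ)
    (hcl : IsClosed (Ex n : Set E)) (e : E) (he : e ∈ Ex n) : lim hE h0 T e ∈ Ex n := by
  obtain ⟨ρ0, hρ0⟩ := lim_spec hE h0 T e
  -- the closure function
  have hF : ∀ ρ : Om, ∃ d : Om, ρ < d ∧ ρ0 < d ∧ (∀ ξ ≤ ρ, Dep T ξ d) ∧
      ∀ η ≤ ρ, ∀ ζ, d < ζ → ev (T (step Ex e η)) ζ = 0 := by
    intro ρ
    obtain ⟨γ, hγ⟩ := exists_dep_all hE T ρ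
    choose s hs using fun η : Om => (ev_good (T (step Ex e η))).1
    obtain ⟨d, hd⟩ := Om_bdd ({ρ, ρ0, γ} ∪ s '' Set.Iic ρ)
      ((Set.toFinite _).countable.union ((Om_countable_Iic ρ).image s))
    refine ⟨d, hd ρ (by simp), hd ρ0 (by simp), fun ξ hξ => (hγ ξ hξ).mono (hd γ (by simp)).le,
      fun η hη ζ hζ => ?_⟩
    exact hs η ζ ((hd (s η) (Or.inr ⟨η, hη, rfl⟩)).trans hζ)
  choose F hF1 hF2 hF3 hF4 using hF
  obtain ⟨α, hα, ⟨β0, hβ0⟩, hclo⟩ := SS_stat n F
  -- a cofinal sequence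
  obtain ⟨a, ha⟩ : ∃ a : ℕ → Om, Set.Iio α = Set.range a :=
    (Om_countable_Iio α).exists_eq_range ⟨β0, hβ0⟩
  have haα : ∀ k, a k < α := fun k => by
    have : a k ∈ Set.Iio α := by rw [ha]; exact ⟨k, rfl⟩
    exact this
  obtain ⟨γ, hγ0, hγs⟩ : ∃ γ : ℕ → Om, γ 0 = a 0 ∧ ∀ k, γ (k + 1) = F (max (F (γ k)) (a k)) :=
    ⟨fun k => Nat.rec (a 0) (fun k c => F (max (F c) (a k))) k, rfl, fun k => rfl⟩
  have hγα : ∀ k, γ k < α := by
    intro k
    induction k with
    | zero => rw [hγ0]; exact haα 0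
    | succ k ih =>
      rw [hγs]
      exact hclo _ (max_lt (hclo _ ih) (haα k))
  have hFγ : ∀ k, F (γ k) < γ (k + 1) := by
    intro k
    rw [hγs]
    exact (le_max_left _ _).trans_lt (hF1 _)
  have hγ : StrictMono γ := strictMono_nat_of_lt_succ fun k => (hF1 _).trans (hFγ k)
  have hcof : ∀ β < α, ∃ k, β ≤ γ k := by
    intro β hβ
    have : β ∈ Set.Iio α := hβ
    rw [ha] at this
    obtain ⟨k, rfl⟩ := this
    exact ⟨k + 1, by rw [hγs]; exact ((le_max_right _ _).trans_lt (hF1 _)).le⟩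
  set f : V Ex := mkV (oscFun e γ) ‖e‖ (norm_oscFun_le e γ)
    (good_osc n e he α hα γ hγ hγα hcof) with hf
  have hTf : ∀ k m, m < 6 * (k + 1) → ev (T f) (γ m) = ev (T (blocks Ex e γ (k + 1))) (γ m) := by
    intro k m hm
    have hd : Dep T (γ m) (γ (6 * (k + 1))) :=
      (hF3 (γ m) (γ m) le_rfl).mono ((hFγ m).le.trans (hγ.monotone (by omega)))
    apply hd.congr
    intro η hη
    rw [ev_blocks e γ hγ (k + 1) η hη, hf, ev_mkV]
  have hzero : ∀ i m, i < m → ev (T (step Ex e (γ i))) (γ m) = 0 := by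
    intro i m him
    exact hF4 (γ i) (γ i) le_rfl (γ m) ((hFγ i).trans_le (hγ.monotone (by omega)))
  have hval0 : ∀ k, ev (T f) (γ (6 * k + 5)) = 0 := by
    intro k
    rw [hTf k _ (by omega), blocks, map_sum, ev_sum]
    apply Finset.sum_eq_zero
    intro j hj
    rw [Finset.mem_range] at hj
    rw [map_sub, ev_sub, hzero _ _ (by omega), hzero _ _ (by omega), sub_zero]
  have hval1 : ∀ k, ev (T f) (γ (6 * k + 2)) = lim hE h0 T e := by
    intro k
    rw [hTf k _ (by omega), blocks, map_sum, ev_sum, Finset.sum_range_succ,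
      Finset.sum_eq_zero, zero_add]
    · rw [map_sub, ev_sub, hzero (6 * k) (6 * k + 2) (by omega), sub_zero]
      apply hρ0
      · calc ρ0 < F (γ 0) := hF2 _
          _ < γ 1 := hFγ 0
          _ ≤ γ (6 * k + 2) := hγ.monotone (by omega)
      · exact (hF3 _ _ le_rfl).mono (hFγ (6 * k + 2)).le
    · intro j hj
      rw [Finset.mem_range] at hj
      rw [map_sub, ev_sub, hzero _ _ (by omega), hzero _ _ (by omega), sub_zero]
  have hclos : lim hE h0 T e ∈ closure (Ex n : Set E) := by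
    rw [Metric.mem_closure_iff]
    intro ε hε
    obtain ⟨β, hβ, h⟩ := (ev_good (T f)).2 n α hα ε hε
    obtain ⟨k, hk⟩ := hcof β hβ
    have h1 : β < γ (6 * k + 2) := hk.trans_lt (hγ (by omega))
    have h2 : β < γ (6 * k + 5) := hk.trans_lt (hγ (by omega))
    obtain ⟨e', he', hee'⟩ := h _ _ h1 (hγα _) h2 (hγα _)
    rw [hval0, hval1, sub_zero] at hee'
    exact ⟨e', he', by rwa [dist_eq_norm]⟩
  rwa [hcl.closure_eq] at hclos

/-- Pointwise action of an operator preserving all the subspaces. -/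
noncomputable def lift (a : E →L[𝕜] E) (ha : ∀ n, ∀ e ∈ Ex n, a e ∈ Ex n) :
    V Ex →L[𝕜] V Ex :=
  LinearMap.mkContinuous
    { toFun := fun f => mkV (fun ξ => a (ev f ξ)) (‖a‖ * ‖f‖)
        (fun ξ => (a.le_opNorm _).trans (by gcongr; exact norm_ev_le f ξ))
        (good_comp a ha (ev_good f))
      map_add' := fun f g => by
        apply V_ext; intro ξ
        rw [ev_add, ev_mkV, ev_mkV, ev_mkV, ev_add, map_add]
      map_smul' := fun c f => by
        apply V_ext; intro ξ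
        rw [RingHom.id_apply, ev_smul, ev_mkV, ev_mkV, ev_smul, map_smul] } ‖a‖
    (fun f => norm_le_of_ev (by positivity) fun ξ =>
      (a.le_opNorm _).trans (by gcongr; exact norm_ev_le f ξ))

@[simp] theorem ev_lift (a : E →L[𝕜] E) (ha : ∀ n, ∀ e ∈ Ex n, a e ∈ Ex n) (f : V Ex) (ξ : Om) :
    ev (lift a ha f) ξ = a (ev f ξ) := rfl

theorem norm_lift_le (a : E →L[𝕜] E) (ha : ∀ n, ∀ e ∈ Ex n, a e ∈ Ex n) :
    ‖(lift a ha : V Ex →L[𝕜] V Ex)‖ ≤ ‖a‖ :=
  LinearMap.mkContinuous_norm_le _ (norm_nonneg a) _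

theorem lim_lift (hE : Sep 𝕜 E) (h0 : Ex 0 = ⊥) (a : E →L[𝕜] E)
    (ha : ∀ n, ∀ e ∈ Ex n, a e ∈ Ex n) (e : E) : lim hE h0 (lift a ha) e = a e := by
  apply lim_unique
  refine ⟨Om_nonempty.some, fun ξ _ => ⟨ξ, fun f hf => ?_, ?_⟩⟩
  · rw [ev_lift, hf ξ le_rfl, map_zero]
  · rw [ev_lift, ev_step, if_pos le_rfl]

end

end Pool.Agent.H34
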