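import Mathlib
import Pool.Agent.H34.Rigid3

/-!
# Every separable Banach algebra is a retract of some `B(V)`
-/

set_option autoImplicit false

namespace Pool.Agent.H34

open Set
open scoped ENNReal

theorem sep_of_separable (𝕜 : Type*) [RCLike 𝕜] (E : Type*) [NormedAddCommGroup E]
    [NormedSpace 𝕜 E] [TopologicalSpace.SeparableSpace E] : Sep 𝕜 E := by
  have hd : ∀ n : ℕ, ∃ g : E →L[𝕜] 𝕜, ‖g‖ ≤ 1 ∧
      g (TopologicalSpace.denseSeq E n) = (‖TopologicalSpace.denseSeq E n‖ : 𝕜) :=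
    fun n => exists_dual_vector'' 𝕜 _
  choose φ hφ1 hφ2 using hd
  refine ⟨φ, fun e he => ?_⟩
  by_contra hne
  have hpos : 0 < ‖e‖ := norm_pos_iff.mpr hne
  obtain ⟨n, hn⟩ := (TopologicalSpace.denseRange_denseSeq E).exists_dist_lt e
    (half_pos hpos)
  rw [dist_eq_norm] at hn
  set d := TopologicalSpace.denseSeq E n with hdd
  have h1 : ‖d‖ ≤ ‖e - d‖ := by
    have h2 : φ n (d - e) = (‖d‖ : 𝕜) := by rw [map_sub, he n, sub_zero, hφ2]
    have h3 : ‖φ n (d - e)‖ ≤ 1 * ‖d - e‖ := (φ n).le_of_opNorm_le (hφ1 n) _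
    rw [h2, RCLike.norm_ofReal, abs_norm, one_mul, norm_sub_rev] at h3
    exact h3
  have h2 : ‖e‖ ≤ ‖e - d‖ + ‖d‖ := by
    calc ‖e‖ = ‖(e - d) + d‖ := by rw [sub_add_cancel]
      _ ≤ _ := norm_add_le _ _
  linarith

section

variable (𝕜 : Type*) [RCLike 𝕜] (A : Type) [NormedRing A] [NormedAlgebra 𝕜 A]
  [TopologicalSpace.SeparableSpace A]

/-- The family of subspaces of `A × A`. -/
noncomputable def ExA : ℕ → Submodule 𝕜 (A × A)
  | 0 => ⊥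
  | 1 => LinearMap.ker (ContinuousLinearMap.fst 𝕜 A A : (A × A) →ₗ[𝕜] A)
  | (n + 2) => LinearMap.ker
      ((ContinuousLinearMap.snd 𝕜 A A - ((ContinuousLinearMap.mul 𝕜 A).flip
        (TopologicalSpace.denseSeq A n)).comp (ContinuousLinearMap.fst 𝕜 A A) :
          (A × A) →L[𝕜] A) : (A × A) →ₗ[𝕜] A)

theorem ExA_zero : ExA 𝕜 A 0 = ⊥ := rfl

theorem mem_ExA_one (x : A × A) : x ∈ ExA 𝕜 A 1 ↔ x.1 = 0 := by
  simp [ExA, LinearMap.mem_ker]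

theorem mem_ExA_two (n : ℕ) (x : A × A) :
    x ∈ ExA 𝕜 A (n + 2) ↔ x.2 = x.1 * TopologicalSpace.denseSeq A n := by
  simp [ExA, LinearMap.mem_ker, sub_eq_zero]

theorem ExA_isClosed (n : ℕ) : IsClosed (ExA 𝕜 A n : Set (A × A)) := by
  match n with
  | 0 => simp [ExA]
  | 1 => exact ContinuousLinearMap.isClosed_ker _
  | (n + 2) => exact ContinuousLinearMap.isClosed_ker _

/-- The space. -/
abbrev VA : Type := V (ExA 𝕜 A)

theorem sepA : Sep 𝕜 (A × A) := sep_of_separable 𝕜 (A × A)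

/-- The eventual value operator on `A × A`. -/
noncomputable def LA (T : VA 𝕜 A →L[𝕜] VA 𝕜 A) : (A × A) →L[𝕜] (A × A) :=
  limL (sepA 𝕜 A) (ExA_zero 𝕜 A) T

/-- The symbol of an operator. -/
noncomputable def rho (T : VA 𝕜 A →L[𝕜] VA 𝕜 A) : A := (LA 𝕜 A T (1, 0)).1

theorem LA_mem (T : VA 𝕜 A →L[𝕜] VA 𝕜 A) (n : ℕ) (x : A × A) (hx : x ∈ ExA 𝕜 A n) :
    LA 𝕜 A T x ∈ ExA 𝕜 A n :=
  lim_mem (sepA 𝕜 A) (ExA_zero 𝕜 A) T n (ExA_isClosed 𝕜 A n) x hx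

theorem LA_apply (T : VA 𝕜 A →L[𝕜] VA 𝕜 A) (a c : A) :
    LA 𝕜 A T (a, c) = (rho 𝕜 A T * a, rho 𝕜 A T * c) := by
  set L := LA 𝕜 A T with hL
  have h1 : ∀ c : A, (L (0, c)).1 = 0 := fun c =>
    (mem_ExA_one 𝕜 A _).mp (LA_mem 𝕜 A T 1 (0, c) ((mem_ExA_one 𝕜 A _).mpr rfl))
  have hsplit : ∀ a c : A, L (a, c) = L (a, 0) + L (0, c) := by
    intro a c
    rw [← map_add]
    simp
  have hfst : ∀ a c : A, (L (a, c)).1 = (L (a, 0)).1 := by
    intro a c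
    rw [hsplit, Prod.fst_add, h1, add_zero]
  have h2 : ∀ a (n : ℕ), (L (a, a * TopologicalSpace.denseSeq A n)).2 =
      (L (a, 0)).1 * TopologicalSpace.denseSeq A n := by
    intro a n
    have := (mem_ExA_two 𝕜 A n _).mp (LA_mem 𝕜 A T (n + 2) (a, a * TopologicalSpace.denseSeq A n)
      ((mem_ExA_two 𝕜 A n _).mpr rfl))
    rw [← hL, hfst] at this
    exact this
  have h3 : ∀ a b : A, (L (a, a * b)).2 = (L (a, 0)).1 * b := by
    intro a b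
    have hc1 : Continuous fun b : A => (L (a, a * b)).2 := by fun_prop
    have hc2 : Continuous fun b : A => (L (a, 0)).1 * b := by fun_prop
    have := (TopologicalSpace.denseRange_denseSeq A).equalizer hc1 hc2
      (by funext n; exact h2 a n)
    exact congrFun this b
  have h4 : ∀ a : A, (L (a, 0)).2 = 0 := by
    intro a
    have := h3 a 0
    rwa [mul_zero, mul_zero] at this
  have h5 : ∀ a b : A, (L (0, a * b)).2 = (L (a, 0)).1 * b := by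
    intro a b
    have := h3 a b
    rwa [hsplit, Prod.snd_add, h4, zero_add] at this
  have h6 : ∀ b : A, (L (0, b)).2 = (L (1, 0)).1 * b := by
    intro b
    have := h5 1 b
    rwa [one_mul] at this
  have h7 : ∀ a : A, (L (a, 0)).1 = (L (1, 0)).1 * a := by
    intro a
    have := h5 a 1
    rw [mul_one, mul_one] at this
    rw [← this, h6]
  apply Prod.ext
  · rw [hfst, h7]; rfl
  · rw [hsplit, Prod.snd_add, h4, zero_add, h6]; rfl

theorem rho_one : rho 𝕜 A (ContinuousLinearMap.id 𝕜 _) = 1 := by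
  unfold rho LA
  rw [limL_id]
  rfl

theorem rho_mul (S T : VA 𝕜 A →L[𝕜] VA 𝕜 A) :
    rho 𝕜 A (S.comp T) = rho 𝕜 A S * rho 𝕜 A T := by
  have h : LA 𝕜 A (S.comp T) (1, 0) = LA 𝕜 A S (LA 𝕜 A T (1, 0)) := by
    unfold LA
    rw [limL_comp]
    rfl
  have : rho 𝕜 A (S.comp T) = (LA 𝕜 A (S.comp T) (1, 0)).1 := rfl
  rw [this, h, LA_apply 𝕜 A T, LA_apply 𝕜 A S, mul_one]

theorem rho_add (S T : VA 𝕜 A →L[𝕜] VA 𝕜 A) :
    rho 𝕜 A (S + T) = rho 𝕜 A S + rho 𝕜 A T := by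
  unfold rho LA
  rw [limL_add]
  rfl

theorem rho_smul (c : 𝕜) (T : VA 𝕜 A →L[𝕜] VA 𝕜 A) :
    rho 𝕜 A (c • T) = c • rho 𝕜 A T := by
  unfold rho LA
  rw [limL_smul]
  rfl

theorem norm_rho_le (T : VA 𝕜 A →L[𝕜] VA 𝕜 A) : ‖rho 𝕜 A T‖ ≤ ‖(1 : A)‖ * ‖T‖ := by
  calc ‖rho 𝕜 A T‖ ≤ ‖LA 𝕜 A T (1, 0)‖ := norm_fst_le _
    _ ≤ ‖LA 𝕜 A T‖ * ‖((1, 0) : A × A)‖ := ContinuousLinearMap.le_opNorm _ _
    _ ≤ ‖T‖ * ‖((1, 0) : A × A)‖ := by
        gcongr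
        exact limL_norm_le _ _ T
    _ = ‖(1 : A)‖ * ‖T‖ := by
        rw [Prod.norm_def, norm_zero, max_eq_left (norm_nonneg _), mul_comm]

/-- Left multiplication on `A × A`. -/
noncomputable def mulA (a : A) : (A × A) →L[𝕜] (A × A) :=
  (ContinuousLinearMap.mul 𝕜 A a).prodMap (ContinuousLinearMap.mul 𝕜 A a)

@[simp] theorem mulA_apply (a : A) (x : A × A) : mulA 𝕜 A a x = (a * x.1, a * x.2) := rfl

theorem mulA_mem (a : A) (n : ℕ) (x : A × A) (hx : x ∈ ExA 𝕜 A n) :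
    mulA 𝕜 A a x ∈ ExA 𝕜 A n := by
  match n with
  | 0 =>
    rw [ExA_zero, Submodule.mem_bot] at *
    subst hx
    simp
  | 1 =>
    rw [mem_ExA_one] at *
    simp [hx]
  | (n + 2) =>
    rw [mem_ExA_two] at *
    simp [hx, mul_assoc]

theorem norm_mulA_le (a : A) : ‖mulA 𝕜 A a‖ ≤ ‖a‖ := by
  refine ContinuousLinearMap.opNorm_le_bound _ (norm_nonneg a) fun x => ?_
  rw [mulA_apply, Prod.norm_def]
  refine max_le ?_ ?_
  · exact (norm_mul_le _ _).trans (by gcongr; exact norm_fst_le x)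
  · exact (norm_mul_le _ _).trans (by gcongr; exact norm_snd_le x)

/-- The embedding of `A` in `B(V)`. -/
noncomputable def iot (a : A) : VA 𝕜 A →L[𝕜] VA 𝕜 A :=
  lift (mulA 𝕜 A a) (mulA_mem 𝕜 A a)

theorem iot_mul (a b : A) : iot 𝕜 A (a * b) = (iot 𝕜 A a).comp (iot 𝕜 A b) := by
  ext1 f
  apply V_ext
  intro ξ
  simp only [iot, ContinuousLinearMap.comp_apply, ev_lift, mulA_apply, mul_assoc]

theorem iot_one : iot 𝕜 A 1 = ContinuousLinearMap.id 𝕜 _ := by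
  ext1 f
  apply V_ext
  intro ξ
  simp [iot]

theorem iot_sub (a b : A) : iot 𝕜 A (a - b) = iot 𝕜 A a - iot 𝕜 A b := by
  ext1 f
  apply V_ext
  intro ξ
  rw [sub_apply, ev_sub]
  simp [iot, sub_mul]

theorem norm_iot_le (a : A) : ‖iot 𝕜 A a‖ ≤ ‖a‖ :=
  (norm_lift_le _ _).trans (norm_mulA_le 𝕜 A a)

theorem rho_iot (a : A) : rho 𝕜 A (iot 𝕜 A a) = a := by
  have : LA 𝕜 A (iot 𝕜 A a) (1, 0) = mulA 𝕜 A a (1, 0) := lim_lift (sepA 𝕜 A) (ExA_zero 𝕜 A) _ _ _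
  rw [rho, this]
  simp

end

end Pool.Agent.H34
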