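import Mathlib

/-!
# Definitions: generalized hyperbolic isomorphisms and generalized `(C, λ)`-structures
-/

set_option autoImplicit false

namespace Pool.Agent.H34

variable {𝕜 : Type*} [RCLike 𝕜] {B : Type*} [NormedAddCommGroup B] [NormedSpace 𝕜 B]

/-- A linear isomorphism `T` of `B` is generalized hyperbolic: there is a splitting
`B = Es ⊕ Eu` into closed subspaces with `T Es ⊆ Es`, `T⁻¹ Eu ⊆ Eu`, and an integer `m > 0` such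
that `T ^ m` on `Es` and `T ^ (-m)` on `Eu` have operator norm at most some `c < 1`. -/
def IsGeneralizedHyperbolic (T : B ≃L[𝕜] B) : Prop :=
  ∃ Es Eu : Submodule 𝕜 B,
    IsClosed (Es : Set B) ∧ IsClosed (Eu : Set B) ∧ IsCompl Es Eu ∧
    (∀ v ∈ Es, T v ∈ Es) ∧ (∀ v ∈ Eu, T.symm v ∈ Eu) ∧
    ∃ m : ℕ, 0 < m ∧ ∃ c : ℝ, c < 1 ∧
      (∀ v ∈ Es, ‖(fun w => T w)^[m] v‖ ≤ c * ‖v‖) ∧
      (∀ v ∈ Eu, ‖(fun w => T.symm w)^[m] v‖ ≤ c * ‖v‖)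

/-- `fwd A k n = A_{k+n-1} ⋯ A_{k+1} A_k`. -/
def fwd (A : ℤ → (B ≃L[𝕜] B)) (k : ℤ) : ℕ → B → B
  | 0, v => v
  | (n + 1), v => A (k + n) (fwd A k n v)

/-- `bwd A k n = A_{k-n}⁻¹ ⋯ A_{k-2}⁻¹ A_{k-1}⁻¹`. -/
def bwd (A : ℤ → (B ≃L[𝕜] B)) (k : ℤ) : ℕ → B → B
  | 0, v => v
  | (n + 1), v => (A (k - (n + 1))).symm (bwd A k n v)

/-- The sequence `A` of linear isomorphisms of `B` has a generalized `(C, λ)`-structure: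
conditions (CL1)-(CL3). -/
def HasGeneralizedCLStructure (A : ℤ → (B ≃L[𝕜] B)) : Prop :=
  ∃ (C lam : ℝ) (P Q : ℤ → (B →L[𝕜] B)), 0 < C ∧ 0 < lam ∧ lam < 1 ∧
    (∀ k v, P k (P k v) = P k v) ∧ (∀ k v, Q k (Q k v) = Q k v) ∧
    (∀ k v, P k v + Q k v = v) ∧ (∀ k, ‖P k‖ ≤ C) ∧ (∀ k, ‖Q k‖ ≤ C) ∧
    (∀ k, ∀ v ∈ Set.range (P k), A k v ∈ Set.range (P (k + 1))) ∧
    (∀ k, ∀ v ∈ Set.range (Q (k + 1)), (A k).symm v ∈ Set.range (Q k)) ∧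
    (∀ k, ∀ n : ℕ, 1 ≤ n → ∀ v ∈ Set.range (P k), ‖fwd A k n v‖ ≤ C * lam ^ n * ‖v‖) ∧
    (∀ k, ∀ n : ℕ, 1 ≤ n → ∀ v ∈ Set.range (Q k), ‖bwd A k n v‖ ≤ C * lam ^ n * ‖v‖)

end Pool.Agent.H34
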