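import Mathlib
import Pool.Agent.H34.AlgSpace
import Pool.Agent.H34.GHDefs

/-!
# Transfer from Banach algebras to Banach spaces
-/

set_option autoImplicit false
set_option linter.unusedSectionVars false

namespace Pool.Agent.H34

open Set
open scoped ENNReal

/-- Data in a normed ring: an invertible `t` (inverse `s`), an idempotent `q` making `t ^ 2`
generalized hyperbolic, and no idempotent making `t` itself generalized hyperbolic. -/
structure AlgData (A : Type) [NormedRing A] where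
  t : A
  s : A
  q : A
  ts : t * s = 1
  st : s * t = 1
  qq : q * q = q
  inv1 : t * t * q = q * (t * t * q)
  inv2 : s * s * (1 - q) = (1 - q) * (s * s * (1 - q))
  C : ℝ
  lam : ℝ
  hlam0 : 0 < lam
  hlam1 : lam < 1
  dec1 : ∀ n : ℕ, ‖t ^ n * q‖ ≤ C * lam ^ n
  dec2 : ∀ n : ℕ, ‖s ^ n * (1 - q)‖ ≤ C * lam ^ n
  nogh : ¬ ∃ r : A, r * r = r ∧ t * r = r * (t * r) ∧ s * (1 - r) = (1 - r) * (s * (1 - r)) ∧
    ∃ m : ℕ, 0 < m ∧ ‖t ^ m * r‖ < 1 ∧ ‖s ^ m * (1 - r)‖ < 1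

section

variable (𝕜 : Type*) [RCLike 𝕜] (A : Type) [NormedRing A] [NormedAlgebra 𝕜 A] [CompleteSpace A]
  [TopologicalSpace.SeparableSpace A] (D : AlgData A)

/-- The operator `T` on `V`. -/
noncomputable def TT : VA 𝕜 A ≃L[𝕜] VA 𝕜 A :=
  ContinuousLinearEquiv.equivOfInverse (iot 𝕜 A D.t) (iot 𝕜 A D.s)
    (fun v => by
      have := iot_mul 𝕜 A D.s D.t
      rw [D.st, iot_one] at this
      exact (congrArg (fun L => L v) this).symm)
    (fun v => by
      have := iot_mul 𝕜 A D.t D.s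
      rw [D.ts, iot_one] at this
      exact (congrArg (fun L => L v) this).symm)

theorem TT_apply (v : VA 𝕜 A) : TT 𝕜 A D v = iot 𝕜 A D.t v := rfl

theorem TT_symm_apply (v : VA 𝕜 A) : (TT 𝕜 A D).symm v = iot 𝕜 A D.s v := rfl

theorem iot_pow_apply (a : A) (n : ℕ) (v : VA 𝕜 A) :
    (fun w => iot 𝕜 A a w)^[n] v = iot 𝕜 A (a ^ n) v := by
  induction n with
  | zero => simp [iot_one]
  | succ n ih =>
    rw [Function.iterate_succ_apply', ih, pow_succ', iot_mul]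
    rfl

theorem fwd_const (k : ℤ) (n : ℕ) (v : VA 𝕜 A) :
    fwd (fun _ : ℤ => TT 𝕜 A D) k n v = iot 𝕜 A (D.t ^ n) v := by
  induction n with
  | zero => simp [fwd, iot_one]
  | succ n ih =>
    rw [fwd, ih, pow_succ', iot_mul]
    rfl

theorem bwd_const (k : ℤ) (n : ℕ) (v : VA 𝕜 A) :
    bwd (fun _ : ℤ => TT 𝕜 A D) k n v = iot 𝕜 A (D.s ^ n) v := by
  induction n with
  | zero => simp [bwd, iot_one]
  | succ n ih =>
    rw [bwd, ih, pow_succ', iot_mul]
    rfl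

/-- the projections in the algebra -/
noncomputable def pk (k : ℤ) : A := if Even k then D.q else D.t * D.q * D.s

theorem pk_even {k : ℤ} (h : Even k) : pk A D k = D.q := if_pos h

theorem pk_odd {k : ℤ} (h : ¬ Even k) : pk A D k = D.t * D.q * D.s := if_neg h

theorem pk_idem (k : ℤ) : pk A D k * pk A D k = pk A D k := by
  by_cases h : Even k
  · rw [pk_even A D h, D.qq]
  · rw [pk_odd A D h]
    calc D.t * D.q * D.s * (D.t * D.q * D.s) = D.t * D.q * (D.s * D.t) * D.q * D.s := by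
          simp only [mul_assoc]
      _ = D.t * (D.q * D.q) * D.s := by rw [D.st]; simp only [mul_assoc, one_mul]
      _ = _ := by rw [D.qq]

theorem pk_fwd (k : ℤ) : D.t * pk A D k = pk A D (k + 1) * (D.t * pk A D k) := by
  by_cases h : Even k
  · have h' : ¬ Even (k + 1) := by rw [Int.even_add_one]; exact not_not.mpr h
    rw [pk_even A D h, pk_odd A D h']
    calc D.t * D.q = D.t * (D.q * D.q) := by rw [D.qq]
      _ = D.t * D.q * (D.s * D.t) * D.q := by rw [D.st]; simp only [mul_assoc, one_mul]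
      _ = _ := by simp only [mul_assoc]
  · have h' : Even (k + 1) := by rw [Int.even_add_one]; exact h
    rw [pk_odd A D h, pk_even A D h']
    have e : D.t * (D.t * D.q * D.s) = D.t * D.t * D.q * D.s := by simp only [mul_assoc]
    rw [e, ← mul_assoc D.q, ← D.inv1]

theorem pk_bwd (k : ℤ) : D.s * (1 - pk A D (k + 1)) =
    (1 - pk A D k) * (D.s * (1 - pk A D (k + 1))) := by
  by_cases h : Even k
  · have h' : ¬ Even (k + 1) := by rw [Int.even_add_one]; exact not_not.mpr h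
    rw [pk_even A D h, pk_odd A D h']
    have e : D.s * (1 - D.t * D.q * D.s) = (1 - D.q) * D.s := by
      rw [mul_sub, mul_one, sub_mul, one_mul]
      congr 1
      rw [← mul_assoc, ← mul_assoc, D.st, one_mul]
    have e2 : (1 - D.q) * (1 - D.q) = 1 - D.q := by
      rw [mul_sub, mul_one, sub_mul, one_mul, D.qq]; abel
    rw [e, ← mul_assoc, e2]
  · have h' : Even (k + 1) := by rw [Int.even_add_one]; exact h
    rw [pk_odd A D h, pk_even A D h']
    have e : D.q * (D.s * (D.s * (1 - D.q))) = 0 := by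
      have h1 := D.inv2
      have h2 : D.q * (1 - D.q) = 0 := by rw [mul_sub, mul_one, D.qq, sub_self]
      calc D.q * (D.s * (D.s * (1 - D.q))) = D.q * (D.s * D.s * (1 - D.q)) := by
            simp only [mul_assoc]
        _ = D.q * ((1 - D.q) * (D.s * D.s * (1 - D.q))) := by rw [← h1]
        _ = D.q * (1 - D.q) * (D.s * D.s * (1 - D.q)) := by rw [mul_assoc D.q]
        _ = 0 := by rw [h2, zero_mul]
    rw [sub_mul, one_mul]
    have e3 : D.t * D.q * D.s * (D.s * (1 - D.q)) = D.t * (D.q * (D.s * (D.s * (1 - D.q)))) := by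
      simp only [mul_assoc]
    rw [e3, e, mul_zero, sub_zero]

theorem norm_tn_pk (k : ℤ) (n : ℕ) :
    ‖D.t ^ n * pk A D k‖ ≤ (|D.C| * (1 + ‖D.s‖)) * D.lam ^ n := by
  have hp : 0 ≤ D.lam ^ n := pow_nonneg D.hlam0.le n
  by_cases h : Even k
  · rw [pk_even A D h]
    calc ‖D.t ^ n * D.q‖ ≤ D.C * D.lam ^ n := D.dec1 n
      _ ≤ |D.C| * D.lam ^ n := by gcongr; exact le_abs_self _
      _ ≤ (|D.C| * (1 + ‖D.s‖)) * D.lam ^ n := by
          gcongr
          have := norm_nonneg D.s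
          nlinarith [abs_nonneg D.C]
  · rw [pk_odd A D h]
    have e : D.t ^ n * (D.t * D.q * D.s) = D.t ^ (n + 1) * D.q * D.s := by
      rw [pow_succ]; simp only [mul_assoc]
    rw [e]
    calc ‖D.t ^ (n + 1) * D.q * D.s‖ ≤ ‖D.t ^ (n + 1) * D.q‖ * ‖D.s‖ := norm_mul_le _ _
      _ ≤ (D.C * D.lam ^ (n + 1)) * ‖D.s‖ := by gcongr; exact D.dec1 _
      _ ≤ (|D.C| * D.lam ^ n) * ‖D.s‖ := by
          have h3 : D.lam ^ (n + 1) ≤ D.lam ^ n := by
            rw [pow_succ]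
            exact mul_le_of_le_one_right hp D.hlam1.le
          have h4 : 0 ≤ D.lam ^ (n + 1) := pow_nonneg D.hlam0.le _
          gcongr
          exact le_abs_self _
      _ ≤ (|D.C| * (1 + ‖D.s‖)) * D.lam ^ n := by
          have := norm_nonneg D.s
          have h2 := mul_nonneg (abs_nonneg D.C) hp
          nlinarith [mul_nonneg (abs_nonneg D.C) hp]

theorem norm_sn_pk (k : ℤ) (n : ℕ) (hn : 1 ≤ n) :
    ‖D.s ^ n * (1 - pk A D k)‖ ≤ (|D.C| * (1 + ‖D.s‖ / D.lam)) * D.lam ^ n := by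
  have hp : 0 ≤ D.lam ^ n := pow_nonneg D.hlam0.le n
  have hl := D.hlam0
  by_cases h : Even k
  · rw [pk_even A D h]
    calc ‖D.s ^ n * (1 - D.q)‖ ≤ D.C * D.lam ^ n := D.dec2 n
      _ ≤ |D.C| * D.lam ^ n := by gcongr; exact le_abs_self _
      _ ≤ (|D.C| * (1 + ‖D.s‖ / D.lam)) * D.lam ^ n := by
          gcongr
          have h1 : 0 ≤ ‖D.s‖ / D.lam := div_nonneg (norm_nonneg _) hl.le
          nlinarith [abs_nonneg D.C, mul_nonneg (abs_nonneg D.C) h1]
  · rw [pk_odd A D h]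
    obtain ⟨m, rfl⟩ : ∃ m, n = m + 1 := ⟨n - 1, by omega⟩
    have e : D.s ^ (m + 1) * (1 - D.t * D.q * D.s) = D.s ^ m * (1 - D.q) * D.s := by
      have e1 : D.s * (1 - D.t * D.q * D.s) = (1 - D.q) * D.s := by
        rw [mul_sub, mul_one, sub_mul, one_mul]
        congr 1
        rw [← mul_assoc, ← mul_assoc, D.st, one_mul]
      rw [pow_succ, mul_assoc, e1, mul_assoc]
    rw [e]
    have hpm : 0 ≤ D.lam ^ m := pow_nonneg D.hlam0.le m
    calc ‖D.s ^ m * (1 - D.q) * D.s‖ ≤ ‖D.s ^ m * (1 - D.q)‖ * ‖D.s‖ := norm_mul_le _ _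
      _ ≤ (D.C * D.lam ^ m) * ‖D.s‖ := by gcongr; exact D.dec2 _
      _ ≤ (|D.C| * D.lam ^ m) * ‖D.s‖ := by gcongr; exact le_abs_self _
      _ = (|D.C| * (‖D.s‖ / D.lam)) * D.lam ^ (m + 1) := by
          rw [pow_succ]; field_simp
      _ ≤ (|D.C| * (1 + ‖D.s‖ / D.lam)) * D.lam ^ (m + 1) := by
          gcongr
          linarith

theorem TT_hasCL : HasGeneralizedCLStructure (fun _ : ℤ => TT 𝕜 A D) := by
  set K : ℝ := 1 + |D.C| * (1 + ‖D.s‖) + |D.C| * (1 + ‖D.s‖ / D.lam)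
    + (1 + ‖(1 : A)‖ + ‖D.q‖ + ‖D.t * D.q * D.s‖) with hK
  have hl := D.hlam0
  have n1 : 0 ≤ |D.C| * (1 + ‖D.s‖) := by positivity
  have n2 : 0 ≤ |D.C| * (1 + ‖D.s‖ / D.lam) := by positivity
  have n3 : 0 ≤ ‖(1 : A)‖ := norm_nonneg _
  have n4 : 0 ≤ ‖D.q‖ := norm_nonneg _
  have n5 : 0 ≤ ‖D.t * D.q * D.s‖ := norm_nonneg _
  have hpk : ∀ k, ‖pk A D k‖ ≤ ‖D.q‖ + ‖D.t * D.q * D.s‖ := by
    intro k
    by_cases h : Even k
    · rw [pk_even A D h]; linarith
    · rw [pk_odd A D h]; linarith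
  refine ⟨K, D.lam, fun k => iot 𝕜 A (pk A D k), fun k => iot 𝕜 A (1 - pk A D k), by linarith,
    D.hlam0, D.hlam1, ?_, ?_, ?_, ?_, ?_, ?_, ?_, ?_, ?_⟩
  · intro k v
    rw [← ContinuousLinearMap.comp_apply, ← iot_mul, pk_idem]
  · intro k v
    rw [← ContinuousLinearMap.comp_apply, ← iot_mul]
    congr 2
    rw [mul_sub, mul_one, sub_mul, one_mul, pk_idem]; abel
  · intro k v
    change iot 𝕜 A (pk A D k) v + iot 𝕜 A (1 - pk A D k) v = v
    rw [iot_sub, iot_one, sub_apply, ContinuousLinearMap.id_apply]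
    abel
  · intro k
    exact (norm_iot_le 𝕜 A _).trans (by linarith [hpk k])
  · intro k
    exact (norm_iot_le 𝕜 A _).trans ((norm_sub_le _ _).trans (by linarith [hpk k]))
  · rintro k _ ⟨w, rfl⟩
    refine ⟨TT 𝕜 A D (iot 𝕜 A (pk A D k) w), ?_⟩
    rw [TT_apply, ← ContinuousLinearMap.comp_apply, ← ContinuousLinearMap.comp_apply, ← iot_mul,
      ← iot_mul, mul_assoc, ← pk_fwd, ← ContinuousLinearMap.comp_apply, ← iot_mul]
  · rintro k _ ⟨w, rfl⟩
    refine ⟨(TT 𝕜 A D).symm (iot 𝕜 A (1 - pk A D (k + 1)) w), ?_⟩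
    rw [TT_symm_apply, ← ContinuousLinearMap.comp_apply, ← ContinuousLinearMap.comp_apply,
      ← iot_mul, ← iot_mul, mul_assoc, ← pk_bwd, ← ContinuousLinearMap.comp_apply, ← iot_mul]
  · rintro k n hn _ ⟨w, rfl⟩
    rw [fwd_const]
    have e : iot 𝕜 A (D.t ^ n) (iot 𝕜 A (pk A D k) w) =
        iot 𝕜 A (D.t ^ n * pk A D k) (iot 𝕜 A (pk A D k) w) := by
      rw [← ContinuousLinearMap.comp_apply, ← ContinuousLinearMap.comp_apply, ← iot_mul,
        ← iot_mul, mul_assoc, pk_idem]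
    rw [e]
    calc _ ≤ ‖iot 𝕜 A (D.t ^ n * pk A D k)‖ * ‖iot 𝕜 A (pk A D k) w‖ :=
          ContinuousLinearMap.le_opNorm _ _
      _ ≤ (K * D.lam ^ n) * ‖iot 𝕜 A (pk A D k) w‖ := by
          gcongr
          refine (norm_iot_le 𝕜 A _).trans ((norm_tn_pk A D k n).trans ?_)
          gcongr
          linarith
  · rintro k n hn _ ⟨w, rfl⟩
    rw [bwd_const]
    have e1 : (1 - pk A D k) * (1 - pk A D k) = 1 - pk A D k := by
      rw [mul_sub, mul_one, sub_mul, one_mul, pk_idem]; abel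
    have e : iot 𝕜 A (D.s ^ n) (iot 𝕜 A (1 - pk A D k) w) =
        iot 𝕜 A (D.s ^ n * (1 - pk A D k)) (iot 𝕜 A (1 - pk A D k) w) := by
      rw [← ContinuousLinearMap.comp_apply, ← ContinuousLinearMap.comp_apply, ← iot_mul,
        ← iot_mul, mul_assoc, e1]
    rw [e]
    calc _ ≤ ‖iot 𝕜 A (D.s ^ n * (1 - pk A D k))‖ * ‖iot 𝕜 A (1 - pk A D k) w‖ :=
          ContinuousLinearMap.le_opNorm _ _
      _ ≤ (K * D.lam ^ n) * ‖iot 𝕜 A (1 - pk A D k) w‖ := by
          gcongr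
          refine (norm_iot_le 𝕜 A _).trans ((norm_sn_pk A D k n hn).trans ?_)
          gcongr
          linarith

theorem iter_le {X : Type*} [NormedAddCommGroup X] (f : X → X) (S : Set X)
    (hS : ∀ v ∈ S, f v ∈ S) (m : ℕ) (c : ℝ) (hc0 : 0 ≤ c) (h : ∀ v ∈ S, ‖f^[m] v‖ ≤ c * ‖v‖) (n : ℕ) :
    ∀ v ∈ S, ‖f^[m * n] v‖ ≤ c ^ n * ‖v‖ := by
  have hS' : ∀ k : ℕ, ∀ v ∈ S, f^[k] v ∈ S := by
    intro k
    induction k with
    | zero => intro v hv; simpa using hv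
    | succ k ih => intro v hv; rw [Function.iterate_succ_apply']; exact hS _ (ih v hv)
  induction n with
  | zero => intro v _; simp
  | succ n ih =>
    intro v hv
    have e : m * (n + 1) = m + m * n := by ring
    rw [e, Function.iterate_add_apply]
    calc ‖f^[m] (f^[m * n] v)‖ ≤ c * ‖f^[m * n] v‖ := h _ (hS' _ v hv)
      _ ≤ c * (c ^ n * ‖v‖) := by gcongr; exact ih v hv
      _ = c ^ (n + 1) * ‖v‖ := by ring

theorem not_gh : ¬ IsGeneralizedHyperbolic (TT 𝕜 A D) := by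
  rintro ⟨Es, Eu, hEs, hEu, hcompl, hT, hT', m, hm, c, hc1, hs, hu⟩
  apply D.nogh
  have htop : Submodule.IsTopCompl Es Eu :=
    Submodule.IsCompl.isTopCompl_of_isClosed hcompl hEs hEu
  set P : VA 𝕜 A →L[𝕜] VA 𝕜 A := Es.projectionL Eu htop with hP
  set Q : VA 𝕜 A →L[𝕜] VA 𝕜 A := ContinuousLinearMap.id 𝕜 _ - P with hQ
  have hPmem : ∀ v, P v ∈ Es := fun v => Submodule.projectionL_apply_mem htop v
  have hPid : ∀ v ∈ Es, P v = v := fun v hv => Submodule.projectionL_apply_left htop ⟨v, hv⟩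
  have hPz : ∀ v ∈ Eu, P v = 0 := fun v hv => Submodule.projectionL_apply_right htop ⟨v, hv⟩
  have hQmem : ∀ v, Q v ∈ Eu := by
    intro v
    have h1 : P (Q v) = 0 := by
      rw [hQ, sub_apply, ContinuousLinearMap.id_apply, map_sub, hPid _ (hPmem v), sub_self]
    exact (Submodule.projectionL_apply_eq_zero_iff htop).mp h1
  have hQid : ∀ v ∈ Eu, Q v = v := by
    intro v hv
    rw [hQ, sub_apply, ContinuousLinearMap.id_apply, hPz v hv, sub_zero]
  have hPP : P.comp P = P := by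
    ext1 v; exact hPid _ (hPmem v)
  have hTP : (iot 𝕜 A D.t).comp P = P.comp ((iot 𝕜 A D.t).comp P) := by
    ext1 v
    exact (hPid _ (hT _ (hPmem v))).symm
  have hTQ : (iot 𝕜 A D.s).comp Q = Q.comp ((iot 𝕜 A D.s).comp Q) := by
    ext1 v
    exact (hQid _ (hT' _ (hQmem v))).symm
  have hrQ : rho 𝕜 A Q = 1 - rho 𝕜 A P := by
    have h1 : Q + P = ContinuousLinearMap.id 𝕜 _ := by rw [hQ, sub_add_cancel]
    have h2 := rho_add 𝕜 A Q P
    rw [h1, rho_one] at h2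
    rw [h2, add_sub_cancel_right]
  refine ⟨rho 𝕜 A P, ?_, ?_, ?_, ?_⟩
  · rw [← rho_mul, hPP]
  · have := congrArg (rho 𝕜 A) hTP
    rwa [rho_mul, rho_mul, rho_mul, rho_iot] at this
  · have := congrArg (rho 𝕜 A) hTQ
    rwa [rho_mul, rho_mul, rho_mul, rho_iot, hrQ] at this
  · set c' : ℝ := max c 0 with hc'
    have hc'0 : 0 ≤ c' := le_max_right _ _
    have hc'1 : c' < 1 := max_lt hc1 one_pos
    have hs' : ∀ v ∈ (Es : Set (VA 𝕜 A)), ‖(fun w => TT 𝕜 A D w)^[m] v‖ ≤ c' * ‖v‖ :=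
      fun v hv => (hs v hv).trans (by gcongr; exact le_max_left _ _)
    have hu' : ∀ v ∈ (Eu : Set (VA 𝕜 A)), ‖(fun w => (TT 𝕜 A D).symm w)^[m] v‖ ≤ c' * ‖v‖ :=
      fun v hv => (hu v hv).trans (by gcongr; exact le_max_left _ _)
    set K : ℝ := ‖(1 : A)‖ * (‖P‖ + ‖Q‖) with hK
    have hK0 : 0 ≤ K := by positivity
    obtain ⟨n, hn⟩ := exists_pow_lt_of_lt_one (show (0 : ℝ) < 1 / (K + 1) by positivity) hc'1
    have hn2 : c' ^ n * K < 1 := by
      have hn' : c' ^ (n + 0) < 1 / (K + 1) := hn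
      rw [add_zero, lt_div_iff₀ (by positivity)] at hn'
      have := pow_nonneg hc'0 n
      nlinarith
    have hn3 : c' ^ (n + 1) * K < 1 := by
      have h5 : c' ^ (n + 1) ≤ c' ^ n := by
        rw [pow_succ]
        exact mul_le_of_le_one_right (pow_nonneg hc'0 n) hc'1.le
      calc c' ^ (n + 1) * K ≤ c' ^ n * K := mul_le_mul_of_nonneg_right h5 hK0
        _ < 1 := hn2
    refine ⟨m * (n + 1), by positivity, ?_, ?_⟩
    · have h1 : D.t ^ (m * (n + 1)) * rho 𝕜 A P =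
          rho 𝕜 A ((iot 𝕜 A (D.t ^ (m * (n + 1)))).comp P) := by
        rw [rho_mul, rho_iot]
      have h2 : ‖(iot 𝕜 A (D.t ^ (m * (n + 1)))).comp P‖ ≤ c' ^ (n + 1) * ‖P‖ := by
        refine ContinuousLinearMap.opNorm_le_bound _ (by positivity) fun v => ?_
        rw [ContinuousLinearMap.comp_apply, ← iot_pow_apply]
        calc _ ≤ c' ^ (n + 1) * ‖P v‖ :=
              iter_le (fun w => TT 𝕜 A D w) Es (fun v hv => hT v hv) m c' hc'0 hs' (n + 1) _
                (hPmem v)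
          _ ≤ c' ^ (n + 1) * (‖P‖ * ‖v‖) := by gcongr; exact P.le_opNorm v
          _ = _ := by ring
      rw [h1]
      calc _ ≤ ‖(1 : A)‖ * ‖(iot 𝕜 A (D.t ^ (m * (n + 1)))).comp P‖ := norm_rho_le 𝕜 A _
        _ ≤ ‖(1 : A)‖ * (c' ^ (n + 1) * ‖P‖) := by gcongr
        _ = c' ^ (n + 1) * (‖(1 : A)‖ * ‖P‖) := by ring
        _ ≤ c' ^ (n + 1) * K := by
            rw [hK]; gcongr; linarith [norm_nonneg Q]
        _ < 1 := hn3
    · have h1 : D.s ^ (m * (n + 1)) * (1 - rho 𝕜 A P) =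
          rho 𝕜 A ((iot 𝕜 A (D.s ^ (m * (n + 1)))).comp Q) := by
        rw [rho_mul, rho_iot, hrQ]
      have h2 : ‖(iot 𝕜 A (D.s ^ (m * (n + 1)))).comp Q‖ ≤ c' ^ (n + 1) * ‖Q‖ := by
        refine ContinuousLinearMap.opNorm_le_bound _ (by positivity) fun v => ?_
        rw [ContinuousLinearMap.comp_apply, ← iot_pow_apply]
        calc _ ≤ c' ^ (n + 1) * ‖Q v‖ :=
              iter_le (fun w => (TT 𝕜 A D).symm w) Eu (fun v hv => hT' v hv) m c' hc'0 hu' (n + 1) _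
                (hQmem v)
          _ ≤ c' ^ (n + 1) * (‖Q‖ * ‖v‖) := by gcongr; exact Q.le_opNorm v
          _ = _ := by ring
      rw [h1]
      calc _ ≤ ‖(1 : A)‖ * ‖(iot 𝕜 A (D.s ^ (m * (n + 1)))).comp Q‖ := norm_rho_le 𝕜 A _
        _ ≤ ‖(1 : A)‖ * (c' ^ (n + 1) * ‖Q‖) := by gcongr
        _ = c' ^ (n + 1) * (‖(1 : A)‖ * ‖Q‖) := by ring
        _ ≤ c' ^ (n + 1) * K := by
            rw [hK]; gcongr; linarith [norm_nonneg P]
        _ < 1 := hn3

/-- The transfer principle. -/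
theorem transfer (D : AlgData A) :
    ∃ (B : Type) (_ : NormedAddCommGroup B) (_ : NormedSpace 𝕜 B) (_ : CompleteSpace B)
      (T : B ≃L[𝕜] B),
      HasGeneralizedCLStructure (fun _ : ℤ => T) ∧ ¬ IsGeneralizedHyperbolic T :=
  ⟨VA 𝕜 A, (V (ExA 𝕜 A)).normedAddCommGroup, (V (ExA 𝕜 A)).normedSpace, V_complete,
    TT 𝕜 A D, TT_hasCL 𝕜 A D, not_gh 𝕜 A D⟩

end

end Pool.Agent.H34
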