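import Mathlib
import Pool.Agent.H34.Transfer

/-!
# Reduction to a big Banach algebra with a closed subalgebra of admissible elements
-/

set_option autoImplicit false
set_option linter.unusedSectionVars false

namespace Pool.Agent.H34

open Set TopologicalSpace

theorem isSeparable_adjoin {𝕜 X : Type*} [RCLike 𝕜] [NormedRing X] [NormedAlgebra 𝕜 X]
    (S : Set X) (hS : S.Countable) : IsSeparable ((Algebra.adjoin 𝕜 S : Subalgebra 𝕜 X) : Set X) := by
  have h1 : (Submonoid.closure S : Set X).Countable := by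
    rw [Submonoid.closure_eq_mrange, MonoidHom.coe_mrange]
    have : Countable S := hS.to_subtype
    have : Countable (FreeMonoid S) := inferInstanceAs (Countable (List S))
    exact countable_range _
  have h2 : ((Algebra.adjoin 𝕜 S : Subalgebra 𝕜 X) : Set X) =
      (Submodule.span 𝕜 (Submonoid.closure S : Set X) : Set X) := by
    have := Algebra.adjoin_eq_span 𝕜 S
    rw [← this]
    rfl
  rw [h2]
  exact (h1.isSeparable).span

theorem exists_counter {𝕜 X : Type} [RCLike 𝕜] [NormedRing X] [NormedAlgebra 𝕜 X]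
    [CompleteSpace X] (Φ : Subalgebra 𝕜 X) (hΦ : IsClosed (Φ : Set X)) {t s q : X}
    (htΦ : t ∈ Φ) (hsΦ : s ∈ Φ) (hqΦ : q ∈ Φ)
    (ts : t * s = 1) (st : s * t = 1) (qq : q * q = q)
    (inv1 : t * t * q = q * (t * t * q))
    (inv2 : s * s * (1 - q) = (1 - q) * (s * s * (1 - q)))
    (C lam : ℝ) (hlam0 : 0 < lam) (hlam1 : lam < 1)
    (dec1 : ∀ n : ℕ, ‖t ^ n * q‖ ≤ C * lam ^ n)
    (dec2 : ∀ n : ℕ, ‖s ^ n * (1 - q)‖ ≤ C * lam ^ n)
    (nogh : ∀ r ∈ Φ, ¬ (r * r = r ∧ t * r = r * (t * r) ∧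
      s * (1 - r) = (1 - r) * (s * (1 - r)) ∧
      ∃ m : ℕ, 0 < m ∧ ‖t ^ m * r‖ < 1 ∧ ‖s ^ m * (1 - r)‖ < 1)) :
    ∃ (B : Type) (_ : NormedAddCommGroup B) (_ : NormedSpace 𝕜 B) (_ : CompleteSpace B)
      (T : B ≃L[𝕜] B), HasGeneralizedCLStructure (fun _ : ℤ => T) ∧
        ¬ IsGeneralizedHyperbolic T := by
  set A : Subalgebra 𝕜 X := (Algebra.adjoin 𝕜 ({t, s, q} : Set X)).topologicalClosure with hA
  have hAΦ : A ≤ Φ := by
    refine Subalgebra.topologicalClosure_minimal ?_ hΦ
    rw [Algebra.adjoin_le_iff]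
    rintro a (rfl | rfl | rfl)
    · exact htΦ
    · exact hsΦ
    · exact hqΦ
  have hmem : ∀ a ∈ ({t, s, q} : Set X), a ∈ A := fun a ha =>
    Subalgebra.le_topologicalClosure _ (Algebra.subset_adjoin ha)
  have ht : t ∈ A := hmem t (by simp)
  have hs : s ∈ A := hmem s (by simp)
  have hq : q ∈ A := hmem q (by simp)
  have hcl : IsClosed (A : Set X) := Subalgebra.isClosed_topologicalClosure _
  haveI : CompleteSpace A := hcl.completeSpace_coe
  haveI : SeparableSpace A := by
    apply IsSeparable.separableSpace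
    rw [hA, Subalgebra.topologicalClosure_coe, isSeparable_closure]
    apply isSeparable_adjoin
    exact (Set.toFinite _).countable
  let D : AlgData A :=
    { t := ⟨t, ht⟩
      s := ⟨s, hs⟩
      q := ⟨q, hq⟩
      ts := Subtype.ext ts
      st := Subtype.ext st
      qq := Subtype.ext qq
      inv1 := Subtype.ext inv1
      inv2 := Subtype.ext inv2
      C := C
      lam := lam
      hlam0 := hlam0
      hlam1 := hlam1
      dec1 := dec1
      dec2 := dec2
      nogh := by
        rintro ⟨r, h1, h2, h3, m, hm, h4, h5⟩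
        refine nogh (r : X) (hAΦ r.2) ⟨congrArg Subtype.val h1, congrArg Subtype.val h2,
          congrArg Subtype.val h3, m, hm, h4, h5⟩ }
  exact transfer 𝕜 A D

end Pool.Agent.H34
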