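import Mathlib

/-!
# Exponentials in Banach algebras and connectedness
-/

set_option autoImplicit false
set_option linter.unusedSectionVars false

namespace Pool.Agent.H34.Loop

open Set Filter Topology
open scoped unitInterval

section

variable {A : Type*} [NormedRing A] [NormedAlgebra ℂ A] [CompleteSpace A]

/-- exponential -/
noncomputable def ex (a : A) : A := NormedSpace.exp a

theorem ex_continuous : Continuous (ex : A → A) := by
  let _ : NormedAlgebra ℚ A := NormedAlgebra.restrictScalars ℚ ℂ A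
  exact NormedSpace.exp_continuous

theorem ex_zero : ex (0 : A) = 1 := NormedSpace.exp_zero

theorem ex_add {a b : A} (h : Commute a b) : ex (a + b) = ex a * ex b := by
  let _ : NormedAlgebra ℚ A := NormedAlgebra.restrictScalars ℚ ℂ A
  exact NormedSpace.exp_add_of_commute h

theorem ex_mul_ex_neg (a : A) : ex a * ex (-a) = 1 := by
  rw [← ex_add (Commute.neg_right (Commute.refl a)), add_neg_cancel, ex_zero]

theorem ex_neg_mul_ex (a : A) : ex (-a) * ex a = 1 := by
  rw [← ex_add (Commute.neg_left (Commute.refl a)), neg_add_cancel, ex_zero]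

theorem ex_isUnit (a : A) : IsUnit (ex a) := ⟨⟨ex a, ex (-a), ex_mul_ex_neg a, ex_neg_mul_ex a⟩, rfl⟩

theorem map_ex {B : Type*} [NormedRing B] [NormedAlgebra ℂ B] [CompleteSpace B]
    (f : A →ₐ[ℂ] B) (hf : Continuous f) (a : A) : f (ex a) = ex (f a) := by
  let _ : NormedAlgebra ℚ A := NormedAlgebra.restrictScalars ℚ ℂ A
  let _ : NormedAlgebra ℚ B := NormedAlgebra.restrictScalars ℚ ℂ B
  exact NormedSpace.map_exp f hf a

theorem ex_local_inj : ∃ ε > 0, ∀ a : A, ‖a‖ < ε → ex a = 1 → a = 0 := by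
  have h := (hasStrictFDerivAt_exp_zero (𝕂 := ℂ) (𝔸 := A)).isLittleO
  have h2 := h.def (c := 1 / 2) (by norm_num)
  have h3 : ∀ᶠ p : A in 𝓝 0, ‖NormedSpace.exp p - NormedSpace.exp 0 -
      (1 : A →L[ℂ] A) (p - 0)‖ ≤ 1 / 2 * ‖p - 0‖ := by
    have hc : Tendsto (fun p : A => (p, (0 : A))) (𝓝 0) (𝓝 (0, 0)) :=
      (Continuous.prodMk_left (0 : A)).tendsto' _ _ rfl
    exact hc.eventually h2
  rw [Metric.eventually_nhds_iff] at h3
  obtain ⟨ε, hε, h4⟩ := h3
  refine ⟨ε, hε, fun a ha h1 => ?_⟩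
  have h5 := h4 (y := a) (by rwa [dist_zero_right])
  change ‖ex a - ex 0 - (a - 0)‖ ≤ _ at h5
  rw [h1, ex_zero, sub_self, zero_sub, norm_neg, sub_zero] at h5
  have : ‖a‖ ≤ 0 := by linarith
  exact norm_le_zero_iff.mp this

theorem eventually_ex : ∀ᶠ y : A in 𝓝 1, ∃ a : A, ex a = y := by
  have h := (hasStrictFDerivAt_exp_zero (𝕂 := ℂ) (𝔸 := A))
  have h2 := h.map_nhds_eq_of_surj (by
    rw [LinearMap.range_eq_top]
    intro y
    exact ⟨y, rfl⟩)
  rw [NormedSpace.exp_zero] at h2
  rw [← h2, Filter.eventually_map]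
  exact Filter.Eventually.of_forall (fun a => ⟨a, rfl⟩)

/-- a continuous family of commuting logarithms of a fixed element is constant -/
theorem log_const {V : Type*} [TopologicalSpace V] [PreconnectedSpace V] {b : V → A}
    (hb : Continuous b) (hcomm : ∀ v w, Commute (b v) (b w)) (hex : ∀ v w, ex (b v) = ex (b w))
    (v w : V) : b v = b w := by
  obtain ⟨ε, hε, hinj⟩ := ex_local_inj (A := A)
  have hloc : IsLocallyConstant b := by
    rw [IsLocallyConstant.iff_eventually_eq]
    intro v0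
    have h1 : ∀ᶠ v in 𝓝 v0, ‖b v - b v0‖ < ε := by
      have : Tendsto (fun v => ‖b v - b v0‖) (𝓝 v0) (𝓝 0) := by
        have h2 : Continuous (fun v => ‖b v - b v0‖) := (hb.sub continuous_const).norm
        exact h2.tendsto' _ _ (by simp)
      exact this.eventually (gt_mem_nhds hε)
    filter_upwards [h1] with v hv
    have h3 : ex (b v - b v0) = 1 := by
      rw [sub_eq_add_neg, ex_add (Commute.neg_right (hcomm v v0)), hex v v0, ex_mul_ex_neg]
    exact sub_eq_zero.mp (hinj _ hv h3)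
  exact hloc.apply_eq_of_preconnectedSpace v w

/-- the endpoint of a path of units starting at `1` is a product of exponentials -/
theorem prod_ex {Γ : I → A} (hΓ : Continuous Γ) (hu : ∀ τ, IsUnit (Γ τ)) (h0 : Γ 0 = 1) :
    ∃ L : List A, Γ 1 = (L.map ex).prod := by
  have hloc : IsLocallyConstant (fun τ : I => ∃ L : List A, Γ τ = (L.map ex).prod) := by
    rw [IsLocallyConstant.iff_eventually_eq]
    intro τ0
    obtain ⟨u, hu0⟩ := hu τ0
    have h1 : Tendsto (fun τ => Γ τ * (↑u⁻¹ : A)) (𝓝 τ0) (𝓝 1) := by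
      have : Continuous (fun τ => Γ τ * (↑u⁻¹ : A)) := hΓ.mul continuous_const
      exact this.tendsto' _ _ (by rw [← hu0, Units.mul_inv])
    filter_upwards [h1.eventually eventually_ex] with τ hτ
    obtain ⟨a, ha⟩ := hτ
    have h2 : Γ τ = ex a * Γ τ0 := by
      rw [ha, ← hu0, mul_assoc, Units.inv_mul, mul_one]
    apply propext
    constructor
    · rintro ⟨L, hL⟩
      refine ⟨(-a) :: L, ?_⟩
      rw [List.map_cons, List.prod_cons, ← hL, h2, ← mul_assoc, ex_neg_mul_ex, one_mul]
    · rintro ⟨L, hL⟩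
      refine ⟨a :: L, ?_⟩
      rw [List.map_cons, List.prod_cons, ← hL, h2]
  have := hloc.apply_eq_of_preconnectedSpace 1 0
  rw [this]
  exact ⟨[], by simpa using h0⟩

end

end Pool.Agent.H34.Loop
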