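import Mathlib

/-!
# Operators on spaces of bounded families
-/

set_option autoImplicit false
set_option linter.unusedSectionVars false

namespace Pool.Agent.H34.Loop

open Set
open scoped ENNReal

section

variable (ι R : Type) [NormedRing R] [NormedAlgebra ℂ R]

/-- bounded families -/
abbrev H : Type := lp (fun _ : ι => R) ∞

variable {ι R}

/-- value at `k` -/
def at' (h : H ι R) (k : ι) : R := (h : ι → R) k

theorem at_add (h h' : H ι R) (k : ι) : at' (h + h') k = at' h k + at' h' k := by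
  simp [at']

theorem at_sub (h h' : H ι R) (k : ι) : at' (h - h') k = at' h k - at' h' k := by
  simp [at']

theorem at_smul (c : ℂ) (h : H ι R) (k : ι) : at' (c • h) k = c • at' h k := by
  simp [at']

theorem at_zero (k : ι) : at' (0 : H ι R) k = 0 := by
  simp [at']

theorem norm_at_le (h : H ι R) (k : ι) : ‖at' h k‖ ≤ ‖h‖ :=
  lp.norm_apply_le_norm ENNReal.top_ne_zero h k

theorem H_ext {h h' : H ι R} (hh : ∀ k, at' h k = at' h' k) : h = h' := by
  apply lp.ext
  funext k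
  exact hh k

theorem norm_le_of_at {h : H ι R} {C : ℝ} (hC : 0 ≤ C) (hh : ∀ k, ‖at' h k‖ ≤ C) : ‖h‖ ≤ C :=
  lp.norm_le_of_forall_le hC hh

/-- element of `H` from a bounded function -/
noncomputable def mkH (f : ι → R) (C : ℝ) (hC : ∀ k, ‖f k‖ ≤ C) : H ι R :=
  ⟨f, memℓp_infty ⟨C, by rintro _ ⟨ξ, rfl⟩; exact hC ξ⟩⟩

@[simp] theorem at_mkH (f : ι → R) (C : ℝ) (hC : ∀ k, ‖f k‖ ≤ C) (k : ι) :
    at' (mkH f C hC) k = f k := rfl

/-- evaluation as a continuous linear map -/
noncomputable def evH (k : ι) : H ι R →L[ℂ] R :=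
  LinearMap.mkContinuous
    { toFun := fun h => at' h k
      map_add' := fun h h' => at_add h h' k
      map_smul' := fun c h => at_smul c h k } 1
    (fun h => by rw [one_mul]; exact norm_at_le h k)

@[simp] theorem evH_apply (k : ι) (h : H ι R) : (evH k : H ι R →L[ℂ] R) h = at' h k := rfl

variable {κ : Type}

/-- operator from a pointwise formula -/
noncomputable def mkOp (f : H ι R → κ → R) (C : ℝ) (hC : 0 ≤ C)
    (hb : ∀ h k, ‖f h k‖ ≤ C * ‖h‖) (hadd : ∀ h h' k, f (h + h') k = f h k + f h' k)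
    (hsmul : ∀ (c : ℂ) h k, f (c • h) k = c • f h k) : H ι R →L[ℂ] H κ R :=
  LinearMap.mkContinuous
    { toFun := fun h => mkH (f h) (C * ‖h‖) (hb h)
      map_add' := fun h h' => by
        apply H_ext; intro k; rw [at_add, at_mkH, at_mkH, at_mkH, hadd]
      map_smul' := fun c h => by
        apply H_ext; intro k; rw [RingHom.id_apply, at_smul, at_mkH, at_mkH, hsmul] } C
    (fun h => norm_le_of_at (by positivity) (hb h))

@[simp] theorem at_mkOp (f : H ι R → κ → R) (C : ℝ) (hC : 0 ≤ C)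
    (hb : ∀ h k, ‖f h k‖ ≤ C * ‖h‖) (hadd : ∀ h h' k, f (h + h') k = f h k + f h' k)
    (hsmul : ∀ (c : ℂ) h k, f (c • h) k = c • f h k) (h : H ι R) (k : κ) :
    at' (mkOp f C hC hb hadd hsmul h) k = f h k := rfl

theorem norm_mkOp_le (f : H ι R → κ → R) (C : ℝ) (hC : 0 ≤ C)
    (hb : ∀ h k, ‖f h k‖ ≤ C * ‖h‖) (hadd : ∀ h h' k, f (h + h') k = f h k + f h' k)
    (hsmul : ∀ (c : ℂ) h k, f (c • h) k = c • f h k) :
    ‖mkOp f C hC hb hadd hsmul‖ ≤ C :=
  LinearMap.mkContinuous_norm_le _ hC _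

theorem op_ext {T T' : H ι R →L[ℂ] H κ R} (hh : ∀ h k, at' (T h) k = at' (T' h) k) : T = T' := by
  apply ContinuousLinearMap.ext
  intro h
  exact H_ext (hh h)

theorem norm_op_le {T : H ι R →L[ℂ] H κ R} {C : ℝ} (hC : 0 ≤ C)
    (hh : ∀ h k, ‖at' (T h) k‖ ≤ C * ‖h‖) : ‖T‖ ≤ C :=
  ContinuousLinearMap.opNorm_le_bound _ hC (fun h => norm_le_of_at (by positivity) (hh h))

theorem mul_app (S T : H ι R →L[ℂ] H ι R) (h : H ι R) : (S * T) h = S (T h) := rfl

theorem one_app (h : H ι R) : (1 : H ι R →L[ℂ] H ι R) h = h := rfl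

end

end Pool.Agent.H34.Loop
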