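import Mathlib
import Pool.Agent.H34.LinfOps

/-!
# The Banach algebra example, part 1: the operators
-/

set_option autoImplicit false
set_option linter.unusedSectionVars false

namespace Pool.Agent.H34.Loop

open Set
open scoped ENNReal unitInterval

/-! ### The weight -/

/-- the weight -/
noncomputable def om (k : ℤ) : ℝ := min ((2 : ℝ) ^ k) ((2 : ℝ) ^ (1 - k))

theorem om_pos (k : ℤ) : 0 < om k := lt_min (by positivity) (by positivity)

theorem om_zero : om 0 = 1 := by simp [om]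

theorem om_le (k n : ℤ) : om k ≤ (2 : ℝ) ^ n.natAbs * om (k - n) := by
  have h1 : (2 : ℝ) ^ n ≤ (2 : ℝ) ^ n.natAbs := by
    rw [← zpow_natCast]
    exact zpow_le_zpow_right₀ (by norm_num) (Int.le_natAbs)
  have h2 : (2 : ℝ) ^ (-n) ≤ (2 : ℝ) ^ n.natAbs := by
    rw [← zpow_natCast, ← Int.natAbs_neg]
    exact zpow_le_zpow_right₀ (by norm_num) (Int.le_natAbs)
  unfold om
  rw [mul_min_of_nonneg _ _ (by positivity)]
  apply min_le_min
  · calc (2 : ℝ) ^ k = (2 : ℝ) ^ n * (2 : ℝ) ^ (k - n) := by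
          rw [← zpow_add₀ (by norm_num)]; congr 1; ring
      _ ≤ _ := by gcongr
  · calc (2 : ℝ) ^ (1 - k) = (2 : ℝ) ^ (-n) * (2 : ℝ) ^ (1 - (k - n)) := by
          rw [← zpow_add₀ (by norm_num)]; congr 1; ring
      _ ≤ _ := by gcongr

theorem om_fwd (j : ℤ) (hj : 0 ≤ j) (n : ℕ) : om (j + n) ≤ 2 * (1 / 2 : ℝ) ^ n * om j := by
  have h1 : om (j + n) ≤ (2 : ℝ) ^ (1 - (j + n)) := min_le_right _ _
  have h2 : (2 : ℝ) ^ (-j) ≤ om j := by
    apply le_min
    · exact zpow_le_zpow_right₀ (by norm_num) (by omega)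
    · exact zpow_le_zpow_right₀ (by norm_num) (by omega)
  have h3 : (2 : ℝ) ^ (1 - (j + (n : ℤ))) = 2 * (1 / 2 : ℝ) ^ n * (2 : ℝ) ^ (-j) := by
    rw [one_div, inv_pow, ← zpow_natCast, ← zpow_neg]
    have : (2 : ℝ) * 2 ^ (-(n : ℤ)) * 2 ^ (-j) = (2 : ℝ) ^ (1 : ℤ) * 2 ^ (-(n : ℤ)) * 2 ^ (-j) := by
      rw [zpow_one]
    rw [this, ← zpow_add₀ (by norm_num), ← zpow_add₀ (by norm_num)]
    congr 1; ring
  calc om (j + n) ≤ 2 * (1 / 2 : ℝ) ^ n * (2 : ℝ) ^ (-j) := h1.trans_eq h3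
    _ ≤ _ := by gcongr

theorem om_bwd (j : ℤ) (hj : j ≤ 1) (n : ℕ) : om (j - n) ≤ 2 * (1 / 2 : ℝ) ^ n * om j := by
  have h1 : om (j - n) ≤ (2 : ℝ) ^ (j - n) := min_le_left _ _
  have h2 : (2 : ℝ) ^ (j - 1) ≤ om j := by
    apply le_min
    · exact zpow_le_zpow_right₀ (by norm_num) (by omega)
    · exact zpow_le_zpow_right₀ (by norm_num) (by omega)
  have h3 : (2 : ℝ) ^ (j - (n : ℤ)) = 2 * (1 / 2 : ℝ) ^ n * (2 : ℝ) ^ (j - 1) := by
    rw [one_div, inv_pow, ← zpow_natCast, ← zpow_neg]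
    have : (2 : ℝ) * 2 ^ (-(n : ℤ)) * 2 ^ (j - 1) =
        (2 : ℝ) ^ (1 : ℤ) * 2 ^ (-(n : ℤ)) * 2 ^ (j - 1) := by
      rw [zpow_one]
    rw [this, ← zpow_add₀ (by norm_num), ← zpow_add₀ (by norm_num)]
    congr 1; ring
  calc om (j - n) ≤ 2 * (1 / 2 : ℝ) ^ n * (2 : ℝ) ^ (j - 1) := h1.trans_eq h3
    _ ≤ _ := by gcongr

section

variable {R : Type} [NormedRing R] [NormedAlgebra ℂ R]

/-- the weighted shifts -/
noncomputable def W (n : ℤ) : H ℤ R →L[ℂ] H ℤ R :=
  mkOp (fun h k => ((om k / om (k - n) : ℝ) : ℂ) • at' h (k - n)) ((2 : ℝ) ^ n.natAbs)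
    (by positivity)
    (fun h k => by
      rw [norm_smul, Complex.norm_real, Real.norm_eq_abs,
        abs_of_pos (div_pos (om_pos _) (om_pos _))]
      have h1 : om k / om (k - n) ≤ (2 : ℝ) ^ n.natAbs := by
        rw [div_le_iff₀ (om_pos _)]
        exact om_le k n
      exact mul_le_mul h1 (norm_at_le h _) (norm_nonneg _) (by positivity))
    (fun h h' k => by rw [at_add, smul_add])
    (fun c h k => by rw [at_smul, smul_comm])

theorem at_W (n : ℤ) (h : H ℤ R) (k : ℤ) :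
    at' ((W n : H ℤ R →L[ℂ] H ℤ R) h) k = ((om k / om (k - n) : ℝ) : ℂ) • at' h (k - n) := rfl

theorem W_zero : (W 0 : H ℤ R →L[ℂ] H ℤ R) = 1 := by
  apply op_ext
  intro h k
  rw [at_W, sub_zero, div_self (om_pos k).ne', one_app]
  simp

theorem W_add (m n : ℤ) : (W (m + n) : H ℤ R →L[ℂ] H ℤ R) = W m * W n := by
  apply op_ext
  intro h k
  rw [mul_app, at_W, at_W, at_W, smul_smul, ← Complex.ofReal_mul]
  have e : k - m - n = k - (m + n) := by ring
  rw [e]
  congr 2
  have := (om_pos (k - m)).ne'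
  field_simp

theorem W_pow (m : ℤ) (n : ℕ) : (W m : H ℤ R →L[ℂ] H ℤ R) ^ n = W (n * m) := by
  induction n with
  | zero => simp [W_zero]
  | succ n ih =>
    rw [pow_succ, ih, ← W_add]
    congr 1
    push_cast
    ring

/-- right multiplication by `c` -/
noncomputable def Rm (c : R) : H ℤ R →L[ℂ] H ℤ R :=
  mkOp (fun h k => at' h k * c) ‖c‖ (norm_nonneg _)
    (fun h k => (norm_mul_le _ _).trans (by
      rw [mul_comm]; gcongr; exact norm_at_le h k))
    (fun h h' k => by rw [at_add, add_mul])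
    (fun a h k => by rw [at_smul, smul_mul_assoc])

@[simp] theorem at_Rm (c : R) (h : H ℤ R) (k : ℤ) : at' (Rm c h) k = at' h k * c := rfl

/-- left multiplication by `a` -/
noncomputable def Lm (a : R) : H ℤ R →L[ℂ] H ℤ R :=
  mkOp (fun h k => a * at' h k) ‖a‖ (norm_nonneg _)
    (fun h k => (norm_mul_le _ _).trans (by gcongr; exact norm_at_le h k))
    (fun h h' k => by rw [at_add, mul_add])
    (fun c h k => by rw [at_smul, mul_smul_comm])

@[simp] theorem at_Lm (a : R) (h : H ℤ R) (k : ℤ) : at' (Lm a h) k = a * at' h k := rfl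

/-- projection onto indices `≥ 2` -/
noncomputable def P2 : H ℤ R →L[ℂ] H ℤ R :=
  mkOp (fun h k => if 2 ≤ k then at' h k else 0) 1 zero_le_one
    (fun h k => by
      split_ifs
      · rw [one_mul]; exact norm_at_le h k
      · rw [norm_zero]; positivity)
    (fun h h' k => by split_ifs <;> simp [at_add])
    (fun c h k => by split_ifs <;> simp [at_smul])

theorem at_P2 (h : H ℤ R) (k : ℤ) :
    at' ((P2 : H ℤ R →L[ℂ] H ℤ R) h) k = if 2 ≤ k then at' h k else 0 := rfl

/-- matrix units -/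
noncomputable def un (i j : ℤ) (a : R) : H ℤ R →L[ℂ] H ℤ R :=
  mkOp (fun h k => if k = i then a * at' h j else 0) ‖a‖ (norm_nonneg _)
    (fun h k => by
      split_ifs
      · exact (norm_mul_le _ _).trans (by gcongr; exact norm_at_le h j)
      · rw [norm_zero]; positivity)
    (fun h h' k => by split_ifs <;> simp [at_add, mul_add])
    (fun c h k => by split_ifs <;> simp [at_smul])

theorem at_un (i j : ℤ) (a : R) (h : H ℤ R) (k : ℤ) :
    at' (un i j a h) k = if k = i then a * at' h j else 0 := rfl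

theorem norm_un_le (i j : ℤ) (a : R) : ‖(un i j a : H ℤ R →L[ℂ] H ℤ R)‖ ≤ ‖a‖ := by
  apply norm_op_le (norm_nonneg _)
  intro h k
  rw [at_un]
  split_ifs
  · exact (norm_mul_le _ _).trans (by gcongr; exact norm_at_le h j)
  · rw [norm_zero]; positivity

/-- matrix units as a linear map -/
noncomputable def unL (i j : ℤ) : R →L[ℂ] (H ℤ R →L[ℂ] H ℤ R) :=
  LinearMap.mkContinuous
    { toFun := fun a : R => un i j a
      map_add' := fun a b => by
        apply op_ext
        intro h k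
        rw [add_apply, at_add, at_un, at_un, at_un]
        split_ifs <;> simp [add_mul]
      map_smul' := fun c a => by
        apply op_ext
        intro h k
        rw [RingHom.id_apply, smul_apply, at_smul, at_un, at_un]
        split_ifs <;> simp } 1
    (fun a => by
      rw [one_mul]
      exact norm_un_le i j a)

@[simp] theorem unL_apply (i j : ℤ) (a : R) :
    (unL i j : R →L[ℂ] (H ℤ R →L[ℂ] H ℤ R)) a = un i j a := rfl

end

end Pool.Agent.H34.Loop
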