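import Mathlib

/-!
# The pencil lemma: from an idempotent to a trivialisation of the kernel bundle
-/

set_option autoImplicit false
set_option linter.unusedSectionVars false

namespace Pool.Agent.H34.Loop

open Set

section

variable {X : Type*} [NormedRing X] [NormedAlgebra ℂ X] [CompleteSpace X]

theorem isUnit_one_sub_of_pow {a : X} {m : ℕ} (h : ‖a ^ m‖ < 1) : IsUnit (1 - a) := by
  have h1 : IsUnit (1 - a ^ m) := isUnit_one_sub_of_norm_lt_one h
  have h2 : (1 - a) * (∑ i ∈ Finset.range m, a ^ i) = 1 - a ^ m := mul_neg_geom_sum a m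
  have h3 : Commute (1 - a) (∑ i ∈ Finset.range m, a ^ i) := by
    apply Commute.sum_right
    intro i _
    exact ((Commute.one_left _).sub_left (Commute.refl a)).pow_right i
  rw [← h2, h3.isUnit_mul_iff] at h1
  exact h1.1

theorem isUnit_smul_sub {A : X} {m : ℕ} (h : ‖A ^ m‖ < 1) {z : ℂ} (hz : ‖z‖ = 1) :
    IsUnit (z • (1 : X) - A) := by
  have hz0 : z ≠ 0 := by
    intro h0
    rw [h0, norm_zero] at hz
    exact zero_ne_one hz
  have h1 : IsUnit (1 - z⁻¹ • A) := by
    apply isUnit_one_sub_of_pow (m := m)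
    rw [smul_pow, norm_smul, norm_pow, norm_inv, hz]
    simpa using h
  have h2 : z • (1 : X) - A = (algebraMap ℂ X z) * (1 - z⁻¹ • A) := by
    rw [← Algebra.smul_def, smul_sub, smul_smul, mul_inv_cancel₀ hz0, one_smul]
  rw [h2]
  exact ((IsUnit.mk0 z hz0).map (algebraMap ℂ X)).mul h1

theorem isUnit_one_sub_smul {B : X} {m : ℕ} (h : ‖B ^ m‖ < 1) {z : ℂ} (hz : ‖z‖ = 1) :
    IsUnit (1 - z • B) := by
  apply isUnit_one_sub_of_pow (m := m)
  rw [smul_pow, norm_smul, norm_pow, hz]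
  simpa using h

theorem pow_mul_idem {t r : X} (hr : r * r = r) (h : t * r = r * (t * r)) (n : ℕ) :
    r * (t ^ n * r) = t ^ n * r := by
  induction n with
  | zero => simpa using hr
  | succ n ih =>
    have h1 : t ^ (n + 1) * r = t * r * (t ^ n * r) := by
      rw [pow_succ', mul_assoc, mul_assoc, ih]
    rw [h1, h]
    rw [← mul_assoc r (r * (t * r)), ← mul_assoc r r, hr]

theorem mul_idem_pow {t r : X} (hr : r * r = r) (h : t * r = r * (t * r)) (n : ℕ) :
    (t * r) ^ (n + 1) = t ^ (n + 1) * r := by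
  induction n with
  | zero => simp
  | succ n ih =>
    rw [pow_succ' (t * r), ih, mul_assoc, pow_mul_idem hr h, pow_succ' t (n + 1), mul_assoc]

/-- Generalized hyperbolicity of `t` (inverse `s`) with respect to `r`. -/
structure GHdat (t s r : X) : Prop where
  ts : t * s = 1
  st : s * t = 1
  rr : r * r = r
  tr : t * r = r * (t * r)
  sr : s * (1 - r) = (1 - r) * (s * (1 - r))
  dec : ∃ m : ℕ, 0 < m ∧ ‖t ^ m * r‖ < 1 ∧ ‖s ^ m * (1 - r)‖ < 1

/-- the pencil -/
def pen (t s r : X) (z : ℂ) : X := (z • (1 : X) - t) * (r + s * (1 - r))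

theorem isUnit_pen {t s r : X} (D : GHdat t s r) {z : ℂ} (hz : ‖z‖ = 1) :
    IsUnit (pen t s r z) := by
  obtain ⟨m, hm, h1, h2⟩ := D.dec
  obtain ⟨n, rfl⟩ : ∃ n, m = n + 1 := ⟨m - 1, by omega⟩
  have hr' : (1 - r) * (1 - r) = 1 - r := by
    have := D.rr
    rw [mul_sub, mul_one, sub_mul, one_mul, this, sub_self, sub_zero]
  rw [← mul_idem_pow D.rr D.tr] at h1
  rw [← mul_idem_pow hr' D.sr] at h2
  obtain ⟨u, hu⟩ := isUnit_smul_sub h1 hz
  obtain ⟨v, hv⟩ := isUnit_one_sub_smul h2 hz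
  have hrA : r * (t * r) = t * r := D.tr.symm
  have hAr : (t * r) * r = t * r := by rw [mul_assoc, D.rr]
  have hrB : r * (s * (1 - r)) = 0 := by
    rw [D.sr, ← mul_assoc, mul_sub, mul_one, D.rr, sub_self, zero_mul]
  have hBr : (s * (1 - r)) * r = 0 := by
    rw [mul_assoc, sub_mul, one_mul, D.rr, sub_self, mul_zero]
  have cu : Commute r (u : X) := by
    rw [hu]
    unfold Commute SemiconjBy
    rw [mul_sub, sub_mul, hrA, hAr]
    simp
  have cv : Commute r (v : X) := by
    rw [hv]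
    unfold Commute SemiconjBy
    rw [mul_sub, sub_mul, mul_smul_comm, smul_mul_assoc, hrB, hBr]
    simp
  have cu' : r * (↑u⁻¹ : X) = (↑u⁻¹ : X) * r := cu.units_inv_right
  have cv' : r * (↑v⁻¹ : X) = (↑v⁻¹ : X) * r := cv.units_inv_right
  have hM : pen t s r z = (u : X) * r - (v : X) * (1 - r) := by
    rw [hu, hv]
    unfold pen
    have e1 : t * (s * (1 - r)) = 1 - r := by rw [← mul_assoc, D.ts, one_mul]
    rw [mul_add, sub_mul, sub_mul, e1, sub_mul, sub_mul, hAr, smul_mul_assoc, one_mul,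
      smul_mul_assoc, one_mul, smul_mul_assoc]
    have e2 : s * (1 - r) * (1 - r) = s * (1 - r) := by rw [mul_assoc, hr']
    rw [e2, one_mul]
    abel
  have hrr := D.rr
  have r0 : r * (1 - r) = 0 := by rw [mul_sub, mul_one, hrr, sub_self]
  have r1 : (1 - r) * r = 0 := by rw [sub_mul, one_mul, hrr, sub_self]
  have hMV : ((u : X) * r - (v : X) * (1 - r)) * ((↑u⁻¹ : X) * r - (↑v⁻¹ : X) * (1 - r)) = 1 := by
    have a1 : (u : X) * r * ((↑u⁻¹ : X) * r) = r := by
      rw [mul_assoc, ← mul_assoc r, cu', ← mul_assoc, ← mul_assoc, Units.mul_inv, one_mul, hrr]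
    have a2 : (u : X) * r * ((↑v⁻¹ : X) * (1 - r)) = 0 := by
      rw [mul_assoc, ← mul_assoc r, cv', mul_assoc, r0, mul_zero, mul_zero]
    have a3 : (v : X) * (1 - r) * ((↑u⁻¹ : X) * r) = 0 := by
      have : (1 - r) * (↑u⁻¹ : X) = (↑u⁻¹ : X) * (1 - r) := by
        rw [sub_mul, mul_sub, cu', one_mul, mul_one]
      rw [mul_assoc, ← mul_assoc (1 - r), this, mul_assoc, r1, mul_zero, mul_zero]
    have a4 : (v : X) * (1 - r) * ((↑v⁻¹ : X) * (1 - r)) = 1 - r := by
      have : (1 - r) * (↑v⁻¹ : X) = (↑v⁻¹ : X) * (1 - r) := by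
        rw [sub_mul, mul_sub, cv', one_mul, mul_one]
      rw [mul_assoc, ← mul_assoc (1 - r), this, ← mul_assoc, ← mul_assoc, Units.mul_inv,
        one_mul, hr']
    rw [sub_mul, mul_sub ((u : X) * r), mul_sub ((v : X) * (1 - r)), a1, a2, a3, a4]
    abel
  have hVM : ((↑u⁻¹ : X) * r - (↑v⁻¹ : X) * (1 - r)) * ((u : X) * r - (v : X) * (1 - r)) = 1 := by
    have b1 : (1 - r) * (u : X) = (u : X) * (1 - r) := by
      rw [sub_mul, mul_sub, cu.eq, one_mul, mul_one]
    have b2 : (1 - r) * (v : X) = (v : X) * (1 - r) := by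
      rw [sub_mul, mul_sub, cv.eq, one_mul, mul_one]
    have a1 : (↑u⁻¹ : X) * r * ((u : X) * r) = r := by
      rw [mul_assoc, ← mul_assoc r, cu.eq, ← mul_assoc, ← mul_assoc, Units.inv_mul, one_mul, hrr]
    have a2 : (↑u⁻¹ : X) * r * ((v : X) * (1 - r)) = 0 := by
      rw [mul_assoc, ← mul_assoc r, cv.eq, mul_assoc, r0, mul_zero, mul_zero]
    have a3 : (↑v⁻¹ : X) * (1 - r) * ((u : X) * r) = 0 := by
      rw [mul_assoc, ← mul_assoc (1 - r), b1, mul_assoc, r1, mul_zero, mul_zero]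
    have a4 : (↑v⁻¹ : X) * (1 - r) * ((v : X) * (1 - r)) = 1 - r := by
      rw [mul_assoc, ← mul_assoc (1 - r), b2, ← mul_assoc, ← mul_assoc, Units.inv_mul,
        one_mul, hr']
    rw [sub_mul, mul_sub ((↑u⁻¹ : X) * r), mul_sub ((↑v⁻¹ : X) * (1 - r)), a1, a2, a3, a4]
    abel
  rw [hM]
  exact ⟨⟨_, _, hMV, hVM⟩, rfl⟩

/-- the projection onto the kernel of `z - t` -/
noncomputable def Pk (t s r : X) (z : ℂ) : X :=
  1 - (r + s * (1 - r)) * Ring.inverse (pen t s r z) * (z • (1 : X) - t)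

theorem sub_mul_Pk {t s r : X} (D : GHdat t s r) {z : ℂ} (hz : ‖z‖ = 1) :
    (z • (1 : X) - t) * Pk t s r z = 0 := by
  have hu := isUnit_pen D hz
  unfold Pk
  rw [mul_sub, mul_one, ← mul_assoc, ← mul_assoc]
  change _ - pen t s r z * Ring.inverse (pen t s r z) * _ = 0
  rw [Ring.mul_inverse_cancel _ hu, one_mul, sub_self]

theorem Pk_mul_Pk {t s r : X} (D : GHdat t s r) {w : ℂ} (hw : ‖w‖ = 1) (z : ℂ) :
    Pk t s r w * Pk t s r z = Pk t s r w := by
  have hu := isUnit_pen D hw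
  have h1 : Pk t s r w * (r + s * (1 - r)) = 0 := by
    unfold Pk
    rw [sub_mul, one_mul, mul_assoc _ (w • (1 : X) - t)]
    change _ - _ * pen t s r w = 0
    rw [mul_assoc, Ring.inverse_mul_cancel _ hu, mul_one, sub_self]
  have h2 : Pk t s r z = 1 - (r + s * (1 - r)) * (Ring.inverse (pen t s r z) *
      (z • (1 : X) - t)) := by
    unfold Pk
    rw [mul_assoc]
  rw [h2, mul_sub, mul_one, ← mul_assoc, h1, zero_mul, sub_zero]

theorem continuous_Pk {t s r : X} (D : GHdat t s r) :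
    Continuous (fun z : Circle => Pk t s r (z : ℂ)) := by
  have h1 : Continuous (fun z : Circle => ((z : ℂ) • (1 : X) - t)) :=
    (continuous_subtype_val.smul continuous_const).sub continuous_const
  have h2 : Continuous (fun z : Circle => pen t s r (z : ℂ)) := h1.mul continuous_const
  have h3 : Continuous (fun z : Circle => Ring.inverse (pen t s r (z : ℂ))) := by
    rw [continuous_iff_continuousAt]
    intro z
    obtain ⟨u, hu⟩ := isUnit_pen D (Circle.norm_coe z)
    have := NormedRing.inverse_continuousAt u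
    rw [hu] at this
    exact ContinuousAt.comp (g := Ring.inverse) (f := fun z : Circle => pen t s r (z : ℂ))
      this h2.continuousAt
  unfold Pk
  exact continuous_const.sub ((continuous_const.mul h3).mul h1)

end

end Pool.Agent.H34.Loop
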