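import Mathlib
import Pool.Agent.H34.Pencil

/-!
# The algebra of paths in a Banach algebra and the gluing condition
-/

set_option autoImplicit false
set_option linter.unusedSectionVars false

namespace Pool.Agent.H34.Loop

open Set
open scoped unitInterval

section

variable {A : Type} [NormedRing A] [NormedAlgebra ℂ A] [CompleteSpace A]

variable (A) in
/-- paths in `A` -/
abbrev PA : Type := C(I, A)

theorem pa_mul (F F' : PA A) (θ : I) : (F * F') θ = F θ * F' θ := rfl

theorem pa_one (θ : I) : (1 : PA A) θ = 1 := rfl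

theorem pa_sub (F F' : PA A) (θ : I) : (F - F') θ = F θ - F' θ := rfl

theorem pa_pow (F : PA A) (n : ℕ) (θ : I) : (F ^ n) θ = F θ ^ n := rfl

theorem pa_ext {F F' : PA A} (h : ∀ θ, F θ = F' θ) : F = F' := ContinuousMap.ext h

/-- the closed subalgebra of admissible elements -/
noncomputable def Phi (S : Set A) (G : A) : Subalgebra ℂ (PA A) where
  carrier := {F | (∀ (θ : I) (c : A), c ∈ S → F θ * c = c * F θ) ∧ F 1 * G = G * F 0}
  mul_mem' := by
    rintro F F' ⟨h1, h2⟩ ⟨h3, h4⟩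
    refine ⟨fun θ c hc => ?_, ?_⟩
    · rw [ContinuousMap.mul_apply, mul_assoc, h3 θ c hc, ← mul_assoc, h1 θ c hc, mul_assoc]
    · rw [ContinuousMap.mul_apply, ContinuousMap.mul_apply, mul_assoc, h4, ← mul_assoc, h2,
        mul_assoc]
  add_mem' := by
    rintro F F' ⟨h1, h2⟩ ⟨h3, h4⟩
    refine ⟨fun θ c hc => ?_, ?_⟩
    · rw [ContinuousMap.add_apply, add_mul, mul_add, h1 θ c hc, h3 θ c hc]
    · rw [ContinuousMap.add_apply, ContinuousMap.add_apply, add_mul, mul_add, h2, h4]
  algebraMap_mem' := by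
    intro c
    refine ⟨fun θ d _ => ?_, ?_⟩
    · rw [Algebra.algebraMap_eq_smul_one, ContinuousMap.smul_apply, ContinuousMap.one_apply,
        smul_mul_assoc, mul_smul_comm, one_mul, mul_one]
    · rw [Algebra.algebraMap_eq_smul_one, ContinuousMap.smul_apply, ContinuousMap.one_apply,
        ContinuousMap.smul_apply, ContinuousMap.one_apply,
        smul_mul_assoc, mul_smul_comm, one_mul, mul_one]

theorem mem_Phi {S : Set A} {G : A} {F : PA A} : F ∈ Phi S G ↔
    (∀ (θ : I) (c : A), c ∈ S → F θ * c = c * F θ) ∧ F 1 * G = G * F 0 := Iff.rfl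

theorem isClosed_Phi (S : Set A) (G : A) : IsClosed (Phi S G : Set (PA A)) := by
  have h : (Phi S G : Set (PA A)) =
      (⋂ (θ : I), ⋂ (c : S), {F : PA A | F θ * c = c * F θ}) ∩
      {F : PA A | F 1 * G = G * F 0} := by
    ext F
    simp only [SetLike.mem_coe, mem_Phi, mem_inter_iff, mem_iInter, mem_ofPred_eq,
      Subtype.forall]
  rw [h]
  apply IsClosed.inter
  · apply isClosed_iInter; intro θ
    apply isClosed_iInter; intro c
    exact isClosed_eq ((continuous_eval_const θ).mul continuous_const)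
      (continuous_const.mul (continuous_eval_const θ))
  · exact isClosed_eq ((continuous_eval_const _).mul continuous_const)
      (continuous_const.mul (continuous_eval_const _))

theorem inverse_mem_Phi {S : Set A} {G : A} {F : PA A} (hF : F ∈ Phi S G) (hu : IsUnit F) :
    Ring.inverse F ∈ Phi S G := by
  obtain ⟨u, rfl⟩ := hu
  rw [Ring.inverse_unit]
  have e1 : ∀ θ, (u : PA A) θ * (↑u⁻¹ : PA A) θ = 1 := fun θ => by
    rw [← ContinuousMap.mul_apply, Units.mul_inv, ContinuousMap.one_apply]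
  have e2 : ∀ θ, (↑u⁻¹ : PA A) θ * (u : PA A) θ = 1 := fun θ => by
    rw [← ContinuousMap.mul_apply, Units.inv_mul, ContinuousMap.one_apply]
  obtain ⟨h1, h2⟩ := hF
  refine ⟨fun θ c hc => ?_, ?_⟩
  · calc (↑u⁻¹ : PA A) θ * c = (↑u⁻¹ : PA A) θ * c * ((u : PA A) θ * (↑u⁻¹ : PA A) θ) := by
          rw [e1, mul_one]
      _ = (↑u⁻¹ : PA A) θ * ((u : PA A) θ * c) * (↑u⁻¹ : PA A) θ := by
          rw [h1 θ c hc]; simp only [mul_assoc]
      _ = c * (↑u⁻¹ : PA A) θ := by rw [← mul_assoc, e2, one_mul]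
  · calc (↑u⁻¹ : PA A) 1 * G = (↑u⁻¹ : PA A) 1 * G * ((u : PA A) 0 * (↑u⁻¹ : PA A) 0) := by
          rw [e1, mul_one]
      _ = (↑u⁻¹ : PA A) 1 * ((u : PA A) 1 * G) * (↑u⁻¹ : PA A) 0 := by
          rw [h2]; simp only [mul_assoc]
      _ = G * (↑u⁻¹ : PA A) 0 := by rw [← mul_assoc, e2, one_mul]

theorem const_mem_Phi {S : Set A} {G a : A} (h1 : ∀ c ∈ S, a * c = c * a) (h2 : a * G = G * a) :
    (ContinuousMap.const I a : PA A) ∈ Phi S G :=
  ⟨fun _ c hc => h1 c hc, h2⟩

/-- Everything we need about the projections onto the kernels. -/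
theorem exists_proj {S : Set A} {G T T' : A} {r : PA A}
    (hT1 : ∀ c ∈ S, T * c = c * T) (hT2 : T * G = G * T)
    (hT1' : ∀ c ∈ S, T' * c = c * T') (hT2' : T' * G = G * T')
    (hr : r ∈ Phi S G)
    (D : GHdat (ContinuousMap.const I T : PA A) (ContinuousMap.const I T') r) :
    ∃ P Q : Circle → I → A, Continuous (fun zθ : Circle × I => P zθ.1 zθ.2) ∧
      (∀ (z : Circle) (θ : I), ((z : ℂ) • (1 : A) - T) * P z θ = 0) ∧
      (∀ z w θ, P w θ * P z θ = P w θ) ∧
      (∀ (z : Circle) (θ : I), P z θ = 1 - Q z θ * ((z : ℂ) • (1 : A) - T)) ∧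
      (∀ z θ, ∀ c ∈ S, P z θ * c = c * P z θ) ∧
      (∀ z, P z 1 * G = G * P z 0) := by
  set t : PA A := ContinuousMap.const I T with ht
  set s : PA A := ContinuousMap.const I T' with hs
  have htm : t ∈ Phi S G := const_mem_Phi hT1 hT2
  have hsm : s ∈ Phi S G := const_mem_Phi hT1' hT2'
  have h1m : (1 : PA A) ∈ Phi S G := one_mem _
  have hzm : ∀ z : ℂ, z • (1 : PA A) - t ∈ Phi S G := fun z =>
    sub_mem (Subalgebra.smul_mem _ h1m z) htm
  have hNm : (r + s * (1 - r)) ∈ Phi S G :=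
    add_mem hr (mul_mem hsm (sub_mem h1m hr))
  have hpm : ∀ z : Circle, Pk t s r (z : ℂ) ∈ Phi S G := by
    intro z
    unfold Pk
    refine sub_mem h1m (mul_mem (mul_mem hNm ?_) (hzm _))
    exact inverse_mem_Phi (mul_mem (hzm _) hNm) (isUnit_pen D (Circle.norm_coe z))
  refine ⟨fun z θ => Pk t s r (z : ℂ) θ,
    fun z θ => ((r + s * (1 - r)) * Ring.inverse (pen t s r (z : ℂ)) : PA A) θ, ?_, ?_, ?_, ?_,
    ?_, ?_⟩
  · exact ContinuousEval.continuous_eval.comp
      (((continuous_Pk D).comp continuous_fst).prodMk continuous_snd)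
  · intro z θ
    have := congrArg (fun F : PA A => F θ) (sub_mul_Pk D (Circle.norm_coe z))
    exact this
  · intro z w θ
    have := congrArg (fun F : PA A => F θ) (Pk_mul_Pk D (Circle.norm_coe w) (z : ℂ))
    exact this
  · intro z θ
    rfl
  · intro z θ c hc
    exact (hpm z).1 θ c hc
  · intro z
    exact (hpm z).2

end

end Pool.Agent.H34.Loop
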