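import Mathlib
import Pool.Agent.H34.Loop
import Pool.Agent.H34.PathAlg

/-!
# The Banach algebra example, part 2: from an idempotent to a homotopy
-/

set_option autoImplicit false
set_option linter.unusedSectionVars false
set_option synthInstance.maxHeartbeats 400000

namespace Pool.Agent.H34.Loop

open Set
open scoped ENNReal unitInterval

section

variable {R : Type} [NormedRing R] [NormedAlgebra ℂ R] [CompleteSpace R]

variable (R) in
/-- the operator algebra -/
abbrev E : Type := H ℤ R →L[ℂ] H ℤ R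

/-- the gluing operator -/
noncomputable def GG (x y : R) : E R := Lm (1 - x * y) * W 1 + Lm (x * y)

theorem W_Rm (n : ℤ) (c : R) : (W n : E R) * Rm c = Rm c * W n := by
  apply op_ext
  intro h k
  rw [mul_app, mul_app, at_W, at_Rm, at_Rm, at_W, smul_mul_assoc]

theorem W_Lm (n : ℤ) (c : R) : (W n : E R) * Lm c = Lm c * W n := by
  apply op_ext
  intro h k
  rw [mul_app, mul_app, at_W, at_Lm, at_Lm, at_W, mul_smul_comm]

theorem W_comm (m n : ℤ) : (W m : E R) * W n = W n * W m := by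
  rw [← W_add, ← W_add, add_comm]

theorem W_GG (n : ℤ) (x y : R) : (W n : E R) * GG x y = GG x y * W n := by
  unfold GG
  rw [mul_add, add_mul, ← mul_assoc, W_Lm, W_Lm, mul_assoc, mul_assoc, W_comm]

theorem Lm_Rm (a c : R) : (Lm a : E R) * Rm c = Rm c * Lm a := by
  apply op_ext
  intro h k
  rw [mul_app, mul_app, at_Lm, at_Rm, at_Rm, at_Lm, mul_assoc]

theorem GG_Rm (x y c : R) : GG x y * Rm c = Rm c * GG x y := by
  unfold GG
  rw [mul_add, add_mul, mul_assoc, W_Rm, ← mul_assoc, Lm_Rm, Lm_Rm, mul_assoc]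

theorem om_le_one (k : ℤ) : om k ≤ 1 := by
  rcases le_or_gt k 0 with h | h
  · refine (min_le_left _ _).trans ?_
    calc (2 : ℝ) ^ k ≤ 2 ^ (0 : ℤ) := zpow_le_zpow_right₀ (by norm_num) h
      _ = 1 := zpow_zero _
  · refine (min_le_right _ _).trans ?_
    calc (2 : ℝ) ^ (1 - k) ≤ 2 ^ (0 : ℤ) := zpow_le_zpow_right₀ (by norm_num) (by omega)
      _ = 1 := zpow_zero _

/-- eigenvector -/
noncomputable def io (z : Circle) : H ℤ R :=
  mkH (fun k => (((om k : ℝ) : ℂ) * ((z : ℂ) ^ (-k))) • (1 : R)) ‖(1 : R)‖ (fun k => by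
    rw [norm_smul, norm_mul, Complex.norm_real, Real.norm_eq_abs, abs_of_pos (om_pos k),
      norm_zpow, Circle.norm_coe, one_zpow, mul_one]
    calc om k * ‖(1 : R)‖ ≤ 1 * ‖(1 : R)‖ := by gcongr; exact om_le_one k
      _ = _ := one_mul _)

theorem at_io (z : Circle) (k : ℤ) :
    at' (io z : H ℤ R) k = (((om k : ℝ) : ℂ) * ((z : ℂ) ^ (-k))) • (1 : R) := rfl

theorem at_io_zero (z : Circle) : at' (io z : H ℤ R) 0 = 1 := by
  rw [at_io, om_zero]; simp

theorem W_io (z : Circle) : (W 1 : E R) (io z) = (z : ℂ) • io z := by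
  apply H_ext
  intro k
  rw [at_W, at_smul, at_io, at_io, smul_smul, smul_smul]
  congr 1
  have h1 : ((om (k - 1) : ℝ) : ℂ) ≠ 0 := by exact_mod_cast (om_pos _).ne'
  have h2 : (z : ℂ) ≠ 0 := z.coe_ne_zero
  have e : -(k - 1) = -k + 1 := by ring
  rw [e, zpow_add₀ h2, zpow_one]
  push_cast
  field_simp

theorem W_eig {h : H ℤ R} {z : Circle} (hz : (W 1 : E R) h = (z : ℂ) • h) (n : ℤ) :
    (W n : E R) h = ((z : ℂ) ^ n) • h := by
  have h2 : (z : ℂ) ≠ 0 := z.coe_ne_zero
  have hz' : (W (-1) : E R) h = (z : ℂ)⁻¹ • h := by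
    have e : (W (-1) : E R) ((W 1 : E R) h) = h := by
      rw [← mul_app, ← W_add, neg_add_cancel, W_zero, one_app]
    rw [hz, map_smul] at e
    calc (W (-1) : E R) h = (z : ℂ)⁻¹ • ((z : ℂ) • (W (-1) : E R) h) := by
          rw [smul_smul, inv_mul_cancel₀ h2, one_smul]
      _ = _ := by rw [e]
  induction n using Int.induction_on with
  | zero => rw [W_zero, one_app, zpow_zero, one_smul]
  | succ n ih => rw [W_add, mul_app, hz, map_smul, ih, smul_smul, zpow_add₀ h2, zpow_one, mul_comm]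
  | pred n ih =>
    rw [sub_eq_add_neg, W_add, mul_app, hz', map_smul, ih, smul_smul, zpow_add₀ h2, zpow_neg_one,
      mul_comm]

/-- every eigenvector is a right multiple of `io` -/
theorem eig_eq {h : H ℤ R} {z : Circle} (hz : (W 1 : E R) h = (z : ℂ) • h) :
    h = Rm (at' h 0) (io z) := by
  have h2 : (z : ℂ) ≠ 0 := z.coe_ne_zero
  apply H_ext
  intro k
  have h3 : at' ((W k : E R) h) k = at' (((z : ℂ) ^ k) • h) k := by rw [W_eig hz k]
  rw [at_W, at_smul, sub_self, om_zero, div_one] at h3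
  rw [at_Rm, at_io, smul_mul_assoc, one_mul]
  calc at' h k = ((z : ℂ) ^ (-k)) • ((z : ℂ) ^ k • at' h k) := by
        rw [smul_smul, ← zpow_add₀ h2, neg_add_cancel, zpow_zero, one_smul]
    _ = _ := by rw [← h3, smul_smul, mul_comm]

theorem Rm_Rm (c d : R) (h : H ℤ R) : Rm c (Rm d h) = Rm (d * c) h := by
  apply H_ext
  intro k
  rw [at_Rm, at_Rm, at_Rm, mul_assoc]

/-- the loop -/
def uu (x y : R) (z : ℂ) : R := 1 + (z - 1) • (1 - x * y)

theorem uu_one (x y : R) : uu x y 1 = 1 := by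
  unfold uu; rw [sub_self, zero_smul, add_zero]

theorem GG_io (x y : R) (z : Circle) : GG x y (io z) = Rm (uu x y z) (io z) := by
  apply H_ext
  intro k
  unfold GG
  rw [add_apply, at_add, mul_app, at_Lm, W_io, at_smul, at_Lm, at_Rm, at_io]
  unfold uu
  rw [smul_smul, smul_mul_assoc, one_mul, mul_smul_comm, mul_smul_comm, mul_one, mul_one,
    mul_comm (z : ℂ), mul_smul, ← smul_add]
  congr 1
  rw [sub_smul, one_smul]
  abel

theorem exists_homotopy (x y : R) {r : PA (E R)} (hr : r ∈ Phi (range Rm) (GG x y))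
    (D : GHdat (ContinuousMap.const I (W 1) : PA (E R)) (ContinuousMap.const I (W (-1))) r) :
    ∃ γ : I × Circle → R, Continuous γ ∧ (∀ v, IsUnit (γ v)) ∧ (∀ z, γ (0, z) = 1) ∧
      (∀ z : Circle, γ (1, z) = uu x y z) := by
  obtain ⟨P, Q, hPc, hP1, hP2, hP3, hP4, hP5⟩ := exists_proj
    (by rintro _ ⟨c, rfl⟩; exact W_Rm 1 c) (W_GG 1 x y)
    (by rintro _ ⟨c, rfl⟩; exact W_Rm (-1) c) (W_GG (-1) x y) hr D
  -- the coefficients
  set B : Circle → Circle → I → R := fun z w θ => at' (P z θ (io w)) 0 with hB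
  have hW : ∀ (z : Circle) (h : H ℤ R), ((z : ℂ) • (1 : E R) - (W 1 : E R)) h =
      (z : ℂ) • h - (W 1 : E R) h :=
    fun z h => by rw [sub_apply, smul_apply, one_app]
  have hker : ∀ z θ h, (W 1 : E R) (P z θ h) = (z : ℂ) • (P z θ h) := by
    intro z θ h
    have h1 := congrArg (fun F : E R => F h) (hP1 z θ)
    simp only [mul_app] at h1
    rw [hW] at h1
    have h2 : (z : ℂ) • (P z θ h) - (W 1 : E R) (P z θ h) = 0 := h1
    exact (sub_eq_zero.mp h2).symm
  have hPB : ∀ z w θ, P z θ (io w) = Rm (B z w θ) (io z) := fun z w θ => eig_eq (hker z θ _)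
  have hfix : ∀ w θ, P w θ (io w) = io w := by
    intro w θ
    rw [hP3, sub_apply, mul_app, hW, W_io, sub_self, map_zero, sub_zero, one_app]
  have hPR : ∀ (z : Circle) (θ : I) (c : R) (h : H ℤ R), P z θ (Rm c h) = Rm c (P z θ h) := by
    intro z θ c h
    have := congrArg (fun F : E R => F h) (hP4 z θ (Rm c) ⟨c, rfl⟩)
    exact this
  have hBB : ∀ z w θ, B w z θ * B z w θ = 1 := by
    intro z w θ
    have h1 := congrArg (fun F : E R => F (io w)) (hP2 z w θ)
    have h2 : P w θ (P z θ (io w)) = P w θ (io w) := h1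
    rw [hfix, hPB z w, hPR, hPB w z, Rm_Rm] at h2
    have h3 : at' (Rm (B w z θ * B z w θ) (io w)) 0 = at' (io w : H ℤ R) 0 := by rw [h2]
    rwa [at_Rm, at_io_zero, one_mul] at h3
  have hglue : ∀ z : Circle, B z 1 1 = uu x y z * B z 1 0 := by
    intro z
    have h1 := congrArg (fun F : E R => F (io 1)) (hP5 z)
    have h2 : P z 1 (GG x y (io 1)) = GG x y (P z 0 (io 1)) := h1
    rw [GG_io] at h2
    have e1 : uu x y ((1 : Circle) : ℂ) = 1 := by
      rw [Circle.coe_one, uu_one]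
    rw [e1, hPR, hPB z 1, hPB z 1] at h2
    have h3 : at' (Rm (1 : R) (Rm (B z 1 1) (io z))) 0 = at' (GG x y (Rm (B z 1 0) (io z))) 0 := by
      rw [h2]
    have h4 : GG x y (Rm (B z 1 0) (io z)) = Rm (B z 1 0) (GG x y (io z)) := by
      rw [← mul_app, GG_Rm, mul_app]
    rw [h4, GG_io, Rm_Rm, at_Rm, at_io_zero, at_Rm, at_Rm, at_io_zero, one_mul, mul_one,
      one_mul] at h3
    exact h3
  have hBc : Continuous (fun v : Circle × I => B v.1 1 v.2) := by
    have h1 : Continuous (fun v : Circle × I => (evH 0 : H ℤ R →L[ℂ] R) (P v.1 v.2 (io 1))) :=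
      (ContinuousLinearMap.continuous _).comp (hPc.clm_apply continuous_const)
    exact h1
  -- unit structure
  let U : Circle → I → Rˣ := fun z θ => ⟨B z 1 θ, B 1 z θ, hBB 1 z θ, hBB z 1 θ⟩
  have hU : ∀ z θ, (U z θ : R) = B z 1 θ := fun z θ => rfl
  have hUinv : ∀ z θ, ((U z θ)⁻¹ : Rˣ) = (⟨B 1 z θ, B z 1 θ, hBB z 1 θ, hBB 1 z θ⟩ : Rˣ) :=
    fun z θ => rfl
  refine ⟨fun v => B v.2 1 v.1 * Ring.inverse (B v.2 1 0), ?_, ?_, ?_, ?_⟩
  · have h1 : Continuous (fun v : I × Circle => B v.2 1 v.1) :=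
      hBc.comp (continuous_snd.prodMk continuous_fst)
    have h2 : Continuous (fun v : I × Circle => B v.2 1 0) :=
      hBc.comp (continuous_snd.prodMk continuous_const)
    have h3 : Continuous (fun v : I × Circle => Ring.inverse (B v.2 1 0)) := by
      rw [continuous_iff_continuousAt]
      intro v
      have := NormedRing.inverse_continuousAt (U v.2 0)
      rw [hU] at this
      exact ContinuousAt.comp (g := Ring.inverse) (f := fun v : I × Circle => B v.2 1 0)
        this h2.continuousAt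
    exact h1.mul h3
  · intro v
    refine IsUnit.mul ⟨U v.2 v.1, rfl⟩ ?_
    have : Ring.inverse (B v.2 1 0) = ((U v.2 0)⁻¹ : Rˣ) := Ring.inverse_unit (U v.2 0)
    rw [this]
    exact Units.isUnit _
  · intro z
    exact Ring.mul_inverse_cancel _ ⟨U z 0, rfl⟩
  · intro z
    simp only
    rw [hglue, mul_assoc, Ring.mul_inverse_cancel _ ⟨U z 0, rfl⟩, mul_one]

end

end Pool.Agent.H34.Loop
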