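import Mathlib
import Pool.Agent.H34.Loop2

/-!
# The Banach algebra example, part 3: the idempotent for the square
-/

set_option autoImplicit false
set_option linter.unusedSectionVars false
set_option synthInstance.maxHeartbeats 400000

namespace Pool.Agent.H34.Loop

open Set
open scoped ENNReal unitInterval

section

variable {R : Type} [NormedRing R] [NormedAlgebra ℂ R] [CompleteSpace R]

/-- parameter as a complex number -/
noncomputable def th (θ : I) : ℂ := ((θ : ℝ) : ℂ)

/-- the off-diagonal scalar -/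
noncomputable def ct (θ : I) : ℂ := ((Real.sqrt ((θ : ℝ) * (1 - θ)) : ℝ) : ℂ)

theorem ct_sq (θ : I) : ct θ * ct θ = th θ * (1 - th θ) := by
  unfold ct th
  rw [← Complex.ofReal_mul, Real.mul_self_sqrt]
  · push_cast; ring
  · exact mul_nonneg θ.2.1 (by linarith [θ.2.2])

theorem continuous_th : Continuous th := by
  unfold th; fun_prop

theorem continuous_ct : Continuous ct := by
  unfold ct; fun_prop

variable (x y : R)

/-- first column entry -/
noncomputable def fa (x : R) (θ : I) : R := (1 - th θ) • (1 : R) + th θ • x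

/-- second column entry -/
noncomputable def fb (x : R) (θ : I) : R := ct θ • ((1 : R) - x)

theorem continuous_fa (x : R) : Continuous (fa x) := by
  unfold fa
  exact ((continuous_const.sub continuous_th).smul continuous_const).add
    (continuous_th.smul continuous_const)

theorem continuous_fb (x : R) : Continuous (fb x) := by
  unfold fb
  exact continuous_ct.smul continuous_const

theorem fa_fb (hyx : y * x = 1) (θ : I) : fa y θ * fa x θ + fb y θ * fb x θ = 1 := by
  have h1 : fa y θ * fa x θ = ((1 - th θ) * (1 - th θ) + th θ * th θ) • (1 : R) +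
      ((1 - th θ) * th θ) • x + ((1 - th θ) * th θ) • y := by
    unfold fa
    simp only [add_mul, mul_add, smul_mul_assoc, mul_smul_comm, one_mul, mul_one, hyx, smul_add,
      smul_smul]
    module
  have h2 : fb y θ * fb x θ = (2 * (ct θ * ct θ)) • (1 : R) - (ct θ * ct θ) • x -
      (ct θ * ct θ) • y := by
    unfold fb
    simp only [sub_mul, mul_sub, smul_mul_assoc, mul_smul_comm, one_mul, mul_one, hyx, smul_sub,
      smul_smul]
    module
  rw [h1, h2, ct_sq]
  module

theorem fa_zero (x : R) : fa x 0 = 1 := by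
  simp [fa, th]

theorem fa_one (x : R) : fa x 1 = x := by
  simp [fa, th]

theorem fb_zero (x : R) : fb x 0 = 0 := by
  simp [fb, ct]

theorem fb_one (x : R) : fb x 1 = 0 := by
  simp [fb, ct]

/-- the idempotent for the square -/
noncomputable def qf (x y : R) (θ : I) : E R :=
  P2 + (unL (R := R) 1 1 (fa x θ * fa y θ) + unL (R := R) 1 0 (fa x θ * fb y θ) +
    unL (R := R) 0 1 (fb x θ * fa y θ) + unL (R := R) 0 0 (fb x θ * fb y θ))

theorem continuous_qf : Continuous (qf x y) := by
  unfold qf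
  refine continuous_const.add (((Continuous.add ?_ ?_).add ?_).add ?_)
  · exact (ContinuousLinearMap.continuous _).comp ((continuous_fa x).mul (continuous_fa y))
  · exact (ContinuousLinearMap.continuous _).comp ((continuous_fa x).mul (continuous_fb y))
  · exact (ContinuousLinearMap.continuous _).comp ((continuous_fb x).mul (continuous_fa y))
  · exact (ContinuousLinearMap.continuous _).comp ((continuous_fb x).mul (continuous_fb y))

/-- the idempotent as a path -/
noncomputable def qp (x y : R) : PA (E R) := ⟨qf x y, continuous_qf x y⟩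

theorem at_qf (θ : I) (h : H ℤ R) (k : ℤ) : at' (qf x y θ h) k =
    if 2 ≤ k then at' h k else if k = 1 then fa x θ * (fa y θ * at' h 1 + fb y θ * at' h 0)
    else if k = 0 then fb x θ * (fa y θ * at' h 1 + fb y θ * at' h 0) else 0 := by
  unfold qf
  simp only [add_apply, at_add, unL_apply, at_un, at_P2]
  by_cases h2 : 2 ≤ k
  · have h1 : k ≠ 1 := by omega
    have h0 : k ≠ 0 := by omega
    simp [h2, h1, h0]
  · by_cases h1 : k = 1
    · subst h1
      simp [mul_add, mul_assoc]
    · by_cases h0 : k = 0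
      · subst h0
        simp [mul_add, mul_assoc]
      · simp [h2, h1, h0]

theorem at_qf_of_ge (θ : I) (h : H ℤ R) {k : ℤ} (hk : 2 ≤ k) :
    at' (qf x y θ h) k = at' h k := by
  rw [at_qf, if_pos hk]

theorem at_qf_of_neg (θ : I) (h : H ℤ R) {k : ℤ} (hk : k < 0) :
    at' (qf x y θ h) k = 0 := by
  rw [at_qf, if_neg (by omega), if_neg (by omega), if_neg (by omega)]

theorem at_qf_one (θ : I) (h : H ℤ R) :
    at' (qf x y θ h) 1 = fa x θ * (fa y θ * at' h 1 + fb y θ * at' h 0) := by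
  rw [at_qf, if_neg (by omega), if_pos rfl]

theorem at_qf_zero (θ : I) (h : H ℤ R) :
    at' (qf x y θ h) 0 = fb x θ * (fa y θ * at' h 1 + fb y θ * at' h 0) := by
  rw [at_qf, if_neg (by omega), if_neg (by omega), if_pos rfl]

variable {x y}

theorem qf_of_high (θ : I) {h : H ℤ R} (hh : ∀ k < 2, at' h k = 0) : qf x y θ h = h := by
  apply H_ext
  intro k
  rw [at_qf, hh 1 (by norm_num), hh 0 (by norm_num)]
  split_ifs with h1 h2 h3
  · rfl
  · rw [hh k (by omega)]; simp
  · rw [hh k (by omega)]; simp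
  · rw [hh k (by omega)]

theorem qf_of_low (θ : I) {h : H ℤ R} (hh : ∀ k, 0 ≤ k → at' h k = 0) : qf x y θ h = 0 := by
  apply H_ext
  intro k
  rw [at_qf, hh 1 (by norm_num), hh 0 (by norm_num), at_zero]
  split_ifs with h1 h2 h3
  · rw [hh k (by omega)]
  · simp
  · simp
  · rfl

theorem qf_idem (hyx : y * x = 1) (θ : I) : qf x y θ * qf x y θ = qf x y θ := by
  apply op_ext
  intro h k
  rw [mul_app, at_qf x y θ (qf x y θ h), at_qf_one, at_qf_zero]
  have key : fa y θ * (fa x θ * (fa y θ * at' h 1 + fb y θ * at' h 0)) +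
      fb y θ * (fb x θ * (fa y θ * at' h 1 + fb y θ * at' h 0)) =
      fa y θ * at' h 1 + fb y θ * at' h 0 := by
    rw [← mul_assoc, ← mul_assoc (fb y θ), ← add_mul, fa_fb x y hyx, one_mul]
  rw [key, at_qf]
  split_ifs <;> rfl

theorem qf_Rm (θ : I) (c : R) : qf x y θ * Rm c = Rm c * qf x y θ := by
  apply op_ext
  intro h k
  rw [mul_app, mul_app, at_Rm, at_qf, at_qf, at_Rm, at_Rm, at_Rm]
  split_ifs
  · rfl
  · simp only [add_mul, mul_assoc]
  · simp only [add_mul, mul_assoc]
  · rw [zero_mul]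

theorem at_GG (h : H ℤ R) (k : ℤ) : at' (GG x y h) k =
    (1 - x * y) * (((om k / om (k - 1) : ℝ) : ℂ) • at' h (k - 1)) + x * y * at' h k := by
  unfold GG
  rw [add_apply, at_add, mul_app, at_Lm, at_Lm, at_W]

theorem qf_GG (hyx : y * x = 1) : qf x y 1 * GG x y = GG x y * qf x y 0 := by
  have hp : x * y * (1 - x * y) = 0 := by
    rw [mul_sub, mul_one, mul_assoc, ← mul_assoc y, hyx, one_mul, sub_self]
  have hp' : x * y * (x * y) = x * y := by
    rw [mul_assoc, ← mul_assoc y, hyx, one_mul]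
  apply op_ext
  intro h k
  rw [mul_app, mul_app, at_qf, at_GG (qf x y 0 h), at_qf x y 0 h (k - 1), at_qf x y 0 h k,
    fa_one, fa_one, fb_one, fb_one, fa_zero, fa_zero, fb_zero, fb_zero]
  simp only [zero_mul, add_zero, one_mul]
  by_cases h2 : 2 ≤ k
  · have h1 : k ≠ 1 := by omega
    rw [if_pos h2, at_GG]
    congr 2
    · by_cases h3 : k = 2
      · subst h3
        norm_num
      · have h4 : 2 ≤ k - 1 := by omega
        rw [if_pos h4]
    · rw [if_pos h2]
  · by_cases h1 : k = 1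
    · subst h1
      have e : (1 - x * y) * (((om 1 / om (1 - 1) : ℝ) : ℂ) • (0 : R)) = 0 := by simp
      norm_num
      rw [at_GG, ← mul_assoc, mul_add, ← mul_assoc, hp, zero_mul, zero_add, ← mul_assoc,
        hp']
    · have h3 : ¬ (2 ≤ k - 1) := by omega
      have h4 : ¬ (k - 1 = 1) := by omega
      simp [h2, h1, h3, h4]

theorem qp_mem (hyx : y * x = 1) : qp x y ∈ Phi (range Rm) (GG x y) := by
  refine ⟨?_, qf_GG hyx⟩
  rintro θ _ ⟨c, rfl⟩
  exact qf_Rm (x := x) (y := y) θ c

/-- uniform bound -/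
theorem norm_pa_le {F : PA (E R)} {C : ℝ} (hC : 0 ≤ C)
    (h : ∀ θ h k, ‖at' (F θ h) k‖ ≤ C * ‖h‖) : ‖F‖ ≤ C := by
  rw [ContinuousMap.norm_le _ hC]
  intro θ
  exact norm_op_le hC (h θ)

variable (R) in
/-- constant element `t` -/
noncomputable def tt : PA (E R) := ContinuousMap.const I (W 1)

variable (R) in
/-- constant element `s` -/
noncomputable def ss : PA (E R) := ContinuousMap.const I (W (-1))

theorem tt_ss : tt R * ss R = 1 := by
  apply pa_ext; intro θ
  rw [pa_mul, pa_one]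
  change W 1 * W (-1) = 1
  rw [← W_add, add_neg_cancel, W_zero]

theorem ss_tt : ss R * tt R = 1 := by
  apply pa_ext; intro θ
  rw [pa_mul, pa_one]
  change W (-1) * W 1 = 1
  rw [← W_add, neg_add_cancel, W_zero]

theorem tt_pow_apply (n : ℕ) (θ : I) : (tt R ^ n) θ = W n := by
  rw [pa_pow]
  change W 1 ^ n = W n
  rw [W_pow, mul_one]

theorem ss_pow_apply (n : ℕ) (θ : I) : (ss R ^ n) θ = W (-(n : ℤ)) := by
  rw [pa_pow]
  change W (-1) ^ n = W (-(n : ℤ))
  rw [W_pow, mul_neg_one]

theorem inv1 : tt R * tt R * qp x y = qp x y * (tt R * tt R * qp x y) := by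
  rw [← pow_two]
  apply pa_ext; intro θ
  rw [pa_mul, pa_mul, pa_mul, tt_pow_apply]
  change W 2 * qf x y θ = qf x y θ * (W 2 * qf x y θ)
  apply ContinuousLinearMap.ext
  intro h
  rw [mul_app, mul_app, mul_app]
  refine (qf_of_high θ ?_).symm
  intro k hk
  have hk' : k - 2 < 0 := by omega
  rw [at_W, at_qf_of_neg _ _ _ _ hk', smul_zero]

theorem one_sub_qf_apply (θ : I) (h : H ℤ R) : (1 - qf x y θ) h = h - qf x y θ h := by
  rw [sub_apply, one_app]

theorem inv2 : ss R * ss R * (1 - qp x y) = (1 - qp x y) * (ss R * ss R * (1 - qp x y)) := by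
  rw [← pow_two]
  apply pa_ext; intro θ
  rw [pa_mul, pa_mul, pa_mul, ss_pow_apply]
  change W (-2) * (1 - qf x y θ) = (1 - qf x y θ) * (W (-2) * (1 - qf x y θ))
  apply ContinuousLinearMap.ext
  intro h
  rw [mul_app, mul_app, mul_app, one_sub_qf_apply θ ((W (-2) : E R) _)]
  have h0 : qf x y θ ((W (-2) : E R) ((1 - qf x y θ) h)) = 0 := by
    apply qf_of_low
    intro k hk
    have hk' : 2 ≤ k - (-2) := by omega
    rw [at_W, one_sub_qf_apply, at_sub, at_qf_of_ge _ _ _ _ hk', sub_self, smul_zero]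
  rw [h0, sub_zero]

theorem dec1 (n : ℕ) : ‖tt R ^ n * qp x y‖ ≤ (2 * (‖qp x y‖ + ‖1 - qp x y‖)) * (1 / 2) ^ n := by
  apply norm_pa_le (by positivity)
  intro θ h k
  rw [pa_mul, tt_pow_apply, mul_app, at_W]
  change ‖_ • at' (qp x y θ h) (k - n)‖ ≤ _
  by_cases hk : k - n < 0
  · have : at' (qp x y θ h) (k - n) = 0 := at_qf_of_neg x y θ h hk
    rw [this, smul_zero, norm_zero]
    positivity
  · rw [norm_smul, Complex.norm_real, Real.norm_eq_abs, abs_of_pos (div_pos (om_pos _) (om_pos _))]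
    have h1 : om k / om (k - n) ≤ 2 * (1 / 2 : ℝ) ^ n := by
      rw [div_le_iff₀ (om_pos _)]
      have := om_fwd (k - n) (by omega) n
      rwa [sub_add_cancel] at this
    have h2 : ‖at' (qp x y θ h) (k - n)‖ ≤ (‖qp x y‖ + ‖1 - qp x y‖) * ‖h‖ := by
      calc ‖at' (qp x y θ h) (k - n)‖ ≤ ‖qp x y θ h‖ := norm_at_le _ _
        _ ≤ ‖qp x y θ‖ * ‖h‖ := ContinuousLinearMap.le_opNorm _ _
        _ ≤ ‖qp x y‖ * ‖h‖ := by gcongr; exact ContinuousMap.norm_coe_le_norm _ _
        _ ≤ _ := by gcongr; linarith [norm_nonneg (1 - qp x y)]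
    calc om k / om (k - n) * ‖at' (qp x y θ h) (k - n)‖
        ≤ (2 * (1 / 2 : ℝ) ^ n) * ((‖qp x y‖ + ‖1 - qp x y‖) * ‖h‖) := by
          apply mul_le_mul h1 h2 (norm_nonneg _) (by positivity)
      _ = _ := by ring

theorem dec2 (n : ℕ) :
    ‖ss R ^ n * (1 - qp x y)‖ ≤ (2 * (‖qp x y‖ + ‖1 - qp x y‖)) * (1 / 2) ^ n := by
  apply norm_pa_le (by positivity)
  intro θ h k
  rw [pa_mul, ss_pow_apply, mul_app, at_W, sub_neg_eq_add]
  by_cases hk : 2 ≤ k + n
  · have : at' ((1 - qp x y) θ h) (k + n) = 0 := by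
      change at' ((1 - qf x y θ) h) (k + n) = 0
      rw [one_sub_qf_apply, at_sub, at_qf_of_ge x y θ h hk, sub_self]
    rw [this, smul_zero, norm_zero]
    positivity
  · rw [norm_smul, Complex.norm_real, Real.norm_eq_abs, abs_of_pos (div_pos (om_pos _) (om_pos _))]
    have h1 : om k / om (k + n) ≤ 2 * (1 / 2 : ℝ) ^ n := by
      rw [div_le_iff₀ (om_pos _)]
      have := om_bwd (k + n) (by omega) n
      rwa [add_sub_cancel_right] at this
    have h2 : ‖at' ((1 - qp x y) θ h) (k + n)‖ ≤ (‖qp x y‖ + ‖1 - qp x y‖) * ‖h‖ := by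
      calc ‖at' ((1 - qp x y) θ h) (k + n)‖ ≤ ‖(1 - qp x y) θ h‖ := norm_at_le _ _
        _ ≤ ‖(1 - qp x y) θ‖ * ‖h‖ := ContinuousLinearMap.le_opNorm _ _
        _ ≤ ‖1 - qp x y‖ * ‖h‖ := by gcongr; exact ContinuousMap.norm_coe_le_norm _ _
        _ ≤ _ := by gcongr; linarith [norm_nonneg (qp x y)]
    calc om k / om (k + n) * ‖at' ((1 - qp x y) θ h) (k + n)‖
        ≤ (2 * (1 / 2 : ℝ) ^ n) * ((‖qp x y‖ + ‖1 - qp x y‖) * ‖h‖) := by
          apply mul_le_mul h1 h2 (norm_nonneg _) (by positivity)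
      _ = _ := by ring

theorem qp_idem (hyx : y * x = 1) : qp x y * qp x y = qp x y := by
  apply pa_ext; intro θ
  rw [pa_mul]
  exact qf_idem hyx θ

end

end Pool.Agent.H34.Loop
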