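import Mathlib
import Pool.Agent.H34.Expo

/-!
# Deforming homotopies into the kernel of a homomorphism; winding numbers
-/

set_option autoImplicit false
set_option linter.unusedSectionVars false

namespace Pool.Agent.H34.Loop

open Set Filter Topology
open scoped unitInterval

section

variable {R : Type} [NormedRing R] [NormedAlgebra ℂ R] [CompleteSpace R]

variable (R) in
/-- loops in `R` -/
abbrev LR : Type := C(Circle, R)

/-- evaluation as an algebra homomorphism -/
noncomputable def evL (z : Circle) : LR R →ₐ[ℂ] R where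
  toFun F := F z
  map_one' := rfl
  map_mul' _ _ := rfl
  map_zero' := rfl
  map_add' _ _ := rfl
  commutes' _ := rfl

theorem continuous_evL (z : Circle) : Continuous (evL z : LR R →ₐ[ℂ] R) :=
  continuous_eval_const z

theorem ex_apply (F : LR R) (z : Circle) : (ex F) z = ex (F z) :=
  map_ex (evL z) (continuous_evL z) F

theorem isUnit_loop {F : LR R} (h : ∀ z, IsUnit (F z)) : IsUnit F := by
  have hc : Continuous (fun z => Ring.inverse (F z)) := by
    rw [continuous_iff_continuousAt]
    intro z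
    obtain ⟨u, hu⟩ := h z
    have := NormedRing.inverse_continuousAt u
    rw [hu] at this
    exact ContinuousAt.comp (g := Ring.inverse) (f := fun z => F z) this F.continuous.continuousAt
  refine ⟨⟨F, ⟨fun z => Ring.inverse (F z), hc⟩, ?_, ?_⟩, rfl⟩
  · ext1 z
    exact Ring.mul_inverse_cancel _ (h z)
  · ext1 z
    exact Ring.inverse_mul_cancel _ (h z)

theorem list_ex_comm {B : Type*} [NormedRing B] [NormedAlgebra ℂ B] [CompleteSpace B]
    (S : Set B) (hS : ∀ a ∈ S, ∀ b ∈ S, Commute a b) (hadd : ∀ a ∈ S, ∀ b ∈ S, a + b ∈ S)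
    (h0 : (0 : B) ∈ S) (L : List B) (hL : ∀ a ∈ L, a ∈ S) :
    L.sum ∈ S ∧ (L.map ex).prod = ex L.sum := by
  induction L with
  | nil => exact ⟨by simpa using h0, by simp [ex_zero]⟩
  | cons a L ih =>
    obtain ⟨h1, h2⟩ := ih (fun b hb => hL b (List.mem_cons_of_mem _ hb))
    have ha := hL a List.mem_cons_self
    refine ⟨?_, ?_⟩
    · rw [List.sum_cons]; exact hadd a ha _ h1
    · rw [List.map_cons, List.prod_cons, List.sum_cons, h2, ex_add (hS a ha _ h1)]

theorem deform {B : Type*} [NormedRing B] [NormedAlgebra ℂ B] [CompleteSpace B]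
    (sg : R →ₐ[ℂ] B) (hsg : Continuous sg) (hcomm : ∀ a b, Commute (sg a) (sg b))
    {γ : I × Circle → R} (hγ : Continuous γ) (hu : ∀ v, IsUnit (γ v)) (h0 : ∀ z, γ (0, z) = 1)
    (h1 : ∀ z, sg (γ (1, z)) = 1) :
    ∃ G : I × Circle → R, Continuous G ∧ (∀ v, IsUnit (G v)) ∧ (∀ v, sg (G v) = 1) ∧
      (∀ z, G (1, z) = γ (1, z)) ∧ (∀ z, G (0, z) = G (0, 1)) := by
  let Γ : C(I, C(Circle, R)) := ContinuousMap.curry ⟨γ, hγ⟩
  have hΓ : ∀ τ z, Γ τ z = γ (τ, z) := fun _ _ => rfl
  obtain ⟨L, hL⟩ := prod_ex (A := LR R) (Γ := Γ) Γ.continuous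
    (fun τ => isUnit_loop (fun z => by rw [hΓ]; exact hu _))
    (by ext1 z; rw [hΓ, h0]; rfl)
  -- the commuting set
  let S : Set B := Set.range sg
  have hS : ∀ a ∈ S, ∀ b ∈ S, Commute a b := by
    rintro _ ⟨a, rfl⟩ _ ⟨b, rfl⟩
    exact hcomm a b
  have hadd : ∀ a ∈ S, ∀ b ∈ S, a + b ∈ S := by
    rintro _ ⟨a, rfl⟩ _ ⟨b, rfl⟩
    exact ⟨a + b, map_add _ _ _⟩
  have h0S : (0 : B) ∈ S := ⟨0, map_zero _⟩
  set Ψ : LR R := L.sum with hΨ
  -- image of a product of exponentials
  have key : ∀ (c : ℂ) (z : Circle),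
      sg (((L.map (fun ψ => ex (c • ψ))).prod : LR R) z) = ex (c • sg (Ψ z)) := by
    intro c z
    have e1 : sg (((L.map (fun ψ => ex (c • ψ))).prod : LR R) z) =
        ((L.map (fun ψ : LR R => c • sg (ψ z))).map ex).prod := by
      have : sg (((L.map (fun ψ => ex (c • ψ))).prod : LR R) z) =
          (sg.comp (evL z)) ((L.map (fun ψ => ex (c • ψ))).prod : LR R) := rfl
      rw [this, map_list_prod, List.map_map, List.map_map]
      congr 1
      apply List.map_congr_left
      intro ψ _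
      simp only [Function.comp_apply, AlgHom.comp_apply]
      change sg ((ex (c • ψ)) z) = ex (c • sg (ψ z))
      rw [ex_apply, map_ex sg hsg, ContinuousMap.smul_apply, map_smul]
    rw [e1]
    rw [(list_ex_comm S hS hadd h0S (L.map (fun ψ : LR R => c • sg (ψ z))) (by
      intro a ha
      rw [List.mem_map] at ha
      obtain ⟨ψ, _, rfl⟩ := ha
      exact ⟨c • ψ z, map_smul _ _ _⟩)).2]
    congr 1
    have : sg (Ψ z) = (sg.comp (evL z)) Ψ := rfl
    rw [this, hΨ, map_list_sum, List.smul_sum, List.map_map]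
    rfl
  -- the logarithm is constant modulo the kernel
  have hb : ∀ z, ex (sg (Ψ z)) = 1 := by
    intro z
    have h2 := key 1 z
    rw [one_smul] at h2
    rw [← h2]
    have h3 : ((L.map (fun ψ => ex ((1 : ℂ) • ψ))).prod : LR R) = Γ 1 := by
      rw [hL]; congr 1; apply List.map_congr_left; intro ψ _; rw [one_smul]
    rw [h3, hΓ, h1]
  have hconst : ∀ z, sg (Ψ z) = sg (Ψ 1) := by
    intro z
    exact log_const (b := fun z => sg (Ψ z)) (hsg.comp Ψ.continuous) (fun v w => hcomm _ _)
      (fun v w => by simp only [hb]) z 1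
  let Ψ0 : LR R := ContinuousMap.const _ (Ψ 1)
  let G : ℝ → LR R := fun τ => (L.map (fun ψ => ex ((τ : ℂ) • ψ))).prod * ex (-((τ : ℂ) • Ψ)) *
    ex (Ψ0 + (τ : ℂ) • (Ψ - Ψ0))
  have hG : Continuous G := by
    refine Continuous.mul (Continuous.mul ?_ ?_) ?_
    · apply continuous_list_prod
      intro ψ _
      exact ex_continuous.comp (Complex.continuous_ofReal.smul continuous_const)
    · exact ex_continuous.comp (Complex.continuous_ofReal.smul continuous_const).neg
    · exact ex_continuous.comp (continuous_const.add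
        (Complex.continuous_ofReal.smul continuous_const))
  refine ⟨fun v => G (v.1 : ℝ) v.2, ?_, ?_, ?_, ?_, ?_⟩
  · exact ContinuousEval.continuous_eval.comp
      ((hG.comp (continuous_subtype_val.comp continuous_fst)).prodMk continuous_snd)
  · intro v
    have h2 : IsUnit (G (v.1 : ℝ)) := by
      refine ((IsUnit.mul ?_ (ex_isUnit _))).mul (ex_isUnit _)
      apply List.prod_isUnit
      intro m hm
      rw [List.mem_map] at hm
      obtain ⟨ψ, _, rfl⟩ := hm
      exact ex_isUnit _
    exact h2.map (evL v.2)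
  · rintro ⟨τ, z⟩
    have h2 : sg (G (τ : ℝ) z) = sg (((L.map (fun ψ => ex (((τ : ℝ) : ℂ) • ψ))).prod : LR R) z) *
        sg ((ex (-(((τ : ℝ) : ℂ) • Ψ))) z) * sg ((ex (Ψ0 + ((τ : ℝ) : ℂ) • (Ψ - Ψ0))) z) := by
      rw [← map_mul, ← map_mul]
      rfl
    change sg (G (τ : ℝ) z) = 1
    rw [h2, key, ex_apply, ex_apply, map_ex sg hsg, map_ex sg hsg]
    have h3 : sg ((-(((τ : ℝ) : ℂ) • Ψ)) z) = - (((τ : ℝ) : ℂ) • sg (Ψ z)) := by
      rw [ContinuousMap.neg_apply, ContinuousMap.smul_apply, map_neg, map_smul]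
    have h4 : sg ((Ψ0 + ((τ : ℝ) : ℂ) • (Ψ - Ψ0)) z) = sg (Ψ 1) := by
      rw [ContinuousMap.add_apply, ContinuousMap.smul_apply, ContinuousMap.sub_apply, map_add,
        map_smul, map_sub]
      change sg (Ψ 1) + _ • (sg (Ψ z) - sg (Ψ 1)) = _
      rw [hconst z, sub_self, smul_zero, add_zero]
    rw [h3, h4, ex_mul_ex_neg, one_mul, hb]
  · intro z
    have h2 : G 1 = Γ 1 := by
      have h3 : ((L.map (fun ψ => ex (((1 : ℝ) : ℂ) • ψ))).prod : LR R) = Γ 1 := by
        rw [hL]; congr 1; apply List.map_congr_left; intro ψ _; rw [Complex.ofReal_one, one_smul]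
      simp only [G]
      rw [h3, Complex.ofReal_one, one_smul, one_smul, add_sub_cancel, mul_assoc, ex_neg_mul_ex,
        mul_one]
    change G (1 : ℝ) z = _
    rw [h2, hΓ]
  · intro z
    have h2 : G 0 = ex Ψ0 := by
      have h3 : ((L.map (fun ψ => ex (((0 : ℝ) : ℂ) • ψ))).prod : LR R) = 1 := by
        apply List.prod_eq_one
        intro m hm
        rw [List.mem_map] at hm
        obtain ⟨ψ, _, rfl⟩ := hm
        rw [Complex.ofReal_zero, zero_smul, ex_zero]
      simp only [G]
      rw [h3, Complex.ofReal_zero, zero_smul, zero_smul, neg_zero, ex_zero, one_mul, one_mul,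
        add_zero]
    change G (0 : ℝ) z = G (0 : ℝ) 1
    rw [h2, ex_apply, ex_apply]
    rfl

end

/-- no homotopy through nowhere vanishing functions from a constant to the identity -/
theorem no_winding : ¬ ∃ D : I × Circle → ℂ, Continuous D ∧ (∀ v, D v ≠ 0) ∧
    (∀ z : Circle, D (1, z) = z) ∧ (∀ z, D (0, z) = D (0, 1)) := by
  rintro ⟨D, hD, hne, h1, h0⟩
  let γ : I × Circle → ℂ := fun v => D v / D (0, 1)
  have hγ : Continuous γ := hD.div_const _
  obtain ⟨L, hL⟩ := prod_ex (A := LR ℂ) (Γ := ContinuousMap.curry ⟨γ, hγ⟩)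
    (ContinuousMap.continuous _)
    (fun τ => isUnit_loop (fun z => by
      change IsUnit (D (τ, z) / D (0, 1))
      exact (div_ne_zero (hne _) (hne _)).isUnit))
    (by
      ext1 z
      change D (0, z) / D (0, 1) = 1
      rw [h0, div_self (hne _)])
  have h2 : ∀ z : Circle, (z : ℂ) = D (0, 1) * ex (L.sum z) := by
    intro z
    have h3 := congrArg (fun F : LR ℂ => F z) hL
    have h4 : D (1, z) / D (0, 1) = ((L.map ex).prod : LR ℂ) z := h3
    have h5 : ((L.map ex).prod : LR ℂ) = ex L.sum :=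
      (list_ex_comm (B := LR ℂ) Set.univ (fun a _ b _ => Commute.all a b) (fun _ _ _ _ => trivial)
        trivial L (fun _ _ => trivial)).2
    rw [h5, ex_apply, h1, div_eq_iff (hne _)] at h4
    rw [h4, mul_comm]
  let f : ℝ → ℂ := fun s => L.sum (Circle.exp s) - s * Complex.I
  have hf : Continuous f := by
    refine (L.sum.continuous.comp Circle.exp.continuous).sub ?_
    exact Complex.continuous_ofReal.mul continuous_const
  have hexI : ∀ s : ℝ, ex ((s : ℂ) * Complex.I) = (Circle.exp s : ℂ) := by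
    intro s
    rw [Circle.coe_exp]
    unfold ex
    rw [← Complex.exp_eq_exp_ℂ]
  have hfc : ∀ s, ex (f s) = (D (0, 1))⁻¹ := by
    intro s
    have h3 : ex (L.sum (Circle.exp s)) = ex (f s) * ex ((s : ℂ) * Complex.I) := by
      rw [← ex_add (Commute.all _ _)]
      congr 1
      simp only [f]
      ring
    have h4 := h2 (Circle.exp s)
    rw [h3, hexI] at h4
    have h5 : (Circle.exp s : ℂ) ≠ 0 := Circle.coe_ne_zero _
    have h6 := hne (0, 1)
    have h7 : (1 : ℂ) = D (0, 1) * ex (f s) := by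
      apply mul_right_cancel₀ h5
      rw [one_mul, mul_assoc]
      exact h4
    exact (eq_inv_of_mul_eq_one_right h7.symm)
  have h3 := log_const (b := f) hf (fun v w => Commute.all _ _)
    (fun v w => by rw [hfc, hfc]) (2 * Real.pi) 0
  simp only [f] at h3
  rw [Circle.exp_two_pi, Circle.exp_zero] at h3
  have h4 : ((2 * Real.pi : ℝ) : ℂ) * Complex.I = 0 := by
    have : ((2 * Real.pi : ℝ) : ℂ) * Complex.I = (((0 : ℝ) : ℂ) * Complex.I) := by
      linear_combination -h3
    rw [this]; simp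
  have h5 : (2 * Real.pi : ℝ) = 0 := by
    have := mul_eq_zero.mp h4
    rcases this with h | h
    · exact_mod_cast h
    · exact absurd h Complex.I_ne_zero
  linarith [Real.pi_pos]

end Pool.Agent.H34.Loop
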