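import Mathlib
import Pool.Agent.H34.LinfOps
import Pool.Agent.H34.Homot

/-!
# A Toeplitz type algebra
-/

set_option autoImplicit false
set_option linter.unusedSectionVars false
set_option synthInstance.maxHeartbeats 400000

namespace Pool.Agent.H34.Loop

open Set Filter Topology
open scoped ENNReal unitInterval

/-- bounded operators on `ℓ^∞(ℕ)` -/
abbrev E1 : Type := H ℕ ℂ →L[ℂ] H ℕ ℂ

/-- bounded operators on `ℓ^∞(ℤ)` -/
abbrev E2 : Type := H ℤ ℂ →L[ℂ] H ℤ ℂ

/-- forward shift on `ℓ^∞(ℕ)`, `i` steps -/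
noncomputable def Sf (i : ℕ) : E1 :=
  mkOp (fun h k => if i ≤ k then at' h (k - i) else 0) 1 zero_le_one
    (fun h k => by
      split_ifs
      · rw [one_mul]; exact norm_at_le h _
      · rw [norm_zero]; positivity)
    (fun h h' k => by split_ifs <;> simp [at_add])
    (fun c h k => by split_ifs <;> simp [at_smul])

theorem at_Sf (i : ℕ) (h : H ℕ ℂ) (k : ℕ) :
    at' (Sf i h) k = if i ≤ k then at' h (k - i) else 0 := rfl

/-- backward shift on `ℓ^∞(ℕ)`, `i` steps -/
noncomputable def Sb (i : ℕ) : E1 :=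
  mkOp (fun h k => at' h (k + i)) 1 zero_le_one
    (fun h k => by rw [one_mul]; exact norm_at_le h _)
    (fun h h' k => by simp [at_add])
    (fun c h k => by simp [at_smul])

theorem at_Sb (i : ℕ) (h : H ℕ ℂ) (k : ℕ) : at' (Sb i h) k = at' h (k + i) := rfl

/-- shift on `ℓ^∞(ℤ)`, `i` steps -/
noncomputable def Ub (i : ℤ) : E2 :=
  mkOp (fun h k => at' h (k - i)) 1 zero_le_one
    (fun h k => by rw [one_mul]; exact norm_at_le h _)
    (fun h h' k => by simp [at_add])
    (fun c h k => by simp [at_smul])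

theorem at_Ub (i : ℤ) (h : H ℤ ℂ) (k : ℤ) : at' (Ub i h) k = at' h (k - i) := rfl

theorem Sf_zero : Sf 0 = 1 := by
  apply op_ext; intro h k; rw [at_Sf, if_pos (Nat.zero_le k), one_app, Nat.sub_zero]

theorem Sb_zero : Sb 0 = 1 := by
  apply op_ext; intro h k; rw [at_Sb, one_app, add_zero]

theorem Ub_zero : Ub 0 = 1 := by
  apply op_ext; intro h k; rw [at_Ub, one_app, sub_zero]

theorem Sf_add (i j : ℕ) : Sf (i + j) = Sf i * Sf j := by
  apply op_ext; intro h k
  rw [mul_app, at_Sf, at_Sf, at_Sf]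
  split_ifs with h1 h2 h3 h4 h5
  · congr 1; omega
  · omega
  · omega
  · omega
  · rfl
  · rfl

theorem Sb_add (i j : ℕ) : Sb (i + j) = Sb i * Sb j := by
  apply op_ext; intro h k
  rw [mul_app, at_Sb, at_Sb, at_Sb]
  congr 1; omega

theorem Ub_add (i j : ℤ) : Ub (i + j) = Ub i * Ub j := by
  apply op_ext; intro h k
  rw [mul_app, at_Ub, at_Ub, at_Ub]
  congr 1; omega

theorem Sb_Sf : Sb 1 * Sf 1 = 1 := by
  apply op_ext; intro h k
  rw [mul_app, at_Sb, at_Sf, if_pos (by omega), one_app, Nat.add_sub_cancel]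

/-- generator `X` -/
noncomputable def gX : E1 × E2 := (Sf 1, Ub 1)

/-- generator `Y` -/
noncomputable def gY : E1 × E2 := (Sb 1, Ub (-1))

theorem gY_gX : gY * gX = 1 := by
  apply Prod.ext
  · exact Sb_Sf
  · change Ub (-1) * Ub 1 = 1
    rw [← Ub_add, neg_add_cancel, Ub_zero]

theorem gX_pow (i : ℕ) : gX ^ i = (Sf i, Ub i) := by
  induction i with
  | zero => rw [pow_zero, Sf_zero, Nat.cast_zero, Ub_zero]; rfl
  | succ i ih =>
    rw [pow_succ, ih, Sf_add, Nat.cast_succ, Ub_add]; rfl

theorem gY_pow (i : ℕ) : gY ^ i = (Sb i, Ub (-(i : ℤ))) := by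
  induction i with
  | zero => rw [pow_zero, Sb_zero, Nat.cast_zero, neg_zero, Ub_zero]; rfl
  | succ i ih =>
    rw [pow_succ, ih, Sb_add, Nat.cast_succ, neg_add, Ub_add]; rfl

/-- every word in the generators is of the form `X ^ i * Y ^ j` -/
theorem words {w : E1 × E2} (hw : w ∈ Submonoid.closure ({gX, gY} : Set (E1 × E2))) :
    ∃ i j : ℕ, w = gX ^ i * gY ^ j := by
  have hYX : ∀ (i j : ℕ), ∃ i' j' : ℕ, gY ^ j * gX ^ i = gX ^ i' * gY ^ j' := by
    intro i j
    induction j generalizing i with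
    | zero => exact ⟨i, 0, by simp⟩
    | succ j ih =>
      cases i with
      | zero => exact ⟨0, j + 1, by rw [pow_zero, one_mul, mul_one]⟩
      | succ i =>
        obtain ⟨i', j', h⟩ := ih i
        refine ⟨i', j', ?_⟩
        rw [pow_succ, pow_succ', mul_assoc, ← mul_assoc gY, gY_gX, one_mul, h]
  induction hw using Submonoid.closure_induction with
  | mem a ha =>
    rcases ha with rfl | rfl
    · exact ⟨1, 0, by rw [pow_one, pow_zero, mul_one]⟩
    · exact ⟨0, 1, by rw [pow_one, pow_zero, one_mul]⟩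
  | one => exact ⟨0, 0, by rw [pow_zero, pow_zero, mul_one]⟩
  | mul a b _ _ ha hb =>
    obtain ⟨i, j, rfl⟩ := ha
    obtain ⟨k, l, rfl⟩ := hb
    obtain ⟨m, n, h⟩ := hYX k j
    refine ⟨i + m, n + l, ?_⟩
    rw [pow_add, pow_add, mul_assoc, ← mul_assoc (gY ^ j), h]
    simp only [mul_assoc]

/-- extension by zero -/
noncomputable def Jx : H ℕ ℂ →L[ℂ] H ℤ ℂ :=
  mkOp (fun h k => if 0 ≤ k then at' h k.toNat else 0) 1 zero_le_one
    (fun h k => by
      split_ifs
      · rw [one_mul]; exact norm_at_le h _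
      · rw [norm_zero]; positivity)
    (fun h h' k => by split_ifs <;> simp [at_add])
    (fun c h k => by split_ifs <;> simp [at_smul])

theorem at_Jx (h : H ℕ ℂ) (k : ℤ) : at' (Jx h) k = if 0 ≤ k then at' h k.toNat else 0 := rfl

/-- restriction -/
noncomputable def Jr : H ℤ ℂ →L[ℂ] H ℕ ℂ :=
  mkOp (fun h k => at' h (k : ℤ)) 1 zero_le_one
    (fun h k => by rw [one_mul]; exact norm_at_le h _)
    (fun h h' k => by simp [at_add])
    (fun c h k => by simp [at_smul])

theorem at_Jr (h : H ℤ ℂ) (k : ℕ) : at' (Jr h) k = at' h (k : ℤ) := rfl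

/-- finite section projections -/
noncomputable def Pn (n : ℕ) : E1 :=
  mkOp (fun h k => if k < n then at' h k else 0) 1 zero_le_one
    (fun h k => by
      split_ifs
      · rw [one_mul]; exact norm_at_le h _
      · rw [norm_zero]; positivity)
    (fun h h' k => by split_ifs <;> simp [at_add])
    (fun c h k => by split_ifs <;> simp [at_smul])

theorem at_Pn (n : ℕ) (h : H ℕ ℂ) (k : ℕ) : at' (Pn n h) k = if k < n then at' h k else 0 := rfl

theorem norm_Pn_le (n : ℕ) : ‖Pn n‖ ≤ 1 := norm_mkOp_le _ _ _ _ _ _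

/-- operators approximated by their finite sections -/
def Kset : Set E1 := {a | Tendsto (fun n => Pn n * a * Pn n) atTop (𝓝 a)}

theorem norm_section_le (n : ℕ) (a : E1) : ‖Pn n * a * Pn n‖ ≤ ‖a‖ := by
  calc ‖Pn n * a * Pn n‖ ≤ ‖Pn n * a‖ * ‖Pn n‖ := norm_mul_le _ _
    _ ≤ (‖Pn n‖ * ‖a‖) * ‖Pn n‖ := by gcongr; exact norm_mul_le _ _
    _ ≤ (1 * ‖a‖) * 1 := by
        have := norm_Pn_le n
        gcongr
    _ = ‖a‖ := by ring

theorem section_sub (n : ℕ) (a b : E1) :
    Pn n * a * Pn n - Pn n * b * Pn n = Pn n * (a - b) * Pn n := by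
  rw [mul_sub, sub_mul]

theorem Kset_add {a b : E1} (ha : a ∈ Kset) (hb : b ∈ Kset) : a + b ∈ Kset := by
  have := Tendsto.add ha hb
  refine this.congr (fun n => ?_)
  rw [mul_add, add_mul]

theorem section_smul (n : ℕ) (c : ℂ) (a : E1) :
    Pn n * (c • a) * Pn n = c • (Pn n * a * Pn n) := by
  apply op_ext; intro h k
  rw [mul_app, mul_app, smul_apply, map_smul, smul_apply, mul_app, mul_app]

theorem Kset_smul {a : E1} (c : ℂ) (ha : a ∈ Kset) : c • a ∈ Kset := by
  have := Tendsto.const_smul ha c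
  refine this.congr (fun n => ?_)
  rw [section_smul]

theorem Kset_zero : (0 : E1) ∈ Kset := by
  unfold Kset
  simp

theorem Kset_of_eventually {a : E1} {N : ℕ} (h : ∀ n ≥ N, Pn n * a * Pn n = a) : a ∈ Kset := by
  apply tendsto_const_nhds.congr'
  filter_upwards [eventually_ge_atTop N] with n hn
  exact (h n hn).symm

/-- diagonal argument: convergence of sections along convergent sequences -/
theorem section_tendsto {a : ℕ → E1} {b : E1} (ha : Tendsto a atTop (𝓝 b)) (hb : b ∈ Kset)
    {φ : ℕ → ℕ} (hφ : Tendsto φ atTop atTop) :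
    Tendsto (fun n => Pn (φ n) * a n * Pn (φ n)) atTop (𝓝 b) := by
  have h1 : Tendsto (fun n => Pn (φ n) * b * Pn (φ n)) atTop (𝓝 b) := hb.comp hφ
  have h2 : Tendsto (fun n => ‖a n - b‖) atTop (𝓝 0) := by
    have := (ha.sub_const b).norm
    rwa [sub_self, norm_zero] at this
  have h3 : Tendsto (fun n => Pn (φ n) * a n * Pn (φ n) - Pn (φ n) * b * Pn (φ n)) atTop
      (𝓝 0) := by
    apply squeeze_zero_norm (a := fun n => ‖a n - b‖) _ h2
    intro n
    rw [section_sub]
    exact norm_section_le _ _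
  have h4 := h3.add h1
  rw [zero_add] at h4
  refine h4.congr (fun n => ?_)
  rw [sub_add_cancel]

theorem isClosed_Kset : IsClosed Kset := by
  rw [← isSeqClosed_iff_isClosed]
  intro a b ha hab
  -- `ε/3` argument
  change Tendsto (fun n => Pn n * b * Pn n) atTop (𝓝 b)
  rw [Metric.tendsto_atTop]
  intro ε hε
  rw [Metric.tendsto_atTop] at hab
  obtain ⟨m, hm⟩ := hab (ε / 3) (by positivity)
  have h1 := hm m le_rfl
  have h2 : Tendsto (fun n => Pn n * a m * Pn n) atTop (𝓝 (a m)) := ha m
  rw [Metric.tendsto_atTop] at h2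
  obtain ⟨N, hN⟩ := h2 (ε / 3) (by positivity)
  refine ⟨N, fun n hn => ?_⟩
  have h3 := hN n hn
  rw [dist_eq_norm] at h1 h3 ⊢
  have h4 : ‖Pn n * b * Pn n - Pn n * a m * Pn n‖ ≤ ‖b - a m‖ := by
    rw [section_sub]; exact norm_section_le _ _
  have h5 : ‖b - a m‖ = ‖a m - b‖ := norm_sub_rev _ _
  calc ‖Pn n * b * Pn n - b‖ = ‖(Pn n * b * Pn n - Pn n * a m * Pn n) +
        (Pn n * a m * Pn n - a m) + (a m - b)‖ := by congr 1; abel
    _ ≤ ‖Pn n * b * Pn n - Pn n * a m * Pn n‖ + ‖Pn n * a m * Pn n - a m‖ + ‖a m - b‖ :=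
        norm_add₃_le
    _ < ε := by linarith

/-- compression of an operator on `ℓ^∞(ℤ)` -/
noncomputable def comp (b : E2) : E1 := Jr.comp (b.comp Jx)

theorem at_comp (b : E2) (h : H ℕ ℂ) (k : ℕ) : at' (comp b h) k = at' (b (Jx h)) (k : ℤ) := rfl

theorem continuous_comp : Continuous comp := by
  unfold comp
  exact continuous_const.clm_comp (continuous_id.clm_comp continuous_const)

theorem comp_add (a b : E2) : comp (a + b) = comp a + comp b := by
  apply op_ext; intro h k
  rw [at_comp, add_apply, at_add, add_apply, at_add, at_comp, at_comp]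

theorem comp_smul (c : ℂ) (a : E2) : comp (c • a) = c • comp a := by
  apply op_ext; intro h k
  rw [at_comp, smul_apply, at_smul, smul_apply, at_smul, at_comp]

/-- the closed subspace containing the algebra -/
noncomputable def PhiR : Submodule ℂ (E1 × E2) where
  carrier := {w | w.1 - comp w.2 ∈ Kset}
  add_mem' := by
    intro a b ha hb
    have := Kset_add ha hb
    change a.1 + b.1 - comp (a.2 + b.2) ∈ Kset
    rw [comp_add]
    convert this using 1
    abel
  zero_mem' := by
    change (0 : E1) - comp 0 ∈ Kset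
    have : (0 : E1) - comp 0 = 0 := by
      apply op_ext; intro h k
      rw [sub_apply, at_sub, at_comp]
      change (0 : ℂ) - 0 = 0
      exact sub_zero _
    rw [this]
    exact Kset_zero
  smul_mem' := by
    intro c a ha
    have := Kset_smul c ha
    change c • a.1 - comp (c • a.2) ∈ Kset
    have e : c • a.1 - comp (c • a.2) = c • (a.1 - comp a.2) := by
      apply op_ext; intro h k
      rw [comp_smul, sub_apply, at_sub, smul_apply, smul_apply, smul_apply, at_smul, at_smul,
        at_smul, sub_apply, at_sub, smul_sub]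
    rw [e]
    exact this

theorem isClosed_PhiR : IsClosed (PhiR : Set (E1 × E2)) := by
  have : (PhiR : Set (E1 × E2)) = (fun w : E1 × E2 => w.1 - comp w.2) ⁻¹' Kset := rfl
  rw [this]
  exact isClosed_Kset.preimage (continuous_fst.sub (continuous_comp.comp continuous_snd))

theorem word_mem (i j : ℕ) : gX ^ i * gY ^ j ∈ PhiR := by
  change (gX ^ i * gY ^ j).1 - comp (gX ^ i * gY ^ j).2 ∈ Kset
  rw [gX_pow, gY_pow]
  change Sf i * Sb j - comp (Ub i * Ub (-(j : ℤ))) ∈ Kset
  apply Kset_of_eventually (N := max i j)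
  intro n hn
  have hni : i ≤ n := (le_max_left _ _).trans hn
  have hnj : j ≤ n := (le_max_right _ _).trans hn
  have hform : ∀ (h : H ℕ ℂ) (k : ℕ), at' ((Sf i * Sb j - comp (Ub i * Ub (-(j : ℤ)))) h) k =
      if k < i ∧ i ≤ k + j then - at' h (k + j - i) else 0 := by
    intro h k
    rw [sub_apply, at_sub, mul_app, at_Sf, at_Sb, at_comp, mul_app, at_Ub, at_Ub, at_Jx]
    by_cases h1 : i ≤ k
    · have e1 : k - i + j = ((k : ℤ) - i - -(j : ℤ)).toNat := by omega
      rw [if_pos h1, if_pos (by omega), if_neg (by omega), e1, sub_self]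
    · rw [if_neg h1]
      by_cases h2 : i ≤ k + j
      · have e1 : k + j - i = ((k : ℤ) - i - -(j : ℤ)).toNat := by omega
        rw [if_pos (by omega), if_pos (by omega), e1, zero_sub]
      · rw [if_neg (by omega), if_neg (by omega), sub_zero]
  apply op_ext
  intro h k
  rw [mul_app, mul_app, at_Pn, hform, hform, at_Pn]
  by_cases h1 : k < i ∧ i ≤ k + j
  · have h2 : k < n := by omega
    have h3 : k + j - i < n := by omega
    simp only [if_pos h1, if_pos h2, if_pos h3]
  · simp only [if_neg h1]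
    split_ifs <;> rfl

/-- the Toeplitz type algebra -/
noncomputable def TA : Subalgebra ℂ (E1 × E2) :=
  (Algebra.adjoin ℂ ({gX, gY} : Set (E1 × E2))).topologicalClosure

theorem isClosed_TA : IsClosed (TA : Set (E1 × E2)) := Subalgebra.isClosed_topologicalClosure _

theorem TA_le_PhiR {w : E1 × E2} (hw : w ∈ TA) : w.1 - comp w.2 ∈ Kset := by
  have h1 : (TA : Set (E1 × E2)) ⊆ (PhiR : Set (E1 × E2)) := by
    unfold TA
    rw [Subalgebra.topologicalClosure_coe]
    apply closure_minimal _ isClosed_PhiR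
    have h2 : ((Algebra.adjoin ℂ ({gX, gY} : Set (E1 × E2)) : Subalgebra ℂ (E1 × E2)) :
        Set (E1 × E2)) = (Submodule.span ℂ
        (Submonoid.closure ({gX, gY} : Set (E1 × E2)) : Set (E1 × E2)) : Set (E1 × E2)) := by
      rw [← Algebra.adjoin_eq_span]
      rfl
    rw [h2]
    change Submodule.span ℂ _ ≤ PhiR
    rw [Submodule.span_le]
    intro w hw
    obtain ⟨i, j, rfl⟩ := words hw
    exact word_mem i j
  exact h1 hw

theorem gX_mem : gX ∈ TA := Subalgebra.le_topologicalClosure _ (Algebra.subset_adjoin (by simp))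

theorem gY_mem : gY ∈ TA := Subalgebra.le_topologicalClosure _ (Algebra.subset_adjoin (by simp))

/-- second components commute -/
theorem TA_comm {v w : E1 × E2} (hv : v ∈ TA) (hw : w ∈ TA) : Commute v.2 w.2 := by
  -- first: everything commutes with the generators
  have hgen : ∀ (n : ℤ) {w : E1 × E2}, w ∈ TA → Commute w.2 (Ub n) := by
    intro n w hw
    have h1 : TA ≤ (Subalgebra.centralizer ℂ ({Ub n} : Set E2)).comap (AlgHom.snd ℂ E1 E2) := by
      apply Subalgebra.topologicalClosure_minimal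
      · rw [Algebra.adjoin_le_iff]
        rintro a (rfl | rfl)
        · intro g hg
          rw [Set.mem_singleton_iff] at hg
          subst hg
          change Ub n * Ub 1 = Ub 1 * Ub n
          rw [← Ub_add, ← Ub_add, add_comm]
        · intro g hg
          rw [Set.mem_singleton_iff] at hg
          subst hg
          change Ub n * Ub (-1) = Ub (-1) * Ub n
          rw [← Ub_add, ← Ub_add, add_comm]
      · have : ((Subalgebra.centralizer ℂ ({Ub n} : Set E2)).comap (AlgHom.snd ℂ E1 E2) :
            Set (E1 × E2)) = {w : E1 × E2 | Ub n * w.2 = w.2 * Ub n} := by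
          ext w
          simp [Set.mem_centralizer_iff]
        rw [this]
        exact isClosed_eq (continuous_const.mul continuous_snd)
          (continuous_snd.mul continuous_const)
    have h2 := h1 hw
    have h3 : Ub n * w.2 = w.2 * Ub n := by
      have := (Subalgebra.mem_centralizer_iff ℂ).mp h2 (Ub n) (Set.mem_singleton _)
      exact this
    exact h3.symm
  have h1 : TA ≤ (Subalgebra.centralizer ℂ ({v.2} : Set E2)).comap (AlgHom.snd ℂ E1 E2) := by
    apply Subalgebra.topologicalClosure_minimal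
    · rw [Algebra.adjoin_le_iff]
      rintro a (rfl | rfl)
      · intro g hg
        rw [Set.mem_singleton_iff] at hg
        subst hg
        exact hgen 1 hv
      · intro g hg
        rw [Set.mem_singleton_iff] at hg
        subst hg
        exact hgen (-1) hv
    · have : ((Subalgebra.centralizer ℂ ({v.2} : Set E2)).comap (AlgHom.snd ℂ E1 E2) :
          Set (E1 × E2)) = {w : E1 × E2 | v.2 * w.2 = w.2 * v.2} := by
        ext w
        simp [Set.mem_centralizer_iff]
      rw [this]
      exact isClosed_eq (continuous_const.mul continuous_snd)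
        (continuous_snd.mul continuous_const)
  have h2 := h1 hw
  exact (Subalgebra.mem_centralizer_iff ℂ).mp h2 v.2 (Set.mem_singleton _)

end Pool.Agent.H34.Loop
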