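import Mathlib
import Pool.Agent.H34.Toep
import Pool.Agent.H34.Loop2

/-!
# The loop `1 + (z - 1) p` is not null homotopic in the units of the Toeplitz type algebra
-/

set_option autoImplicit false
set_option linter.unusedSectionVars false
set_option synthInstance.maxHeartbeats 400000

namespace Pool.Agent.H34.Loop

open Set Filter Topology
open scoped ENNReal unitInterval

/-- basis vectors -/
noncomputable def dl (j : ℕ) : H ℕ ℂ :=
  mkH (fun k => if k = j then 1 else 0) 1 (fun k => by split_ifs <;> simp)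

theorem at_dl (j k : ℕ) : at' (dl j) k = if k = j then 1 else 0 := rfl

/-- finite section matrix -/
noncomputable def Mt (n : ℕ) (a : E1) : Matrix (Fin n) (Fin n) ℂ :=
  Matrix.of (fun i j => at' (a (dl j)) i)

theorem Mt_apply (n : ℕ) (a : E1) (i j : Fin n) : Mt n a i j = at' (a (dl j)) i := rfl

theorem at_sum {ι : Type*} (s : Finset ι) (f : ι → H ℕ ℂ) (k : ℕ) :
    at' (∑ i ∈ s, f i) k = ∑ i ∈ s, at' (f i) k := by
  classical
  induction s using Finset.induction_on with
  | empty => simp [at_zero]
  | insert a s ha ih => rw [Finset.sum_insert ha, Finset.sum_insert ha, at_add, ih]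

theorem det_ne {n : ℕ} {a : E1} (hu : IsUnit (1 + Pn n * a * Pn n)) :
    (1 + Mt n a).det ≠ 0 := by
  intro hdet
  rw [← Matrix.exists_mulVec_eq_zero_iff] at hdet
  obtain ⟨v, hv, hMv⟩ := hdet
  set h : H ℕ ℂ := ∑ j : Fin n, v j • dl j with hh
  have hat : ∀ k : ℕ, at' h k = ∑ j : Fin n, v j * (if k = j then 1 else 0) := by
    intro k
    rw [hh, at_sum]
    rfl
  have hat1 : ∀ k : Fin n, at' h k = v k := by
    intro k
    rw [hat, Finset.sum_eq_single k]
    · simp
    · intro j _ hj
      have : (k : ℕ) ≠ j := fun e => hj (Fin.ext e.symm)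
      simp [this]
    · intro hk
      exact absurd (Finset.mem_univ _) hk
  have hat2 : ∀ k : ℕ, n ≤ k → at' h k = 0 := by
    intro k hk
    rw [hat]
    apply Finset.sum_eq_zero
    intro j _
    have : k ≠ j := by have := j.2; omega
    simp [this]
  have hP : Pn n h = h := by
    apply H_ext
    intro k
    rw [at_Pn]
    split_ifs with hk
    · rfl
    · rw [hat2 k (by omega)]
  have hker : (1 + Pn n * a * Pn n) h = 0 := by
    apply H_ext
    intro k
    rw [add_apply, at_add, one_app, mul_app, mul_app, hP, at_Pn, at_zero]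
    split_ifs with hk
    · have h1 := congrFun hMv ⟨k, hk⟩
      rw [Matrix.mulVec, dotProduct] at h1
      have h2 : a h = ∑ j : Fin n, v j • a (dl j) := by
        rw [hh, map_sum]
        apply Finset.sum_congr rfl
        intro j _
        rw [map_smul]
      have h3 : at' h k = v ⟨k, hk⟩ := hat1 ⟨k, hk⟩
      have h5 : at' (a h) k = ∑ j : Fin n, v j * at' (a (dl j)) k := by
        rw [h2, at_sum]
        rfl
      rw [h3, h5]
      have h6 : (0 : Fin n → ℂ) ⟨k, hk⟩ = 0 := rfl
      rw [h6] at h1
      rw [← h1]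
      have h4 : ∀ j : Fin n, (1 + Mt n a) ⟨k, hk⟩ j * v j =
          (if (⟨k, hk⟩ : Fin n) = j then v j else 0) + v j * at' (a (dl j)) k := by
        intro j
        rw [Matrix.add_apply, Mt_apply, Matrix.one_apply, add_mul]
        congr 1
        · split_ifs <;> simp
        · rw [mul_comm]
      rw [Finset.sum_congr rfl (fun j _ => h4 j), Finset.sum_add_distrib, Finset.sum_ite_eq]
      simp only [Finset.mem_univ, if_true]
    · rw [hat2 k (by omega), add_zero]
  obtain ⟨u, hu⟩ := hu
  have h0 : h = 0 := by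
    have h1 : (↑u⁻¹ * (1 + Pn n * a * Pn n) : E1) h = h := by
      rw [← hu, Units.inv_mul, one_app]
    rw [mul_app, hker, map_zero] at h1
    exact h1.symm
  apply hv
  funext j
  rw [← hat1 j, h0, at_zero]
  rfl

/-- uniform finite sections -/
theorem exists_section {V : Type*} [MetricSpace V] [CompactSpace V] {F : V → E1}
    (hF : Continuous F) (hu : ∀ v, IsUnit (F v)) (hK : ∀ v, F v - 1 ∈ Kset) :
    ∃ n : ℕ, ∀ v, IsUnit (1 + Pn (n + 1) * (F v - 1) * Pn (n + 1)) := by
  by_contra hcon
  push Not at hcon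
  choose v hv using hcon
  obtain ⟨w, φ, hφ, hw⟩ := CompactSpace.tendsto_subseq v
  have h1 : Tendsto (fun n => F (v (φ n)) - 1) atTop (𝓝 (F w - 1)) :=
    ((hF.tendsto w).comp hw).sub_const 1
  have h2 := section_tendsto h1 (hK w) (φ := fun n => φ n + 1)
    (tendsto_atTop_mono (fun n => Nat.le_succ _) hφ.tendsto_atTop)
  have h3 := h2.const_add (1 : E1)
  rw [add_sub_cancel] at h3
  have h4 : ∀ᶠ y in 𝓝 (F w), IsUnit y := by
    have : {y : E1 | IsUnit y} ∈ 𝓝 (F w) := Units.isOpen.mem_nhds (hu w)
    exact this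
  obtain ⟨n, hn⟩ := (h3.eventually h4).exists
  exact hv (φ n) hn

theorem comp_one : comp 1 = 1 := by
  apply op_ext
  intro h k
  rw [at_comp, one_app, one_app, at_Jx, if_pos (Int.natCast_nonneg k), Int.toNat_natCast]

/-- the isometry-like generator -/
noncomputable def tx : TA := ⟨gX, gX_mem⟩

/-- its left inverse -/
noncomputable def ty : TA := ⟨gY, gY_mem⟩

theorem ty_tx : ty * tx = 1 := Subtype.ext gY_gX

instance : CompleteSpace TA := isClosed_TA.completeSpace_coe

theorem at_p (h : H ℕ ℂ) (k : ℕ) : at' ((1 - Sf 1 * Sb 1 : E1) h) k =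
    if k = 0 then at' h 0 else 0 := by
  rw [sub_apply, at_sub, one_app, mul_app, at_Sf, at_Sb]
  by_cases hk : k = 0
  · subst hk; simp
  · have h1 : 1 ≤ k := by omega
    rw [if_pos h1, if_neg hk, Nat.sub_add_cancel h1, sub_self]

theorem no_homotopy : ¬ ∃ γ : I × Circle → TA, Continuous γ ∧ (∀ v, IsUnit (γ v)) ∧
    (∀ z, γ (0, z) = 1) ∧ (∀ z : Circle, γ (1, z) = uu tx ty z) := by
  rintro ⟨γ, hγ, hu, h0, h1⟩
  let sg : TA →ₐ[ℂ] E2 := (AlgHom.snd ℂ E1 E2).comp TA.val
  have hsg : Continuous sg := continuous_snd.comp continuous_subtype_val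
  have hsg1 : ∀ z : Circle, sg (γ (1, z)) = 1 := by
    intro z
    rw [h1]
    have e1 : sg (tx * ty) = 1 := by
      change Ub 1 * Ub (-1) = 1
      rw [← Ub_add, add_neg_cancel, Ub_zero]
    unfold uu
    rw [map_add, map_smul, map_sub, map_one, e1, sub_self, smul_zero, add_zero]
  obtain ⟨G, hG, hGu, hGs, hG1, hG0⟩ := deform (R := TA) (B := E2) sg hsg
    (fun a b => TA_comm a.2 b.2) hγ hu h0 hsg1
  let F : I × Circle → E1 := fun v => (G v : E1 × E2).1
  have hF : Continuous F := continuous_fst.comp (continuous_subtype_val.comp hG)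
  have hFu : ∀ v, IsUnit (F v) := fun v =>
    (hGu v).map ((AlgHom.fst ℂ E1 E2).comp TA.val)
  have hFK : ∀ v, F v - 1 ∈ Kset := by
    intro v
    have h2 := TA_le_PhiR (G v).2
    have h3 : (G v : E1 × E2).2 = 1 := hGs v
    rw [h3, comp_one] at h2
    exact h2
  obtain ⟨n, hn⟩ := exists_section hF hFu hFK
  refine no_winding ⟨fun v => (1 + Mt (n + 1) (F v - 1)).det, ?_, ?_, ?_, ?_⟩
  · apply Continuous.matrix_det
    apply Continuous.add continuous_const
    apply continuous_matrix
    intro i j
    have h2 : Continuous (fun v => (evH (i : ℕ) : H ℕ ℂ →L[ℂ] ℂ) ((F v - 1) (dl j))) :=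
      (ContinuousLinearMap.continuous _).comp ((hF.sub continuous_const).clm_apply
        continuous_const)
    exact h2
  · intro v
    exact det_ne (hn v)
  · intro z
    have h2 : F (1, z) - 1 = ((z : ℂ) - 1) • (1 - Sf 1 * Sb 1) := by
      have h3 : F (1, z) = 1 + ((z : ℂ) - 1) • (1 - Sf 1 * Sb 1) := by
        have h4 : G (1, z) = uu tx ty z := by rw [hG1, h1]
        change (G (1, z) : E1 × E2).1 = _
        rw [h4]
        rfl
      rw [h3, add_sub_cancel_left]
    have h3 : (1 + Mt (n + 1) (F (1, z) - 1)) =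
        Matrix.diagonal (fun i : Fin (n + 1) => if i = 0 then (z : ℂ) else 1) := by
      ext i j
      rw [Matrix.add_apply, Mt_apply, h2, smul_apply, at_smul, at_p, at_dl, Matrix.one_apply,
        Matrix.diagonal_apply]
      by_cases hij : i = j
      · subst hij
        rw [if_pos rfl, if_pos rfl]
        by_cases hi : i = 0
        · subst hi
          simp
        · have hi' : (i : ℕ) ≠ 0 := fun e => hi (Fin.ext e)
          rw [if_neg hi', if_neg hi]
          simp
      · rw [if_neg hij, if_neg hij]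
        by_cases hi : (i : ℕ) = 0
        · have hj : (0 : ℕ) ≠ j := fun e => hij (Fin.ext (hi.trans e))
          rw [if_pos hi, if_neg hj]
          simp
        · rw [if_neg hi]
          simp
    simp only
    rw [h3, Matrix.det_diagonal, Finset.prod_ite_eq']
    simp
  · intro z
    have h2 : F (0, z) = F (0, 1) := by
      change (G (0, z) : E1 × E2).1 = (G (0, 1) : E1 × E2).1
      rw [hG0]
    simp only
    rw [h2]

end Pool.Agent.H34.Loop
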