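import Mathlib
import Pool.Agent.H34.Big
import Pool.Agent.H34.Loop3
import Pool.Agent.H34.Toep2

/-!
# The counterexample
-/

set_option autoImplicit false
set_option linter.unusedSectionVars false
set_option synthInstance.maxHeartbeats 400000

namespace Pool.Agent.H34.Loop

open Set Filter Topology
open scoped ENNReal unitInterval

section

variable {R : Type} [NormedRing R] [NormedAlgebra ℂ R] [CompleteSpace R]

theorem no_gh (x y : R) (hno : ¬ ∃ γ : I × Circle → R, Continuous γ ∧ (∀ v, IsUnit (γ v)) ∧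
    (∀ z, γ (0, z) = 1) ∧ (∀ z : Circle, γ (1, z) = uu x y z))
    {r : PA (E R)} (hr : r ∈ Phi (range Rm) (GG x y)) :
    ¬ (r * r = r ∧ tt R * r = r * (tt R * r) ∧
      ss R * (1 - r) = (1 - r) * (ss R * (1 - r)) ∧
      ∃ m : ℕ, 0 < m ∧ ‖tt R ^ m * r‖ < 1 ∧ ‖ss R ^ m * (1 - r)‖ < 1) := by
  rintro ⟨h1, h2, h3, h4⟩
  exact hno (exists_homotopy x y hr
    { ts := tt_ss, st := ss_tt, rr := h1, tr := h2, sr := h3, dec := h4 })

theorem tt_mem (x y : R) : tt R ∈ Phi (range Rm) (GG x y) :=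
  const_mem_Phi (by rintro _ ⟨c, rfl⟩; exact W_Rm 1 c) (W_GG 1 x y)

theorem ss_mem (x y : R) : ss R ∈ Phi (range Rm) (GG x y) :=
  const_mem_Phi (by rintro _ ⟨c, rfl⟩; exact W_Rm (-1) c) (W_GG (-1) x y)

theorem counter_complex (x y : R) (hyx : y * x = 1)
    (hno : ¬ ∃ γ : I × Circle → R, Continuous γ ∧ (∀ v, IsUnit (γ v)) ∧
    (∀ z, γ (0, z) = 1) ∧ (∀ z : Circle, γ (1, z) = uu x y z)) :
    ∃ (B : Type) (_ : NormedAddCommGroup B) (_ : NormedSpace ℂ B)
    (_ : CompleteSpace B) (T : B ≃L[ℂ] B),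
    HasGeneralizedCLStructure (fun _ : ℤ => T) ∧ ¬ IsGeneralizedHyperbolic T := by
  let _ : NormedAlgebra ℂ (PA (E R)) := inferInstance
  let PhR : Subalgebra ℂ (PA (E R)) := Phi (range Rm) (GG x y)
  exact exists_counter PhR (isClosed_Phi _ _) (tt_mem x y) (ss_mem x y) (qp_mem hyx) tt_ss ss_tt
    (qp_idem hyx) inv1 inv2 _ (1 / 2) (by norm_num) (by norm_num) dec1 dec2
    (fun r hr => no_gh x y hno hr)

theorem counter_real (x y : R) (hyx : y * x = 1)
    (hno : ¬ ∃ γ : I × Circle → R, Continuous γ ∧ (∀ v, IsUnit (γ v)) ∧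
    (∀ z, γ (0, z) = 1) ∧ (∀ z : Circle, γ (1, z) = uu x y z)) :
    ∃ (B : Type) (_ : NormedAddCommGroup B) (_ : NormedSpace ℝ B)
    (_ : CompleteSpace B) (T : B ≃L[ℝ] B),
    HasGeneralizedCLStructure (fun _ : ℤ => T) ∧ ¬ IsGeneralizedHyperbolic T := by
  let _ : NormedAlgebra ℝ (PA (E R)) := NormedAlgebra.restrictScalars ℝ ℂ (PA (E R))
  let PhR : Subalgebra ℝ (PA (E R)) :=
    { (Phi (range Rm) (GG x y)).toSubring with
      algebraMap_mem' := fun c => (Phi (range Rm) (GG x y)).algebraMap_mem (c : ℂ) }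
  exact exists_counter PhR (isClosed_Phi _ _) (tt_mem x y) (ss_mem x y) (qp_mem hyx) tt_ss ss_tt
    (qp_idem hyx) inv1 inv2 _ (1 / 2) (by norm_num) (by norm_num) dec1 dec2
    (fun r hr => no_gh x y hno hr)

end

theorem main_real : ∃ (B : Type) (_ : NormedAddCommGroup B) (_ : NormedSpace ℝ B)
    (_ : CompleteSpace B) (T : B ≃L[ℝ] B),
    HasGeneralizedCLStructure (fun _ : ℤ => T) ∧ ¬ IsGeneralizedHyperbolic T :=
  counter_real tx ty ty_tx no_homotopy

theorem main_complex : ∃ (B : Type) (_ : NormedAddCommGroup B) (_ : NormedSpace ℂ B)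
    (_ : CompleteSpace B) (T : B ≃L[ℂ] B),
    HasGeneralizedCLStructure (fun _ : ℤ => T) ∧ ¬ IsGeneralizedHyperbolic T :=
  counter_complex tx ty ty_tx no_homotopy

end Pool.Agent.H34.Loop
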